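import Mathlib

/-!
# Row TD, piece P3: Schur complement of a block diagonal rectangle
-/

set_option autoImplicit false

namespace FR

namespace P3

open Finset Matrix

variable {K : Type*} [Field K]

theorem det_fb {ι κ : Type*} [Fintype ι] [DecidableEq ι] [Fintype κ] [DecidableEq κ]
    (N : Matrix ι ι K) (B : Matrix ι κ K) (C : Matrix κ ι K) (D : Matrix κ κ K) (Y : Matrix ι κ K)
    (hN : N.det ≠ 0) (hY : N * Y = B) :
    (Matrix.fromBlocks N B C D).det = N.det * (D - C * Y).det := by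
  haveI : Invertible N := Matrix.invertibleOfIsUnitDet N (isUnit_iff_ne_zero.2 hN)
  rw [Matrix.det_fromBlocks₁₁, ← hY, Matrix.mul_assoc C, Matrix.invOf_mul_cancel_left]

/-- zero rectangle -/
theorem rect {l : ℕ} (A : Matrix (Fin l) (Fin l) K) (I J : Finset (Fin l))
    (h : ∀ i ∈ I, ∀ j ∈ J, A i j = 0) (hA : A.det ≠ 0) : J.card ≤ (univ \ I).card := by
  rw [Matrix.det_apply] at hA
  obtain ⟨σ, -, hσ⟩ := Finset.exists_ne_zero_of_sum_ne_zero hA
  have h1 : ∀ j, A (σ j) j ≠ 0 := by
    intro j h0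
    apply hσ
    have h2 : ∏ i, A (σ i) i = 0 := Finset.prod_eq_zero (Finset.mem_univ j) h0
    rw [h2, smul_zero]
  refine Finset.card_le_card_of_injOn σ ?_ σ.injective.injOn
  intro j hj
  rw [Finset.mem_coe] at hj
  rw [Finset.mem_coe, Finset.mem_sdiff]
  exact ⟨Finset.mem_univ _, fun hi => h1 j (h _ hi j hj)⟩

theorem inj_of_det {l m : ℕ} (A : Matrix (Fin l) (Fin l) K) (f g : Fin m → Fin l)
    (h : (A.submatrix f g).det ≠ 0) : Function.Injective f ∧ Function.Injective g := by
  constructor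
  · intro p q hpq
    by_contra hne
    exact h (Matrix.det_zero_of_row_eq hne (by ext j; simp [hpq]))
  · intro p q hpq
    by_contra hne
    exact h (Matrix.det_zero_of_column_eq hne (by intro j; simp [hpq]))

/-- a maximal nonsingular minor of the rectangle -/
theorem exists_max {l : ℕ} (A : Matrix (Fin l) (Fin l) K) (I J : Finset (Fin l)) :
    ∃ (m : ℕ) (f g : Fin m → Fin l), (∀ q, f q ∈ I) ∧ (∀ q, g q ∈ J) ∧
      (A.submatrix f g).det ≠ 0 ∧ ∀ f' g' : Fin (m + 1) → Fin l, (∀ q, f' q ∈ I) →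
        (∀ q, g' q ∈ J) → (A.submatrix f' g').det = 0 := by
  classical
  let P : ℕ → Prop := fun m => ∃ f g : Fin m → Fin l, (∀ q, f q ∈ I) ∧ (∀ q, g q ∈ J) ∧
      (A.submatrix f g).det ≠ 0
  have hle : ∀ m, P m → m ≤ l := by
    rintro m ⟨f, g, -, -, h⟩
    simpa using Fintype.card_le_of_injective f (inj_of_det A f g h).1
  have h0 : P 0 := ⟨Fin.elim0, Fin.elim0, fun q => q.elim0, fun q => q.elim0, by simp⟩
  obtain ⟨f, g, hf, hg, h⟩ := Nat.findGreatest_spec (Nat.zero_le l) h0
  refine ⟨Nat.findGreatest P l, f, g, hf, hg, h, ?_⟩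
  intro f' g' hf' hg'
  by_contra hne
  have h1 : P (Nat.findGreatest P l + 1) := ⟨f', g', hf', hg', hne⟩
  exact Nat.findGreatest_is_greatest (Nat.lt_succ_self _) (hle _ h1) h1

theorem exists_equiv {l m : ℕ} (f : Fin m → Fin l) (hf : Function.Injective f) :
    ∃ e : Fin m ⊕ Fin (l - m) ≃ Fin l, ∀ q, e (Sum.inl q) = f q := by
  classical
  have hc : Fintype.card {i // i ∉ Set.range f} = l - m := by
    rw [Fintype.card_subtype_compl]
    have h1 : Fintype.card {i // i ∈ Set.range f} = m := by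
      exact (Fintype.card_congr (Equiv.ofInjective f hf)).symm.trans (Fintype.card_fin m)
    rw [h1, Fintype.card_fin]
  let e₁ : Fin m ⊕ Fin (l - m) ≃ Set.range f ⊕ {i // i ∉ Set.range f} :=
    Equiv.sumCongr (Equiv.ofInjective f hf) (Fintype.equivFinOfCardEq hc).symm
  refine ⟨e₁.trans (Equiv.Set.sumCompl (Set.range f)), fun q => ?_⟩
  rfl

section blocks

variable {m : ℕ} (β : Fin m → ℕ) (N : Matrix (Fin m) (Fin m) K)

/-- the block with label `k` -/
def blk (k : ℕ) : Matrix {q // β q = k} {q // β q = k} K := fun p q => N p.1 q.1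

/-- the block with label `k`, one more column, one more row, and corner `0` -/
def bord (u v : Fin m → K) (k : ℕ) :
    Matrix ({q // β q = k} ⊕ Unit) ({q // β q = k} ⊕ Unit) K :=
  Matrix.fromBlocks (blk β N k) (fun q _ => v q.1) (fun _ q => u q.1) 0

/-- the solution of `N y = v` -/
noncomputable def sol (v : Fin m → K) (q : Fin m) : K :=
  ((blk β N (β q))⁻¹.mulVec fun r => v r.1) ⟨q, rfl⟩

variable {β N}

theorem sol_eq (v : Fin m → K) {q : Fin m} {k : ℕ} (hq : β q = k) :
    sol β N v q = ((blk β N k)⁻¹.mulVec fun r => v r.1) ⟨q, hq⟩ := by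
  subst hq
  rfl

theorem det_blocks (hN : ∀ p q, N p q ≠ 0 → β p = β q) :
    N.det = ∏ k ∈ univ.image β, (blk β N k).det := by
  have h : N.BlockTriangular β := by
    intro i j hij
    by_contra h0
    exact hij.ne (hN i j h0).symm
  rw [h.det]
  rfl

theorem det_blk_ne (hN : ∀ p q, N p q ≠ 0 → β p = β q) (h : N.det ≠ 0) (k : ℕ) :
    (blk β N k).det ≠ 0 := by
  by_cases hk : k ∈ univ.image β
  · rw [det_blocks hN] at h
    exact Finset.prod_ne_zero_iff.1 h k hk
  · haveI : IsEmpty {q // β q = k} :=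
      ⟨fun q => hk (Finset.mem_image.2 ⟨q.1, Finset.mem_univ _, q.2⟩)⟩
    rw [Matrix.det_isEmpty]
    exact one_ne_zero

theorem mulVec_sol (hN : ∀ p q, N p q ≠ 0 → β p = β q) (h : N.det ≠ 0) (v : Fin m → K) :
    N.mulVec (sol β N v) = v := by
  classical
  ext p
  have h1 : (N.mulVec (sol β N v)) p = ((blk β N (β p)).mulVec
      ((blk β N (β p))⁻¹.mulVec fun r => v r.1)) ⟨p, rfl⟩ := by
    rw [Matrix.mulVec, Matrix.mulVec, dotProduct, dotProduct]
    have h2 : ∑ q, N p q * sol β N v q =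
        ∑ q ∈ univ.filter (fun q => β q = β p), N p q * sol β N v q := by
      rw [Finset.sum_filter]
      refine Finset.sum_congr rfl fun q _ => ?_
      split_ifs with hq
      · rfl
      · rw [of_not_not fun h0 => hq (hN p q h0).symm, zero_mul]
    rw [h2, Finset.sum_subtype (univ.filter fun q => β q = β p) (p := fun q => β q = β p)
      (by intro x; simp)]
    refine Finset.sum_congr rfl fun q _ => ?_
    rw [sol_eq v q.2]
    rfl
  rw [h1, Matrix.mulVec_mulVec, Matrix.mul_nonsing_inv _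
    (isUnit_iff_ne_zero.2 (det_blk_ne hN h _)), Matrix.one_mulVec]

theorem det_bord (hN : ∀ p q, N p q ≠ 0 → β p = β q) (h : N.det ≠ 0) (u v : Fin m → K) (k : ℕ) :
    (bord β N u v k).det = (blk β N k).det *
      - ∑ q : {q // β q = k}, u q.1 * sol β N v q.1 := by
  classical
  have hk := det_blk_ne hN h k
  rw [bord, det_fb (blk β N k) (fun q _ => v q.1) (fun _ q => u q.1) 0
    (fun q _ => ((blk β N k)⁻¹.mulVec fun r => v r.1) q) hk]
  · congr 1
    rw [Matrix.det_unique, zero_sub, Matrix.neg_apply, Matrix.mul_apply]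
    congr 1
    refine Finset.sum_congr rfl fun q _ => ?_
    rw [sol_eq v q.2]
  · ext p j
    let Y : Matrix {q // β q = k} Unit K := fun q _ => ((blk β N k)⁻¹.mulVec fun r => v r.1) q
    have h3 : (blk β N k * Y) p j =
        ((blk β N k).mulVec ((blk β N k)⁻¹.mulVec fun r => v r.1)) p := rfl
    show (blk β N k * Y) p j = v p.1
    rw [h3, Matrix.mulVec_mulVec, Matrix.mul_nonsing_inv _ (isUnit_iff_ne_zero.2 hk),
      Matrix.one_mulVec]

theorem sum_sol (hN : ∀ p q, N p q ≠ 0 → β p = β q) (h : N.det ≠ 0) (u v : Fin m → K) :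
    ∑ q, u q * sol β N v q =
      - ∑ k ∈ univ.image β, (bord β N u v k).det / (blk β N k).det := by
  classical
  rw [← Finset.sum_fiberwise_of_maps_to (s := univ) (t := univ.image β) (g := β)
    (fun q _ => Finset.mem_image_of_mem β (Finset.mem_univ q)), ← Finset.sum_neg_distrib]
  refine Finset.sum_congr rfl fun k _ => ?_
  rw [det_bord hN h, mul_div_cancel_left₀ _ (det_blk_ne hN h k), neg_neg,
    Finset.sum_subtype (univ.filter fun q => β q = k) (p := fun q => β q = k)
      (by intro x; simp)]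

end blocks

/-- The determinant of a matrix with a large block diagonal rectangle. -/
theorem schur {l c : ℕ} (A : Matrix (Fin l) (Fin l) K) (hA : A.det ≠ 0) (I J : Finset (Fin l))
    (hI : (univ \ I).card ≤ c) (hJ : (univ \ J).card ≤ c) (a b : Fin l → ℕ)
    (hab : ∀ i ∈ I, ∀ j ∈ J, a i ≠ b j → A i j = 0) :
    ∃ (m p : ℕ) (f g : Fin m → Fin l) (i₀ j₀ : Fin p → Fin l) (ε : K), p ≤ 2 * c ∧
      Function.Injective f ∧ Function.Injective g ∧ (∀ q, f q ∈ I ∧ g q ∈ J ∧ a (f q) = b (g q)) ∧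
      (∀ i q, i₀ i ≠ f q) ∧ (∀ j q, j₀ j ≠ g q) ∧ (ε = 1 ∨ ε = -1) ∧
      (∀ k, (blk (fun q => b (g q)) (A.submatrix f g) k).det ≠ 0) ∧
      A.det = ε * (∏ k ∈ univ.image (fun q => b (g q)),
          (blk (fun q => b (g q)) (A.submatrix f g) k).det) *
        (Matrix.of fun i j => A (i₀ i) (j₀ j) + ∑ k ∈ univ.image (fun q => b (g q)),
          (bord (fun q => b (g q)) (A.submatrix f g) (fun q => A (i₀ i) (g q))
            (fun q => A (f q) (j₀ j)) k).det /
          (blk (fun q => b (g q)) (A.submatrix f g) k).det).det := by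
  classical
  obtain ⟨m, f₁, g, hf₁, hg, h₁, hmax⟩ := exists_max A I J
  -- reorder the rows
  obtain ⟨τ, hτ⟩ : ∃ τ : Equiv.Perm (Fin m), ∀ q, A (f₁ (τ q)) (g q) ≠ 0 := by
    have h2 := h₁
    rw [Matrix.det_apply] at h2
    obtain ⟨σ, -, hσ⟩ := Finset.exists_ne_zero_of_sum_ne_zero h2
    refine ⟨σ, fun q h0 => hσ ?_⟩
    have h3 : ∏ i, (A.submatrix f₁ g) (σ i) i = 0 := Finset.prod_eq_zero (Finset.mem_univ q) h0
    rw [h3, smul_zero]
  have hdf : (A.submatrix (f₁ ∘ τ) g).det ≠ 0 := by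
    have h2 : A.submatrix (f₁ ∘ τ) g = (A.submatrix f₁ g).submatrix τ id := rfl
    rw [h2, Matrix.det_permute]
    refine mul_ne_zero ?_ h₁
    rcases Int.units_eq_one_or (Equiv.Perm.sign τ) with h | h <;> rw [h] <;> simp
  set f : Fin m → Fin l := f₁ ∘ τ with hfdef
  obtain ⟨hfi, hgi⟩ := inj_of_det A f g hdf
  have hfI : ∀ q, f q ∈ I := fun q => hf₁ (τ q)
  have hlab : ∀ q, a (f q) = b (g q) := by
    intro q
    by_contra h0
    exact hτ q (hab _ (hf₁ _) _ (hg _) h0)
  set N := A.submatrix f g with hNdef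
  set β : Fin m → ℕ := fun q => b (g q) with hβ
  have hN : ∀ p q, N p q ≠ 0 → β p = β q := by
    intro p q hpq
    by_contra h0
    refine hpq (hab _ (hfI p) _ (hg q) fun h2 => h0 ?_)
    rw [hβ]
    exact (hlab p).symm.trans h2
  obtain ⟨e₁, he₁⟩ := exists_equiv f hfi
  obtain ⟨e₂, he₂⟩ := exists_equiv g hgi
  set i₀ : Fin (l - m) → Fin l := fun i => e₁ (Sum.inr i) with hi₀
  set j₀ : Fin (l - m) → Fin l := fun j => e₂ (Sum.inr j) with hj₀
  -- the entries of the Schur complement
  have hS : ∀ (i j : Fin l), A i j - ∑ q, A i (g q) * sol β N (fun q => A (f q) j) q =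
      A i j + ∑ k ∈ univ.image β, (bord β N (fun q => A i (g q)) (fun q => A (f q) j) k).det /
        (blk β N k).det := by
    intro i j
    rw [sum_sol hN hdf, sub_neg_eq_add]
  have hzero : ∀ i ∈ I, ∀ j ∈ J,
      A i j - ∑ q, A i (g q) * sol β N (fun q => A (f q) j) q = 0 := by
    intro i hi j hj
    have h2 := hmax (Fin.snoc f i) (Fin.snoc g j) (by
      intro q
      refine Fin.lastCases ?_ (fun q => ?_) q
      · rwa [Fin.snoc_last]
      · rw [Fin.snoc_castSucc]; exact hfI q) (by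
      intro q
      refine Fin.lastCases ?_ (fun q => ?_) q
      · rwa [Fin.snoc_last]
      · rw [Fin.snoc_castSucc]; exact hg q)
    rw [← Matrix.det_submatrix_equiv_self (finSumFinEquiv (m := m) (n := 1))] at h2
    have h3 : (A.submatrix (Fin.snoc f i : Fin (m + 1) → Fin l) (Fin.snoc g j)).submatrix
        (finSumFinEquiv (m := m) (n := 1)) (finSumFinEquiv (m := m) (n := 1)) =
        Matrix.fromBlocks N (fun q _ => A (f q) j) (fun _ q => A i (g q)) (fun _ _ => A i j) := by
      have hl : ∀ q : Fin m, (finSumFinEquiv (m := m) (n := 1) (Sum.inl q)) = Fin.castSucc q :=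
        fun q => rfl
      have hr : ∀ q : Fin 1, (finSumFinEquiv (m := m) (n := 1) (Sum.inr q)) = Fin.last m := by
        intro q
        rw [Subsingleton.elim q 0]
        rfl
      ext x y
      rcases x with x | x <;> rcases y with y | y <;>
        simp only [Matrix.submatrix_apply, hl, hr, Fin.snoc_last, Fin.snoc_castSucc,
          Matrix.fromBlocks_apply₁₁, Matrix.fromBlocks_apply₁₂, Matrix.fromBlocks_apply₂₁,
          Matrix.fromBlocks_apply₂₂, hNdef]
    rw [h3, det_fb N _ _ _ (fun q _ => sol β N (fun q => A (f q) j) q) hdf, mul_eq_zero] at h2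
    · rcases h2 with h2 | h2
      · exact absurd h2 hdf
      · rw [Matrix.det_unique] at h2
        exact h2
    · ext p x
      have := congrFun (mulVec_sol hN hdf fun q => A (f q) j) p
      exact this
  -- the determinant
  obtain ⟨ε, hε, hεA⟩ : ∃ ε : K, (ε = 1 ∨ ε = -1) ∧ A.det = ε * (A.submatrix e₁ e₂).det := by
    have h2 : (A.submatrix e₁ e₂).det = ((A.submatrix (e₂.symm.trans e₁) id).submatrix e₂ e₂).det := by
      congr 1
      ext x y
      simp
    rw [Matrix.det_submatrix_equiv_self, Matrix.det_permute] at h2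
    rcases Int.units_eq_one_or (Equiv.Perm.sign (e₂.symm.trans e₁)) with h | h
    · refine ⟨1, Or.inl rfl, ?_⟩
      rw [h2, h]
      simp
    · refine ⟨-1, Or.inr rfl, ?_⟩
      rw [h2, h]
      simp
  have hfb : A.submatrix e₁ e₂ = Matrix.fromBlocks N (fun q j => A (f q) (j₀ j))
      (fun i q => A (i₀ i) (g q)) (fun i j => A (i₀ i) (j₀ j)) := by
    ext x y
    rcases x with x | x <;> rcases y with y | y <;>
      simp [hNdef, he₁, he₂, hi₀, hj₀]
  have hdet : (A.submatrix e₁ e₂).det = N.det * (Matrix.of fun i j => A (i₀ i) (j₀ j) -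
      ∑ q, A (i₀ i) (g q) * sol β N (fun q => A (f q) (j₀ j)) q).det := by
    rw [hfb, det_fb N _ _ _ (fun q j => sol β N (fun q => A (f q) (j₀ j)) q) hdf]
    · rfl
    · ext p j
      exact congrFun (mulVec_sol hN hdf fun q => A (f q) (j₀ j)) p
  have hSne : (Matrix.of fun i j => A (i₀ i) (j₀ j) -
      ∑ q, A (i₀ i) (g q) * sol β N (fun q => A (f q) (j₀ j)) q).det ≠ 0 := by
    intro h0
    rw [h0, mul_zero] at hdet
    rw [hdet, mul_zero] at hεA
    exact hA hεA
  have hi₀i : Function.Injective i₀ := fun x y h => Sum.inr_injective (e₁.injective h)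
  have hj₀i : Function.Injective j₀ := fun x y h => Sum.inr_injective (e₂.injective h)
  refine ⟨m, l - m, f, g, i₀, j₀, ε, ?_, hfi, hgi, fun q => ⟨hfI q, hg q, hlab q⟩, ?_, ?_, hε,
    det_blk_ne hN hdf, ?_⟩
  · have h4 := rect _ (univ.filter fun i => i₀ i ∈ I) (univ.filter fun j => j₀ j ∈ J) (by
      intro i hi j hj
      rw [Finset.mem_filter] at hi hj
      exact hzero _ hi.2 _ hj.2) hSne
    have h5 : (univ \ univ.filter fun i => i₀ i ∈ I).card ≤ c := by
      refine le_trans (Finset.card_le_card_of_injOn i₀ ?_ hi₀i.injOn) hI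
      intro i hi
      rw [Finset.mem_coe, Finset.mem_sdiff, Finset.mem_filter] at hi
      rw [Finset.mem_coe, Finset.mem_sdiff]
      exact ⟨Finset.mem_univ _, fun h => hi.2 ⟨Finset.mem_univ _, h⟩⟩
    have h6 : (univ.filter fun j => ¬ j₀ j ∈ J).card ≤ c := by
      refine le_trans (Finset.card_le_card_of_injOn j₀ ?_ hj₀i.injOn) hJ
      intro j hj
      rw [Finset.mem_coe, Finset.mem_filter] at hj
      rw [Finset.mem_coe, Finset.mem_sdiff]
      exact ⟨Finset.mem_univ _, hj.2⟩
    have h7 := Finset.card_filter_add_card_filter_not (s := (univ : Finset (Fin (l - m))))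
      (fun j => j₀ j ∈ J)
    rw [Finset.card_univ, Fintype.card_fin] at h7
    omega
  · intro i q h
    rw [← he₁ q] at h
    exact Sum.inr_ne_inl (e₁.injective h)
  · intro j q h
    rw [← he₂ q] at h
    exact Sum.inr_ne_inl (e₂.injective h)
  · rw [hεA, hdet, det_blocks hN, mul_assoc]
    congr 3
    ext i j
    exact hS _ _

end P3

end FR
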