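import Pool.Agent.Lib.MP_64d474_lc.FR.U58
import Pool.Agent.Lib.MP_64d474_lc.DF.B2

/-!
# Translations and differences of rational functions: rows T1 to T9
-/

set_option autoImplicit false

namespace FR

open MvPolynomial AK LS DF

section T

variable {F : Type*} [Field F] {n K k k' r : ℕ} {P P' : MvPolynomial (Fin n) F → Prop}

theorem tc_ne {c : Fin n → F} {f : MvPolynomial (Fin n) F} (h : f ≠ 0) : tc c f ≠ 0 :=
  fun h0 => h (tc_injective c (by rw [h0, map_zero]))

theorem exists_div (f : RF n F) : ∃ u v : MvPolynomial (Fin n) F, v ≠ 0 ∧ f = em u / em v := by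
  obtain ⟨u, v, hv, rfl⟩ := IsFractionRing.div_surjective (A := MvPolynomial (Fin n) F) f
  exact ⟨u, v, nonZeroDivisors.ne_zero hv, rfl⟩

theorem tk_tk (c c' : Fin n → F) (f : RF n F) : tk c (tk c' f) = tk (c + c') f := by
  obtain ⟨u, v, -, rfl⟩ := exists_div f
  rw [map_div₀, map_div₀, map_div₀, tk_em, tk_em, tk_em, tk_em, tk_em, tk_em, tc_tc, tc_tc]

theorem tk_comm (c c' : Fin n → F) (f : RF n F) : tk c (tk c' f) = tk c' (tk c f) := by
  rw [tk_tk, tk_tk, add_comm]

theorem tk_zero (f : RF n F) : tk 0 f = f := by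
  obtain ⟨u, v, -, rfl⟩ := exists_div f
  rw [map_div₀, tk_em, tk_em, tc_zero, tc_zero]

/-- Row T1. -/
theorem algK_map (c : Fin n → F) (hP : ∀ p, P p → P' (tc c p)) {G : Set (RF n F)}
    (h : AlgK K P G) : AlgK K P' (tk c '' G) := by
  obtain ⟨m, T, h1, h2, h3⟩ := h
  refine ⟨m, fun j => tc c (T j), fun j => DH.isProdK_map _ hP (h1 j), fun s hs => h2 s ?_, ?_⟩
  · exact (AlgHom.algebraicIndependent_iff (tc c) (tc_injective c)).1 hs
  · have h4 : Set.range (fun j => tc c (T j)) = tc c '' Set.range T := by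
      rw [← Set.range_comp]; rfl
    rw [h4, ← AlgHom.map_adjoin]
    rintro _ ⟨g, hg, rfl⟩
    obtain ⟨u, hu, v, hv, h0, rfl⟩ := h3 hg
    refine ⟨tc c u, ⟨u, hu, rfl⟩, tc c v, ⟨v, hv, rfl⟩, tc_ne h0, ?_⟩
    rw [map_div₀, tk_em, tk_em]

/-- Row T2. -/
theorem dfK_map (c : Fin n → F) (hP : ∀ p, P p → P' (tc c p)) {f : RF n F} (h : DfK k P r f) :
    DfK k P' r (tk c f) := by
  induction r generalizing f with
  | zero =>
    have h1 := algK_map c hP h
    rwa [Set.image_singleton] at h1
  | succ r ih =>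
    intro i a
    rw [tk_comm, ← map_sub]
    exact ih (h i a)

/-- Row T3. -/
theorem denK_map (c : Fin n → F) (hP : ∀ p, P p → P' (tc c p)) {f : RF n F} (h : DenK k P f) :
    DenK k P' (tk c f) := by
  obtain ⟨M, u, hM, rfl⟩ := h
  refine ⟨M.map (tc c), tc c u, fun p hp => ?_, ?_⟩
  · obtain ⟨q, hq, rfl⟩ := Multiset.mem_map.1 hp
    exact ⟨tc_ne (hM q hq).1, DH.alg_map _ (tc_injective c) hP (hM q hq).2⟩
  · rw [map_div₀, tk_em, tk_em, map_multiset_prod (tc c)]

/-- Row T4. -/
theorem denK_sub {f g : RF n F} (hf : DenK k P f) (hg : DenK k P g) : DenK k P (f - g) := by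
  obtain ⟨M, u, hM, rfl⟩ := hf
  obtain ⟨M', u', hM', rfl⟩ := hg
  have h1 : M.prod ≠ 0 := Multiset.prod_ne_zero fun h => (hM 0 h).1 rfl
  have h1' : M'.prod ≠ 0 := Multiset.prod_ne_zero fun h => (hM' 0 h).1 rfl
  refine ⟨M + M', u * M'.prod - M.prod * u', fun p hp => ?_, ?_⟩
  · rcases Multiset.mem_add.1 hp with h | h
    · exact hM p h
    · exact hM' p h
  · rw [Multiset.prod_add, map_sub, map_mul, map_mul, map_mul, div_sub_div _ _ (em_ne h1) (em_ne h1')]

/-- Row T5. -/
theorem dfK_mono (hk : k ≤ k') (hP : ∀ f, P f → P' f) {f : RF n F} (h : DfK k P r f) :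
    DfK k' P' r f := by
  induction r generalizing f with
  | zero => exact algK_mono hk hP (le_refl _) h
  | succ r ih => exact fun i a => ih (h i a)

/-- Row T6. -/
theorem denK_mono (hk : k ≤ k') (hP : ∀ f, P f → P' f) {f : RF n F} (h : DenK k P f) :
    DenK k' P' f := by
  obtain ⟨M, u, hM, rfl⟩ := h
  exact ⟨M, u, fun p hp => ⟨(hM p hp).1, DH.alg_mono hk hP (hM p hp).2⟩, rfl⟩

theorem qK_mono {q M κ : ℕ} (hP : ∀ f, P f → P' f) {f : RF n F} (h : QK r q M K κ P f) :
    QK r q M K κ P' f := by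
  obtain ⟨q', b, Q, hq, hb, hM, hQ, he⟩ := h
  exact ⟨q', b, Q, hq, fun j => ⟨dfK_mono le_rfl hP (hb j).1, denK_mono le_rfl hP (hb j).2⟩, hM,
    algK_mono le_rfl hP (le_refl _) hQ, he⟩

theorem qK_map {q M κ : ℕ} (c : Fin n → F) (hP : ∀ p, P p → P' (tc c p)) {f : RF n F}
    (h : QK r q M K κ P f) : QK r q M K κ P' (tk c f) := by
  classical
  obtain ⟨q', b, Q, hq, hb, hM, hQ, rfl⟩ := h
  refine ⟨q', fun j => tk c (b j), MvPolynomial.map (tk c) Q, hq,
    fun j => ⟨dfK_map c hP (hb j).1, denK_map c hP (hb j).2⟩, fun j => ?_,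
    algK_mono le_rfl (fun _ h => h) ?_ (algK_map c hP hQ), ?_⟩
  · rw [degreeOf_le_iff]
    exact fun m hm => (degreeOf_le_iff.1 (hM j)) m (support_map_subset _ _ hm)
  · rintro _ ⟨μ, rfl⟩
    exact ⟨coeff μ Q, ⟨μ, rfl⟩, (coeff_map _ _ _).symm⟩
  · rw [eval_map, ← eval₂_id, eval₂_comp_left (tk c)]
    rfl

/-- Row T7. -/
theorem elev_mono {s s' e t : ℕ} (hs : s ≤ s') {f : MvPolynomial (Fin n) F}
    (h : ELev r s k e t f) : ELev r s' k e t f := by
  induction t generalizing f with
  | zero => exact ⟨h.1.trans hs, h.2⟩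
  | succ t ih => exact ⟨qK_mono (fun f hf => ih hf) h.1, h.2⟩

/-- Row T8. -/
theorem elev_tc {s e t : ℕ} (m : ℕ) (c : Fin n → F) (hc : (supp c).card ≤ m)
    {f : MvPolynomial (Fin n) F} (h : ELev r s k e t f) :
    ELev r ((e + 1) ^ m * s) k e t (tc c f) := by
  induction t generalizing f with
  | zero => exact ⟨tc_card m c hc h.1 h.2, fun j => (tc_degreeOf c j f).trans (h.2 j)⟩
  | succ t ih =>
    refine ⟨?_, fun j => (tc_degreeOf c j f).trans (h.2 j)⟩
    rw [← tk_em]
    exact qK_map c (fun f hf => ih hf) h.1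

theorem algK_add {f g : RF n F} (hf : AlgK k P {f}) (hg : AlgK k' P {g}) :
    AlgK (k + k') P {f + g} := by
  obtain ⟨m, T, h1, h2, h3⟩ := algK_union hf hg
  refine ⟨m, T, h1, h2, Set.singleton_subset_iff.2 ?_⟩
  exact (fr _).add_mem (h3 (Or.inl rfl)) (h3 (Or.inr rfl))

theorem dfK_add {f g : RF n F} (hf : DfK k P r f) (hg : DfK k' P r g) :
    DfK (k + k') P r (f + g) := by
  induction r generalizing f g with
  | zero => exact algK_add hf hg
  | succ r ih =>
    intro i a
    have e1 : tk (Pi.single i a) (f + g) - (f + g) =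
        (tk (Pi.single i a) f - f) + (tk (Pi.single i a) g - g) := by
      rw [map_add]; ring
    rw [e1]
    exact ih (hf i a) (hg i a)

/-- Differences, any class. -/
theorem dfK_diffP {κ r' : ℕ} {f : RF n F} (h : DfK κ P (r' + 1) f) (m : ℕ)
    (hP : ∀ c : Fin n → F, (supp c).card ≤ m → ∀ f, P f → P' (tc c f)) (c : Fin n → F)
    (hc : (supp c).card ≤ m) : DfK (m * κ) P' r' (tk c f - f) := by
  classical
  have hzero : ∀ K r, DfK K P' r (0 : RF n F) := by
    intro K r
    induction r with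
    | zero =>
      refine ⟨0, fun j => j.elim0, fun j => j.elim0, fun s _ => ?_,
        Set.singleton_subset_iff.2 (fr _).zero_mem⟩
      rw [Finset.eq_empty_of_isEmpty s]
      simp
    | succ r ih =>
      intro i a
      rw [map_zero, sub_zero]
      exact ih
  induction m generalizing c with
  | zero =>
    have h0 : c = 0 := by
      funext i
      by_contra hi
      have : i ∈ supp c := by simpa [supp] using hi
      have := Finset.card_pos.2 ⟨i, this⟩
      omega
    rw [h0, tk_zero, sub_self]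
    exact hzero _ _
  | succ m ih =>
    by_cases h0 : supp c = ∅
    · exact dfK_mono (Nat.mul_le_mul_right _ (Nat.le_succ m)) (fun f hf => hf)
        (ih (fun c hc => hP c (hc.trans (Nat.le_succ m))) c (by rw [h0]; simp))
    · obtain ⟨i, hi⟩ := Finset.nonempty_iff_ne_empty.2 h0
      have hsub : supp (Function.update c i 0) ⊆ (supp c).erase i := by
        intro j hj
        rw [supp, Finset.mem_filter] at hj
        have hji : j ≠ i := by
          rintro rfl
          exact hj.2 (Function.update_self _ _ _)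
        rw [Finset.mem_erase, supp, Finset.mem_filter]
        refine ⟨hji, Finset.mem_univ _, ?_⟩
        have := hj.2
        rwa [Function.update_of_ne hji] at this
      have hcard : (supp (Function.update c i 0)).card ≤ m := by
        have h1 := Finset.card_le_card hsub
        rw [Finset.card_erase_of_mem hi] at h1
        omega
      have hc' : Function.update c i 0 + Pi.single i (c i) = c := by
        funext j
        rw [Pi.add_apply]
        by_cases hji : j = i
        · subst hji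
          rw [Pi.single_eq_same, Function.update_self, zero_add]
        · rw [Pi.single_eq_of_ne hji, Function.update_of_ne hji, add_zero]
      have e1 : tk c f - f = (tk (Function.update c i 0) f - f) +
          tk (Function.update c i 0) (tk (Pi.single i (c i)) f - f) := by
        rw [map_sub, tk_tk, hc']
        ring
      rw [e1, Nat.succ_mul]
      refine dfK_add (ih (fun c hc => hP c (hc.trans (Nat.le_succ m))) _ hcard) ?_
      exact dfK_map _ (hP _ (hcard.trans (Nat.le_succ m))) (h i (c i))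

/-- Row T9. -/
theorem dfK_diff {s e t κ r' : ℕ} (m : ℕ) (c : Fin n → F) (hc : (supp c).card ≤ m) {f : RF n F}
    (h : DfK κ (ELev r s k e t) (r' + 1) f) :
    DfK (m * κ) (ELev r ((e + 1) ^ m * s) k e t) r' (tk c f - f) :=
  dfK_diffP h m (fun c hc _ hf => elev_tc m c hc hf) c hc

end T

end FR
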