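import Pool.Agent.Lib.MP_64d474_lc.FR.X95
import Pool.Agent.Lib.MP_64d474_lc.FR.T55

/-!
# Sums of fractions have differences of bounded transcendence degree: containment
-/

set_option autoImplicit false

namespace FR

open MvPolynomial AK LS DF

section C95

variable {F : Type*} [Field F] {n : ℕ}

theorem mixK_qK {r k e κ : ℕ} {P P' : MvPolynomial (Fin n) F → Prop}
    (hP : ∀ c : Fin n → F, (supp c).card ≤ ord r e → ∀ p, P p → P' (tc c p))
    (hκ : 2 ^ ord r e * k * (2 ^ ord r e * k) ≤ κ) (hk : k ≤ κ) {f : MvPolynomial (Fin n) F}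
    (h : MixK r k e P f) : QK (ord r e) κ κ κ κ P' (em f) := by
  classical
  have hPP : ∀ p, P p → P' p := by
    intro p hp
    have h1 := hP 0 (by
      have h6 : (supp (0 : Fin n → F)) = ∅ := by
        refine Finset.eq_empty_of_forall_notMem fun i hi => ?_
        rw [supp, Finset.mem_filter] at hi
        exact hi.2 rfl
      rw [h6, Finset.card_empty]
      exact Nat.zero_le _) p hp
    rwa [tc_zero] at h1
  obtain ⟨σ, Q, w, hw, hσ, hQ, hF, he⟩ := h
  refine ⟨k, σ, C (em w)⁻¹ * MvPolynomial.map em Q, hk,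
    fun j => ⟨dfK_mono hκ (fun _ h => h) (df_of_locK hP (hσ j)).1,
      denK_mono hk hPP (df_of_locK hP (hσ j)).2⟩, fun j => ?_, ?_, ?_⟩
  · refine (degreeOf_mul_le _ _ _).trans ?_
    rw [degreeOf_C, zero_add]
    refine le_trans ?_ ((hQ j).trans hk)
    rw [degreeOf_le_iff]
    intro m hm
    exact monomial_le_degreeOf j (support_map_subset _ _ hm)
  · have h1 := algK_closure (algK_of_algF hF)
    refine algK_mono hk hPP ?_ h1
    rintro _ ⟨μ, rfl⟩
    rw [coeff_C_mul, coeff_map]
    refine mul_mem (inv_mem (Subfield.subset_closure (Or.inl ⟨w, Or.inl rfl, rfl⟩)))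
      (Subfield.subset_closure (Or.inl ⟨_, Or.inr ⟨μ, rfl⟩, rfl⟩))
  · rw [map_mul, eval_C, eval_map, ← he, inv_mul_cancel_left₀ (em_ne hw)]

/-- The transcendence degree at the levels given by differences. -/
def kap (r k e : ℕ) : ℕ := 2 ^ ord r e * k * (2 ^ ord r e * k) + k

theorem mlev_elev {r s k e : ℕ} (t : ℕ) : ∀ {f : MvPolynomial (Fin n) F}, MLev r s k e t f →
    ELev (ord r e) (((e + 1) ^ ord r e) ^ t * s) (kap r k e) e t f := by
  induction t with
  | zero =>
    intro f h
    rw [pow_zero, one_mul]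
    exact h
  | succ t ih =>
    intro f h
    refine ⟨mixK_qK (fun c hc p hp => ?_) (Nat.le_add_right _ _) (Nat.le_add_left _ _) h.1, h.2⟩
    have h1 := elev_tc (ord r e) c hc (ih hp)
    rwa [← mul_assoc, ← pow_succ'] at h1

/-- The last theorem in the form given by differences. -/
theorem mixK_elev {r s k e t : ℕ} {f : MvPolynomial (Fin n) F}
    (h : MixK r k e (MLev r s k e t) f) :
    QK (ord r e) (kap r k e) (kap r k e) (kap r k e) (kap r k e)
      (ELev (ord r e) (((e + 1) ^ ord r e) ^ (t + 1) * s) (kap r k e) e t) (em f) := by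
  refine mixK_qK (fun c hc p hp => ?_) (Nat.le_add_right _ _) (Nat.le_add_left _ _) h
  have h1 := elev_tc (ord r e) c hc (mlev_elev t hp)
  rwa [← mul_assoc, ← pow_succ'] at h1

/-- A polynomial that is a sum with any `r` variables together in at most `k` terms. -/
theorem locK_of_locR {r k e : ℕ} {P : MvPolynomial (Fin n) F → Prop}
    {f : MvPolynomial (Fin n) F} (h : LocR r k e P f) : LocK r k e P (em f) := by
  classical
  obtain ⟨m, g, h1, h2, h3, rfl⟩ := h
  refine ⟨m, g, fun _ => 1, fun a => ⟨one_ne_zero, ?_⟩, fun J hJ => ?_, fun hr a =>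
    ⟨rfl, h3 hr a⟩, ?_⟩
  · obtain ⟨m', T, hT1, hT2, hT3⟩ := h1 a
    refine ⟨m', T, hT1, hT2, ?_⟩
    rintro _ (rfl | rfl)
    · exact hT3
    · exact Subalgebra.one_mem _
  · refine le_trans (Finset.card_le_card ?_) (h2 J hJ)
    intro a ha
    rw [Finset.mem_filter] at ha ⊢
    refine ⟨ha.1, fun i hi => ?_⟩
    rcases ha.2 i hi with h | h
    · exact h
    · rw [degreeOf_one] at h
      exact absurd rfl h
  · rw [map_sum]
    refine Finset.sum_congr rfl fun a _ => ?_
    rw [map_one, div_one]

theorem locK_zero' {r k e : ℕ} {P : MvPolynomial (Fin n) F → Prop} :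
    LocK r k e P (0 : RF n F) := by
  classical
  refine ⟨0, fun _ => 0, fun _ => 1, fun a => a.elim0, fun J _ => ?_, fun _ a => a.elim0, ?_⟩
  · refine (Finset.card_le_univ _).trans ?_
    simp
  · simp

theorem mixK_of_locR {r k e : ℕ} (hk : 0 < k) {P : MvPolynomial (Fin n) F → Prop}
    {f : MvPolynomial (Fin n) F} (h : LocR r k e P f) : MixK r k e P f := by
  classical
  refine ⟨fun j => if j = ⟨0, hk⟩ then em f else 0, X ⟨0, hk⟩, 1, one_ne_zero, fun j => ?_,
    fun j => ?_, ?_, ?_⟩
  · show LocK r k e P (if j = ⟨0, hk⟩ then em f else 0)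
    by_cases hj : j = ⟨0, hk⟩
    · rw [if_pos hj]
      exact locK_of_locR h
    · rw [if_neg hj]
      exact locK_zero'
  · rw [degreeOf_X]
    split_ifs
    · exact hk
    · exact Nat.zero_le _
  · refine ⟨0, fun j => j.elim0, fun j => j.elim0, fun s _ => ?_, ?_⟩
    · refine (Finset.card_le_univ _).trans ?_
      simp
    · rintro g (rfl | ⟨μ, rfl⟩)
      · exact Subalgebra.one_mem _
      · rw [coeff_X]
        split_ifs
        · exact Subalgebra.one_mem _
        · exact Subalgebra.zero_mem _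
  · rw [map_one, one_mul, eval₂_X, if_pos rfl]

/-- The levels given by sums are levels given by sums of fractions. -/
theorem mlev_of_rlev {r s k e : ℕ} (hk : 0 < k) (t : ℕ) : ∀ {f : MvPolynomial (Fin n) F},
    RLev r s k e t f → MLev r s k e t f := by
  induction t with
  | zero => intro f h; exact h
  | succ t ih =>
    intro f h
    refine ⟨mixK_of_locR hk ?_, h.2⟩
    obtain ⟨m, g, h1, h2, h3, h4⟩ := h.1
    exact ⟨m, g, fun a => DH.alg_mono le_rfl (fun p hp => ih hp) (h1 a), h2, h3, h4⟩

end C95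

end FR
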