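import Pool.Agent.Lib.MP_64d474_lc.FR.Defs15

/-!
# One class closed under mixed polynomials and determinants of bounded depth
-/

set_option autoImplicit false

namespace FR

open MvPolynomial AK LS

/-- Mixed over `P`, or the determinant of a matrix of depth `k` with entries in `P`, each variable
in at most `k` of the entries. -/
def MemK {F : Type*} [Field F] {n : ℕ} (k e : ℕ) (P : MvPolynomial (Fin n) F → Prop)
    (f : MvPolynomial (Fin n) F) : Prop :=
  MixK 1 k e P f ∨ ∃ (l : ℕ) (B : Matrix (Fin l) (Fin l) (MvPolynomial (Fin n) F)),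
    (∀ i j, P (B i j)) ∧
    (∀ x, (Finset.univ.filter fun p : Fin l × Fin l =>
      (B p.1 p.2).degreeOf x ≠ 0).card ≤ k) ∧
    Deep k B k Finset.univ Finset.univ ∧ f = B.det

/-- The levels. -/
def CLev {F : Type*} [Field F] {n : ℕ} (s k e : ℕ) : ℕ → MvPolynomial (Fin n) F → Prop
  | 0, f => f.support.card ≤ s ∧ ∀ i, f.degreeOf i ≤ e
  | t + 1, f => MemK k e (CLev s k e t) f ∧ ∀ i, f.degreeOf i ≤ e

end FR
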