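import Pool.Agent.Lib.MP_64d474_lc.FR.TE95
import Pool.Agent.Lib.MP_64d474_lc.FR.CDefs15

/-!
# The class closed under mixed polynomials and determinants of bounded depth is inside the levels
-/

set_option autoImplicit false

namespace FR.CL95

open MvPolynomial AK LS DF FR FR.TE95

universe u

theorem top_mixK_of {k e : ℕ} (hk : 1 ≤ k) (c T K E : ℕ) (hc1 : 1 ≤ c) (hkK : k ≤ K)
    (heE : e ≤ E) (t : ℕ) (hT : ∀ (F : Type u) [Field F] (n s : ℕ), 1 ≤ s →
      ∀ f : MvPolynomial (Fin n) F, CLev s k e t f → MLev 1 ((c * s) ^ c) K E T f) :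
    ∃ c' T' K' E' : ℕ, 1 ≤ c' ∧ k ≤ K' ∧ e ≤ E' ∧
      ∀ (F : Type u) [Field F] (n s : ℕ), 1 ≤ s → ∀ f : MvPolynomial (Fin n) F,
        MemK k e (CLev s k e t) f → MixK 1 K' E' (MLev 1 ((c' * s) ^ c') K' E' T') f := by
  classical
  obtain ⟨D, hD⟩ : ∃ D, D = 2 * k := ⟨_, rfl⟩
  have hD1 : 1 ≤ D := by omega
  obtain ⟨c', hc'⟩ : ∃ c', c' = (2 * D).factorial * (c + 1) + 2 * D * c + c + 1 := ⟨_, rfl⟩
  obtain ⟨K', hK'⟩ : ∃ K', K' = 4 * D ^ 2 * K + K + 2 := ⟨_, rfl⟩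
  obtain ⟨E', hE'⟩ : ∃ E', E' = (2 * D + K) * E := ⟨_, rfl⟩
  have hcc : c ≤ c' := by
    rw [hc']
    omega
  have hEE : E ≤ E' := hE' ▸ Nat.le_mul_of_pos_left E (by omega)
  have hKK : K ≤ K' := by
    rw [hK']
    have := Nat.zero_le (4 * D ^ 2 * K)
    omega
  have hc'1 : 1 ≤ c' := hc1.trans hcc
  refine ⟨c', T + k, K', E', hc'1, by omega, by omega, fun F _ n s hs f hf => ?_⟩
  have hfac : 1 ≤ (2 * D).factorial := Nat.factorial_pos _
  have hbase : (2 * D).factorial * (c + 1) * s ≤ c' * s := by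
    refine Nat.mul_le_mul_right s ?_
    rw [hc']
    omega
  have hcs : c * s ≤ c' * s := Nat.mul_le_mul_right s hcc
  have hpos : 1 ≤ c' * s := Nat.mul_pos hc'1 hs
  have hS1 : (c * s) ^ c ≤ (c' * s) ^ c' :=
    (Nat.pow_le_pow_left hcs c).trans (Nat.pow_le_pow_right hpos hcc)
  have hS0 : 1 ≤ (c * s) ^ c := Nat.one_le_pow _ _ (Nat.mul_pos hc1 hs)
  have hS2 : (2 * D).factorial * ((c * s) ^ c) ^ (2 * D) ≤ (c' * s) ^ c' := by
    have h1 : (2 * D).factorial ≤ c' * s := by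
      refine le_trans ?_ hbase
      rw [mul_assoc]
      exact Nat.le_mul_of_pos_right _ (Nat.mul_pos (Nat.succ_pos c) hs)
    have h2 : ((c * s) ^ c) ^ (2 * D) ≤ (c' * s) ^ (c * (2 * D)) := by
      rw [← pow_mul]
      exact Nat.pow_le_pow_left hcs _
    calc (2 * D).factorial * ((c * s) ^ c) ^ (2 * D)
        ≤ (c' * s) * (c' * s) ^ (c * (2 * D)) := Nat.mul_le_mul h1 h2
      _ = (c' * s) ^ (c * (2 * D) + 1) := by rw [pow_succ, mul_comm]
      _ ≤ (c' * s) ^ c' := by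
        refine Nat.pow_le_pow_right hpos ?_
        rw [hc']
        have : c * (2 * D) = 2 * D * c := mul_comm _ _
        omega
  rcases hf with hf | ⟨l, A, h1, h2, h3, rfl⟩
  · refine TE95.mixK_mono (by omega) (by omega) (fun p hp => ?_) hf
    exact mlev_le (by omega) (Nat.le_add_right T k) (mlev_mono hS1 hKK hEE T (hT F n s hs p hp))
  · obtain ⟨h, rfl⟩ : ∃ h, k = h + 1 := ⟨k - 1, by omega⟩
    have h5 := deep_mlev_t (D := D) (s := (c * s) ^ c) (k := K) (e := E) (t := T)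
      (c := h + 1) (h := h) hS0 (by omega) hD1 (by omega) A
      (fun i j => hT F n s hs _ (h1 i j)) (fun x => (h2 x).trans hkK) h3
    rw [← hK', ← hE'] at h5
    refine mixK_self (by omega) (mlev_le (by omega) (by omega : T + h ≤ T + (h + 1)) ?_)
    exact mlev_mono hS2 le_rfl le_rfl _ h5

/-- The levels are contained in the levels given by sums of fractions. -/
theorem clev_mlev {k e : ℕ} (hk : 1 ≤ k) (t : ℕ) : ∃ c T K E : ℕ, 1 ≤ c ∧ k ≤ K ∧ e ≤ E ∧
    ∀ (F : Type u) [Field F] (n s : ℕ), 1 ≤ s → ∀ f : MvPolynomial (Fin n) F,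
      CLev s k e t f → MLev 1 ((c * s) ^ c) K E T f := by
  induction t with
  | zero =>
    refine ⟨1, 0, k, e, le_rfl, le_rfl, le_rfl, fun F _ n s _ f hf => ?_⟩
    rw [one_mul, pow_one]
    exact hf
  | succ t ih =>
    obtain ⟨c, T, K, E, hc1, hkK, heE, hT⟩ := ih
    obtain ⟨c', T', K', E', h1, h2, h3, h4⟩ := top_mixK_of hk c T K E hc1 hkK heE t hT
    exact ⟨c', T' + 1, K', E', h1, h2, h3, fun F _ n s hs f hf =>
      ⟨h4 F n s hs f hf.1, fun i => (hf.2 i).trans h3⟩⟩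

/-- The top is mixed over a level given by sums of fractions. -/
theorem top_mixK {k e : ℕ} (hk : 1 ≤ k) (t : ℕ) : ∃ c T K E : ℕ, 1 ≤ c ∧ k ≤ K ∧ e ≤ E ∧
    ∀ (F : Type u) [Field F] (n s : ℕ), 1 ≤ s → ∀ f : MvPolynomial (Fin n) F,
      MemK k e (CLev s k e t) f → MixK 1 K E (MLev 1 ((c * s) ^ c) K E T) f := by
  obtain ⟨c, T, K, E, hc1, hkK, heE, hT⟩ := clev_mlev.{u} (e := e) hk t
  exact top_mixK_of hk c T K E hc1 hkK heE t hT

theorem deep_zero_one {F : Type*} [Field F] {n l : ℕ}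
    {A : Matrix (Fin l) (Fin l) (MvPolynomial (Fin n) F)} {I J : Finset (Fin l)}
    (h : Deep 0 A 0 I J) : Deep 1 A 1 I J := by
  refine ⟨I, J, fun _ => 0, fun _ => 0, subset_rfl, subset_rfl, by simp, by simp,
    fun i _ j _ h => absurd rfl h, fun x => ?_⟩
  rcases h with h | h
  · exact Or.inl (by rw [h, Finset.filter_empty])
  · exact Or.inr (by rw [h, Finset.filter_empty])

theorem memK_zero_one {F : Type*} [Field F] {n e : ℕ} {P P' : MvPolynomial (Fin n) F → Prop}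
    (hP : ∀ f, P f → P' f) {f : MvPolynomial (Fin n) F} (h : MemK 0 e P f) : MemK 1 e P' f := by
  rcases h with h | ⟨l, B, h1, h2, h3, rfl⟩
  · exact Or.inl (TE95.mixK_mono (Nat.zero_le 1) le_rfl hP h)
  · exact Or.inr ⟨l, B, fun i j => hP _ (h1 i j), fun x => (h2 x).trans (Nat.zero_le 1),
      deep_zero_one h3, rfl⟩

theorem clev_zero_one {F : Type*} [Field F] {n s e : ℕ} (t : ℕ) :
    ∀ {f : MvPolynomial (Fin n) F}, CLev s 0 e t f → CLev s 1 e t f := by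
  induction t with
  | zero => exact fun h => h
  | succ t ih => exact fun h => ⟨memK_zero_one (fun f hf => ih hf) h.1, h.2⟩

/-- The containment. -/
theorem memK_mix (t k e : ℕ) (he : 1 ≤ e) : ∃ T K E c : ℕ, 1 ≤ E ∧
    ∀ (F : Type u) [Field F] (n s : ℕ) (f : MvPolynomial (Fin n) F), 1 ≤ s →
      MemK k e (CLev s k e t) f → MixK 1 K E (MLev 1 ((c * s) ^ c) K E T) f := by
  rcases Nat.eq_zero_or_pos k with hk | hk
  · subst hk
    obtain ⟨c, T, K, E, -, -, hE, h⟩ := top_mixK.{u} (k := 1) (e := e) le_rfl t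
    exact ⟨T, K, E, c, he.trans hE, fun F _ n s f hs hf =>
      h F n s hs f (memK_zero_one (fun p hp => clev_zero_one t hp) hf)⟩
  · obtain ⟨c, T, K, E, -, -, hE, h⟩ := top_mixK.{u} (e := e) hk t
    exact ⟨T, K, E, c, he.trans hE, fun F _ n s f hs hf => h F n s hs f hf⟩

end FR.CL95
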