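import Pool.Agent.Lib.MP_64d474_lc.FR.T58

/-!
# The classes `QK` are closed under expressions
-/

set_option autoImplicit false

namespace FR.CL15

open MvPolynomial AK LS DF

section gen

variable {F : Type*} [Field F] {n : ℕ}

/-- The polynomials whose coefficients lie in the subfield `A`. -/
noncomputable def co (A : Subfield (RF n F)) (σ : Type*) : Subring (MvPolynomial σ (RF n F)) :=
  (map A.subtype : MvPolynomial σ A →+* MvPolynomial σ (RF n F)).range

theorem coeff_mem_of {A : Subfield (RF n F)} {σ : Type*} {Q : MvPolynomial σ (RF n F)}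
    (h : Q ∈ co A σ) (μ : σ →₀ ℕ) : coeff μ Q ∈ A := by
  obtain ⟨Q', rfl⟩ := h
  rw [coeff_map]
  exact (coeff μ Q').2

theorem C_mem_co {A : Subfield (RF n F)} {σ : Type*} {a : RF n F} (h : a ∈ A) :
    (C a : MvPolynomial σ (RF n F)) ∈ co A σ :=
  ⟨C ⟨a, h⟩, by rw [map_C]; rfl⟩

theorem X_mem_co {A : Subfield (RF n F)} {σ : Type*} (j : σ) :
    (X j : MvPolynomial σ (RF n F)) ∈ co A σ :=
  ⟨X j, by rw [map_X]⟩

theorem mem_co_of {A : Subfield (RF n F)} {σ : Type*} {Q : MvPolynomial σ (RF n F)}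
    (h : ∀ μ, coeff μ Q ∈ A) : Q ∈ co A σ := by
  rw [Q.as_sum]
  refine Subring.sum_mem _ fun μ _ => ?_
  rw [monomial_eq]
  refine Subring.mul_mem _ (C_mem_co (h μ)) ?_
  exact Subring.prod_mem _ fun j _ => Subring.pow_mem _ (X_mem_co j) _

theorem eval₂_mem_co {A : Subfield (RF n F)} {σ τ : Type*} (φ : RF n F →+* RF n F)
    (g : σ → MvPolynomial τ (RF n F)) (hg : ∀ j, g j ∈ co A τ)
    (Q : MvPolynomial σ (RF n F)) (hQ : ∀ μ, φ (coeff μ Q) ∈ A) :
    eval₂ (C.comp φ) g Q ∈ co A τ := by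
  rw [eval₂_eq]
  refine Subring.sum_mem _ fun μ _ => Subring.mul_mem _ ?_
    (Subring.prod_mem _ fun j _ => Subring.pow_mem _ (hg j) _)
  exact C_mem_co (hQ μ)

/-- degrees of `Q (X + C δ)` -/
theorem degreeOf_shift {σ τ : Type*} (φ : RF n F →+* RF n F)
    (v : σ → τ) (hv : Function.Injective v) (δ : σ → RF n F) (x : τ) (M : ℕ)
    (Q : MvPolynomial σ (RF n F)) (hQ : ∀ j, Q.degreeOf j ≤ M) :
    (eval₂ (C.comp φ) (fun j => X (v j) + C (δ j)) Q : MvPolynomial τ (RF n F)).degreeOf x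
      ≤ M := by
  classical
  rw [eval₂_eq]
  refine (degreeOf_sum_le _ _ _).trans (Finset.sup_le fun μ hμ => ?_)
  refine (degreeOf_mul_le _ _ _).trans ?_
  rw [RingHom.comp_apply, degreeOf_C, zero_add]
  refine (degreeOf_prod_le _ _ _).trans ?_
  have h1 : ∀ j, ((X (v j) + C (δ j) : MvPolynomial τ (RF n F)) ^ μ j).degreeOf x
      ≤ if x = v j then μ j else 0 := by
    intro j
    refine (degreeOf_pow_le _ _ _).trans ?_
    have h2 : (X (v j) + C (δ j) : MvPolynomial τ (RF n F)).degreeOf x ≤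
        if x = v j then 1 else 0 := by
      refine (degreeOf_add_le _ _ _).trans ?_
      rw [degreeOf_C, degreeOf_X]
      simp
    split_ifs with h3
    · rw [if_pos h3] at h2
      calc _ ≤ μ j * 1 := Nat.mul_le_mul_left _ h2
        _ = μ j := mul_one _
    · rw [if_neg h3] at h2
      rw [Nat.le_zero.1 h2, mul_zero]
  refine (Finset.sum_le_sum fun j _ => h1 j).trans ?_
  by_cases hx : ∃ j ∈ μ.support, x = v j
  · obtain ⟨j, hj, rfl⟩ := hx
    rw [Finset.sum_eq_single_of_mem j hj]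
    · rw [if_pos rfl]
      exact (monomial_le_degreeOf j hμ).trans (hQ j)
    · intro j' _ hne
      rw [if_neg]
      intro h
      exact hne (hv h).symm
  · push Not at hx
    rw [Finset.sum_eq_zero]
    · exact Nat.zero_le _
    · intro j hj
      rw [if_neg (hx j hj)]

/-- The constants. -/
noncomputable def cF (τ : Type*) : F →+* MvPolynomial τ (RF n F) :=
  (C : RF n F →+* MvPolynomial τ (RF n F)).comp (em.comp C)

theorem degreeOf_eval₂_le {κ τ : Type*} (g : κ → MvPolynomial τ (RF n F))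
    (x : τ) (M : ℕ) (hg : ∀ i, (g i).degreeOf x ≤ M) (f : MvPolynomial κ F) :
    (eval₂ (cF τ) g f).degreeOf x ≤ f.totalDegree * M := by
  classical
  rw [eval₂_eq]
  refine (degreeOf_sum_le _ _ _).trans (Finset.sup_le fun d hd => ?_)
  refine (degreeOf_mul_le _ _ _).trans ?_
  have h1 : (cF τ (coeff d f) : MvPolynomial τ (RF n F)).degreeOf x = 0 := degreeOf_C _ _
  rw [h1, zero_add]
  refine (degreeOf_prod_le _ _ _).trans ?_
  calc ∑ i ∈ d.support, (g i ^ d i).degreeOf x ≤ ∑ i ∈ d.support, d i * M := by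
        refine Finset.sum_le_sum fun i _ => (degreeOf_pow_le _ _ _).trans ?_
        exact Nat.mul_le_mul_left _ (hg i)
    _ = (∑ i ∈ d.support, d i) * M := by rw [Finset.sum_mul]
    _ ≤ f.totalDegree * M := Nat.mul_le_mul_right _ (le_totalDegree hd)

theorem eval_shift2 {σ τ : Type*} (φ : RF n F →+* RF n F)
    (v : σ → τ) (b δ : σ → RF n F) (b' : τ → RF n F)
    (hb : ∀ j, b' (v j) + δ j = φ (b j)) (Q : MvPolynomial σ (RF n F)) :
    eval b' (eval₂ (C.comp φ) (fun j => X (v j) + C (δ j)) Q) = φ (eval b Q) := by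
  show _ = φ (eval₂ (RingHom.id _) b Q)
  rw [eval₂_comp_left (eval b'), eval₂_comp_left φ]
  have h1 : (eval b').comp (C.comp φ) = φ.comp (RingHom.id (RF n F)) := by
    refine RingHom.ext fun a => ?_
    simp only [RingHom.comp_apply, eval_C, RingHom.id_apply]
  rw [h1]
  congr 1
  funext j
  simp [hb]

/-- `QK` from a family indexed by any finite type. -/
theorem qk_of {r q M K κ : ℕ} {P : MvPolynomial (Fin n) F → Prop} {τ : Type*} [Fintype τ]
    (b : τ → RF n F) (Q : MvPolynomial τ (RF n F))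
    (hτ : Fintype.card τ ≤ q) (hb : ∀ x, DfK κ P r (b x) ∧ DenK κ P (b x))
    (hM : ∀ x, Q.degreeOf x ≤ M)
    (hA : AlgK K P {g | ∃ μ, g = coeff μ Q}) : QK r q M K κ P (eval b Q) := by
  classical
  let φ := Fintype.equivFin τ
  refine ⟨Fintype.card τ, fun x => b (φ.symm x), rename φ Q, hτ, fun x => hb _, ?_, ?_, ?_⟩
  · intro x
    have h1 := degreeOf_rename_of_injective (p := Q) φ.injective (φ.symm x)
    rw [Equiv.apply_symm_apply] at h1
    rw [h1]
    exact hM _
  · refine algK_mono le_rfl (fun f hf => hf) ?_ hA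
    rintro g ⟨μ, rfl⟩
    refine ⟨μ.mapDomain φ.symm, ?_⟩
    have h1 := coeff_rename_mapDomain φ φ.injective Q (μ.mapDomain φ.symm)
    rw [← Finsupp.mapDomain_comp] at h1
    rw [← h1]
    congr 1
    have : (φ ∘ φ.symm : Fin (Fintype.card τ) → Fin (Fintype.card τ)) = id := by
      funext x; simp
    rw [this, Finsupp.mapDomain_id]
  · rw [eval_rename]
    congr 2
    funext x
    simp

end gen

end FR.CL15
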