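import Pool.Agent.Lib.MP_64d474_lc.DF.Ind15

/-!
# Sums of fractions at every level: definitions
-/

set_option autoImplicit false

namespace FR

open MvPolynomial AK LS

variable {F : Type*} [Field F] {n : ℕ}

/-- The field of rational functions. -/
abbrev RF (n : ℕ) (F : Type*) [Field F] := FractionRing (MvPolynomial (Fin n) F)

/-- A polynomial as a rational function. -/
noncomputable def em : MvPolynomial (Fin n) F →+* RF n F := algebraMap _ _

theorem em_ne {f : MvPolynomial (Fin n) F} (h : f ≠ 0) : em f ≠ 0 := by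
  intro h0
  exact h (IsFractionRing.injective (MvPolynomial (Fin n) F) (RF n F) (by
    rw [map_zero]; exact h0))

/-- Translation of rational functions. -/
noncomputable def tk (c : Fin n → F) : RF n F →+* RF n F := LS.Loc93.tK c

theorem tk_em (c : Fin n → F) (f : MvPolynomial (Fin n) F) : tk c (em f) = em (tc c f) :=
  LS.Loc93.tK_algebraMap c f

/-- The fractions of members of a subalgebra. -/
noncomputable def fr (A : Subalgebra F (MvPolynomial (Fin n) F)) : Subfield (RF n F) where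
  carrier := {g | ∃ u ∈ A, ∃ v ∈ A, v ≠ 0 ∧ g = em u / em v}
  mul_mem' := by
    rintro _ _ ⟨u, hu, v, hv, hv0, rfl⟩ ⟨u', hu', v', hv', hv0', rfl⟩
    exact ⟨u * u', A.mul_mem hu hu', v * v', A.mul_mem hv hv', mul_ne_zero hv0 hv0', by
      rw [map_mul, map_mul, div_mul_div_comm]⟩
  one_mem' := ⟨1, A.one_mem, 1, A.one_mem, one_ne_zero, by rw [map_one, div_one]⟩
  add_mem' := by
    rintro _ _ ⟨u, hu, v, hv, hv0, rfl⟩ ⟨u', hu', v', hv', hv0', rfl⟩
    exact ⟨u * v' + v * u', A.add_mem (A.mul_mem hu hv') (A.mul_mem hv hu'), v * v',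
      A.mul_mem hv hv', mul_ne_zero hv0 hv0', by
        rw [map_add, map_mul, map_mul, map_mul, div_add_div _ _ (em_ne hv0) (em_ne hv0')]⟩
  zero_mem' := ⟨0, A.zero_mem, 1, A.one_mem, one_ne_zero, by rw [map_zero, zero_div]⟩
  neg_mem' := by
    rintro _ ⟨u, hu, v, hv, hv0, rfl⟩
    exact ⟨-u, A.neg_mem hu, v, hv, hv0, by rw [map_neg, neg_div]⟩
  inv_mem' := by
    rintro _ ⟨u, hu, v, hv, hv0, rfl⟩
    by_cases h : u = 0
    · subst h
      exact ⟨0, A.zero_mem, 1, A.one_mem, one_ne_zero, by simp⟩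
    · exact ⟨v, hv, u, hu, h, by rw [inv_div]⟩

theorem mem_fr {A : Subalgebra F (MvPolynomial (Fin n) F)} {g : RF n F} :
    g ∈ fr A ↔ ∃ u ∈ A, ∃ v ∈ A, v ≠ 0 ∧ g = em u / em v := Iff.rfl

/-- All members of `G` are rational functions of the `T_j`, products of members of `P`, at most `K`
of them algebraically independent. -/
def AlgK (K : ℕ) (P : MvPolynomial (Fin n) F → Prop) (G : Set (RF n F)) : Prop :=
  ∃ (m : ℕ) (T : Fin m → MvPolynomial (Fin n) F), (∀ j, IsProdK P (T j)) ∧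
    (∀ s : Finset (Fin m), AlgebraicIndependent F (fun j : s => T j) → s.card ≤ K) ∧
    G ⊆ (fr (Algebra.adjoin F (Set.range T)) : Set (RF n F))

/-- All `r`-fold differences in the directions of the axes are in `AlgK k P`. -/
def DfK (k : ℕ) (P : MvPolynomial (Fin n) F → Prop) : ℕ → RF n F → Prop
  | 0, f => AlgK k P {f}
  | r + 1, f => ∀ (i : Fin n) (a : F), DfK k P r (tk (Pi.single i a) f - f)

/-- `f` has a denominator that is a product of members of `Alg k P`. -/
def DenK (k : ℕ) (P : MvPolynomial (Fin n) F → Prop) (f : RF n F) : Prop :=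
  ∃ (M : Multiset (MvPolynomial (Fin n) F)) (u : MvPolynomial (Fin n) F),
    (∀ p ∈ M, p ≠ 0 ∧ DH.Alg k P p) ∧ f = em u / em M.prod

/-- `h = Q (b_1, …, b_q')`, `q' ≤ q`, the `b_j` in `DfK κ P r` and `DenK κ P`, `Q` of degree at
most `M` in each variable, with coefficients in one field as in `AlgK K P`. -/
def QK (r q M K κ : ℕ) (P : MvPolynomial (Fin n) F → Prop) (h : RF n F) : Prop :=
  ∃ (q' : ℕ) (b : Fin q' → RF n F) (Q : MvPolynomial (Fin q') (RF n F)), q' ≤ q ∧
    (∀ j, DfK κ P r (b j) ∧ DenK κ P (b j)) ∧ (∀ j, Q.degreeOf j ≤ M) ∧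
    AlgK K P {g | ∃ μ, g = coeff μ Q} ∧ h = eval b Q

/-- The levels given by differences. -/
def ELev (r s k e : ℕ) : ℕ → MvPolynomial (Fin n) F → Prop
  | 0, f => f.support.card ≤ s ∧ ∀ i, f.degreeOf i ≤ e
  | t + 1, f => QK r k k k k (ELev r s k e t) (em f) ∧ ∀ i, f.degreeOf i ≤ e

open Classical in
/-- A sum of any number of fractions `u_a / v_a`, `u_a` and `v_a` in `AlgF k P`, any `r` variables
together in at most `k` of the pairs; for `r > 1` all `v_a = 1` and the `u_a` have degree at most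
`e` in each variable. -/
def LocK (r k e : ℕ) (P : MvPolynomial (Fin n) F → Prop) (f : RF n F) : Prop :=
  ∃ (m : ℕ) (u v : Fin m → MvPolynomial (Fin n) F),
    (∀ a, v a ≠ 0 ∧ AlgF k P {u a, v a}) ∧
    (∀ J : Finset (Fin n), J.card = r →
      (Finset.univ.filter fun a => ∀ i ∈ J, (u a).degreeOf i ≠ 0 ∨ (v a).degreeOf i ≠ 0).card
        ≤ k) ∧
    (1 < r → ∀ a, v a = 1 ∧ ∀ i, (u a).degreeOf i ≤ e) ∧ f = ∑ a, em (u a) / em (v a)

/-- `w f = Q (σ_1, …, σ_k)`, `w ≠ 0`, the `σ_j` sums of fractions, `Q` of degree at most `k` in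
each variable, `w` and the coefficients of `Q` in `AlgF k P`. -/
def MixK (r k e : ℕ) (P : MvPolynomial (Fin n) F → Prop) (f : MvPolynomial (Fin n) F) : Prop :=
  ∃ (σ : Fin k → RF n F) (Q : MvPolynomial (Fin k) (MvPolynomial (Fin n) F))
    (w : MvPolynomial (Fin n) F), w ≠ 0 ∧ (∀ j, LocK r k e P (σ j)) ∧ (∀ j, Q.degreeOf j ≤ k) ∧
    AlgF k P (insert w {g | ∃ μ, g = coeff μ Q}) ∧ em w * em f = eval₂ em σ Q

/-- The levels given by sums of fractions. -/
def MLev (r s k e : ℕ) : ℕ → MvPolynomial (Fin n) F → Prop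
  | 0, f => f.support.card ≤ s ∧ ∀ i, f.degreeOf i ≤ e
  | t + 1, f => MixK r k e (MLev r s k e t) f ∧ ∀ i, f.degreeOf i ≤ e

/-- After deletion of at most `c` rows and at most `c` columns the rectangle `I × J` of `A` is block
diagonal (the blocks are the equal values of `a` and `b`), and the blocks are again of this kind,
`h` times. -/
def Deep {F : Type*} [Field F] {n l : ℕ} (c : ℕ)
    (A : Matrix (Fin l) (Fin l) (MvPolynomial (Fin n) F)) :
    ℕ → Finset (Fin l) → Finset (Fin l) → Prop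
  | 0, I, J => I = ∅ ∨ J = ∅
  | h + 1, I, J => ∃ (I' J' : Finset (Fin l)) (a b : Fin l → ℕ), I' ⊆ I ∧ J' ⊆ J ∧
      (I \ I').card ≤ c ∧ (J \ J').card ≤ c ∧ (∀ i ∈ I', ∀ j ∈ J', a i ≠ b j → A i j = 0) ∧
      ∀ x, Deep c A h (I'.filter fun i => a i = x) (J'.filter fun j => b j = x)

end FR
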