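import Pool.Agent.Lib.MP_64d474_lc.FR.Defs15
import Pool.Agent.Lib.MP_64d474_lc.DF.L93

/-!
# Lemma LOC over rational functions
-/

set_option autoImplicit false

namespace FR.L93

open MvPolynomial LS.Loc93 DF.L93

variable {F : Type*} [Field F] {n q : ℕ}

theorem tK_tK (a c : Fin n → F) (x : FractionRing (MvPolynomial (Fin n) F)) :
    tK a (tK c x) = tK (c + a) x := by
  obtain ⟨u, v, hv, rfl⟩ := IsFractionRing.div_surjective (A := MvPolynomial (Fin n) F) x
  rw [map_div₀, map_div₀, map_div₀, tK_algebraMap, tK_algebraMap, tK_algebraMap, tK_algebraMap,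
    tK_algebraMap, tK_algebraMap, tr_tr, tr_tr]

/-- `Q(x + c, b(x + c) + η)` -/
noncomputable def pK (b : Fin q → FractionRing (MvPolynomial (Fin n) F))
    (Q : MvPolynomial (Fin q) (FractionRing (MvPolynomial (Fin n) F))) (c : Fin n → F) :
    MvPolynomial (Fin q) (FractionRing (MvPolynomial (Fin n) F)) :=
  bind₁ (fun j => X j + C (tK c (b j))) (MvPolynomial.map (tK c) Q)

/-- `Q(x + c, y + b(x + c) - b(x))` -/
noncomputable def QK' (b : Fin q → FractionRing (MvPolynomial (Fin n) F))
    (Q : MvPolynomial (Fin q) (FractionRing (MvPolynomial (Fin n) F))) (c : Fin n → F) :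
    MvPolynomial (Fin q) (FractionRing (MvPolynomial (Fin n) F)) :=
  bind₁ (fun j => X j + C (tK c (b j) - b j)) (MvPolynomial.map (tK c) Q)

theorem map_pK (b : Fin q → FractionRing (MvPolynomial (Fin n) F))
    (Q : MvPolynomial (Fin q) (FractionRing (MvPolynomial (Fin n) F))) (a c : Fin n → F) :
    MvPolynomial.map (tK a) (pK b Q c) = pK b Q (c + a) := by
  have h1 : ((tK a).comp (tK c) : FractionRing (MvPolynomial (Fin n) F) →+* _) = tK (c + a) :=
    RingHom.ext (tK_tK a c)
  have h2 : (fun j : Fin q => MvPolynomial.map (tK a)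
      (X j + C (tK c (b j)) : MvPolynomial (Fin q) (FractionRing (MvPolynomial (Fin n) F)))) =
      fun j => X j + C (tK (c + a) (b j)) := by
    funext j
    rw [map_add, MvPolynomial.map_X, MvPolynomial.map_C, tK_tK]
  unfold pK
  rw [MvPolynomial.map_bind₁, MvPolynomial.map_map, h1, h2]

theorem coeff_zero_pK (b : Fin q → FractionRing (MvPolynomial (Fin n) F))
    (Q : MvPolynomial (Fin q) (FractionRing (MvPolynomial (Fin n) F))) (c : Fin n → F) :
    coeff 0 (pK b Q c) = tK c (eval b Q) := by
  have h : (constantCoeff.comp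
      ((bind₁ (fun j => X j + C (tK c (b j))) :
        MvPolynomial (Fin q) (FractionRing (MvPolynomial (Fin n) F)) →ₐ[
          FractionRing (MvPolynomial (Fin n) F)]
          MvPolynomial (Fin q) (FractionRing (MvPolynomial (Fin n) F))).toRingHom.comp
        (MvPolynomial.map (tK c)))) = (tK c).comp (eval b) := by
    apply MvPolynomial.ringHom_ext
    · intro r
      simp
    · intro i
      simp
  exact congrArg (fun g : MvPolynomial (Fin q) (FractionRing (MvPolynomial (Fin n) F)) →+*
    FractionRing (MvPolynomial (Fin n) F) => g Q) h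

theorem bind_pK (b : Fin q → FractionRing (MvPolynomial (Fin n) F))
    (Q : MvPolynomial (Fin q) (FractionRing (MvPolynomial (Fin n) F))) (c : Fin n → F) :
    bind₁ (fun j => X j - C (b j)) (pK b Q c) = QK' b Q c := by
  unfold pK QK'
  rw [← AlgHom.comp_apply, MvPolynomial.bind₁_comp_bind₁]
  congr 2
  funext j
  simp only [map_add, MvPolynomial.bind₁_X_right, map_sub]
  rw [MvPolynomial.bind₁_C_right]
  ring

theorem main3 [Infinite F] {M : ℕ} (b : Fin q → (RF n F))
    (Q : MvPolynomial (Fin q) (RF n F))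
    (hM : ∀ j, Q.degreeOf j ≤ M) (h0 : eval b Q ≠ 0) :
    ∃ (r : ℕ) (c : Fin r → Fin n → F)
      (Q' : MvPolynomial (Fin r × Fin q) (RF n F))
      (A : Fin r → (RF n F)), r ≤ (M + 1) ^ q ∧
      (∀ l, (sp (c l)).card ≤ (M + 1) ^ q) ∧
      (∀ x, Q'.degreeOf x ≤ (M + 1) ^ q * M) ∧
      (∀ μ, coeff μ Q' ∈ Subring.closure {g | ∃ l ν, g = tK (c l) (coeff ν Q)}) ∧
      (∀ S : Subring (RF n F),
        (∀ a : F, algebraMap (MvPolynomial (Fin n) F) (RF n F)
          (C a) ∈ S) → (∀ j, b j ∈ S) →
        (∀ l j, tK (c l) (b j) ∈ S) → (∀ l ν, tK (c l) (coeff ν Q) ∈ S) → ∀ l, A l ∈ S) ∧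
      eval (fun x => tK (c x.1) (b x.2) - b x.2) Q' ≠ 0 ∧
      eval (fun x => tK (c x.1) (b x.2) - b x.2) Q' = ∑ l, A l * tK (c l) (eval b Q) := by
  classical
  have hM' : ∀ c : Fin n → F, ∀ m ∈ (MvPolynomial.map (tK c) Q).support, ∀ j, m j ≤ M :=
    fun c m hm j => (MvPolynomial.monomial_le_degreeOf j
      (MvPolynomial.support_map_subset _ _ hm)).trans (hM j)
  have hdeg : ∀ c, ∀ m ∈ (pK b Q c).support, ∀ j, m j ≤ M := by
    intro c m hm j
    refine (MvPolynomial.monomial_le_degreeOf j hm).trans ?_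
    refine (degreeOf_bind _ _ j).trans ?_
    rw [MvPolynomial.degreeOf_le_iff]
    exact fun μ hμ => hM' c μ hμ j
  obtain ⟨r, c, hr, hc, hli, hspan⟩ := exists_stable M (pK b Q) hdeg (map_pK b Q)
  set W : Submodule (RF n F) (MvPolynomial (Fin q) (RF n F)) :=
    Submodule.span (RF n F) (Set.range fun l => pK b Q (c l)) with hW
  have hstab : ∀ a : Fin n → F, ∀ w ∈ W, MvPolynomial.map (tK a) w ∈ W := by
    intro a w hw
    induction hw using Submodule.span_induction with
    | mem x h =>
      obtain ⟨l, rfl⟩ := h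
      change MvPolynomial.map (tK a) (pK b Q (c l)) ∈ W
      rw [map_pK]
      exact hspan _
    | zero =>
      rw [map_zero]
      exact Submodule.zero_mem _
    | add x y _ _ hx hy =>
      rw [map_add]
      exact Submodule.add_mem _ hx hy
    | smul k x _ hx =>
      rw [map_smul_tK]
      exact Submodule.smul_mem _ _ hx
  obtain ⟨w, hwW, hw1, hwfix⟩ := exists_fixed W hstab (pK b Q 0) (hspan 0) (by
    rw [coeff_zero_pK]
    intro h
    exact h0 ((tK (0 : Fin n → F)).injective (by rw [h, map_zero])))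
  -- constant coefficients
  have hcc : ∀ m, ∃ ω : F, coeff m w = algebraMap (MvPolynomial (Fin n) F) (RF n F) (C ω) := by
    intro m
    apply fixed_mem
    intro a
    have := congrArg (coeff m) (hwfix a)
    rwa [MvPolynomial.coeff_map] at this
  choose ω hω using hcc
  obtain ⟨α, hα⟩ := (Submodule.mem_span_range_iff_exists_fun (RF n F)).1 hwW
  -- the substitution `η = y - b`
  set SK : MvPolynomial (Fin q) (RF n F) →ₐ[RF n F] MvPolynomial (Fin q) (RF n F) :=
    bind₁ (fun j => X j - C (b j)) with hSK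
  have hSp : ∀ c, SK (pK b Q c) = QK' b Q c := fun c => bind_pK b Q c
  have hli2 : LinearIndependent (RF n F) fun l => co (RF n F) q (SK (pK b Q (c l))) := by
    have h1 := hli.map' SK.toLinearMap (bind_ker _)
    exact h1.map' (co (RF n F) q) (co_ker (RF n F) q)
  obtain ⟨e, he⟩ := exists_minor _ hli2
  set B : Matrix (Fin r) (Fin r) (RF n F) :=
    Matrix.of fun k l => coeff (e k) (QK' b Q (c l)) with hB
  have hdet : B.det ≠ 0 := by
    have h1 : B = Matrix.of fun k l => co (RF n F) q (SK (pK b Q (c l))) (e k) := by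
      ext k l
      rw [hB, Matrix.of_apply, Matrix.of_apply]
      change _ = coeff (e k) (SK (pK b Q (c l)))
      rw [hSp]
    rw [h1]
    exact he
  set v : Fin r → RF n F := fun k => coeff (e k) (SK w) with hv
  have hvB : v = B.mulVec α := by
    funext k
    rw [hv]
    simp only
    rw [← hα, map_sum, MvPolynomial.coeff_sum]
    simp only [Matrix.mulVec, dotProduct]
    apply Finset.sum_congr rfl
    intro l _
    rw [map_smul, MvPolynomial.coeff_smul, smul_eq_mul, mul_comm, hSp, hB, Matrix.of_apply]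
  set A : Fin r → RF n F := B.adjugate.mulVec v with hA
  have hAα : ∀ l, A l = B.det * α l := by
    intro l
    rw [hA, hvB, Matrix.mulVec_mulVec, Matrix.adjugate_mul, Matrix.smul_mulVec,
      Matrix.one_mulVec, Pi.smul_apply, smul_eq_mul]
  -- the entries with variables
  set d : Fin r × Fin q → RF n F := fun x => tK (c x.1) (b x.2) - b x.2 with hd
  set B' : Matrix (Fin r) (Fin r) (MvPolynomial (Fin r × Fin q) (RF n F)) :=
    Matrix.of fun k l => coeff (e k) (bind₁
      (fun j => X j + C (X (l, j) : MvPolynomial (Fin r × Fin q) (RF n F)))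
      (MvPolynomial.map (C : RF n F →+* _) (MvPolynomial.map (tK (c l)) Q))) with hB'
  have hBB : (eval d).mapMatrix B' = B := by
    ext k l : 2
    rw [RingHom.mapMatrix_apply, Matrix.map_apply, hB', hB, Matrix.of_apply, Matrix.of_apply,
      ← MvPolynomial.coeff_map, MvPolynomial.map_bind₁, MvPolynomial.map_map]
    unfold QK'
    have h1 : ((eval d).comp (C : RF n F →+* MvPolynomial (Fin r × Fin q) (RF n F))) = RingHom.id _ :=
      RingHom.ext fun y => eval_C y
    have h2 : (fun j : Fin q => MvPolynomial.map (eval d)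
        (X j + C (X (l, j) : MvPolynomial (Fin r × Fin q) (RF n F)))) =
        fun j => X j + C (tK (c l) (b j) - b j) := by
      funext j
      rw [map_add, MvPolynomial.map_X, MvPolynomial.map_C, eval_X]
    rw [h1, h2, MvPolynomial.map_id]
  have hdetE : eval d B'.det = B.det := by
    rw [RingHom.map_det, hBB]
  refine ⟨r, c, B'.det, A, hr, hc, ?_, ?_, ?_, ?_, ?_⟩
  · intro x
    rw [Matrix.det_apply]
    refine (degreeOf_sum_le x _ _).trans ?_
    rw [Finset.sup_le_iff]
    intro σ _
    rw [Units.smul_def, zsmul_eq_mul]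
    refine (degreeOf_mul_le x _ _).trans ?_
    have hz : degreeOf x (((Equiv.Perm.sign σ : ℤˣ) : ℤ) :
        MvPolynomial (Fin r × Fin q) (RF n F)) = 0 := by
      rcases Int.units_eq_one_or (Equiv.Perm.sign σ) with h | h
      · rw [h]; simp
      · rw [h]; simp [degreeOf_neg]
    rw [hz, zero_add]
    refine (degreeOf_prod_le x _ _).trans ?_
    refine (Finset.sum_le_sum (g := fun _ => M) fun i _ => ?_).trans ?_
    · rw [hB', Matrix.of_apply]
      exact dg_bind (fun j => (i, j)) (fun j j' h => (Prod.mk.inj h).2) _ (hM' _) _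
    · rw [Finset.sum_const, Finset.card_univ, Fintype.card_fin, smul_eq_mul]
      exact Nat.mul_le_mul_right _ hr
  · set S : Subring (RF n F) := Subring.closure {g | ∃ l ν, g = tK (c l) (coeff ν Q)} with hS
    have hT : B'.det ∈ (MvPolynomial.map S.subtype :
        MvPolynomial (Fin r × Fin q) S →+* _).range := by
      rw [Matrix.det_apply]
      apply Subring.sum_mem
      intro σ _
      rw [Units.smul_def, zsmul_eq_mul]
      apply Subring.mul_mem
      · exact intCast_mem _ _
      apply Subring.prod_mem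
      intro i _
      rw [hB', Matrix.of_apply]
      apply coeff_bind_mem
      · intro j
        exact ⟨X (i, j), by rw [MvPolynomial.map_X]⟩
      · intro m
        rw [MvPolynomial.coeff_map, MvPolynomial.coeff_map]
        exact ⟨C ⟨_, Subring.subset_closure ⟨i, m, rfl⟩⟩, by rw [MvPolynomial.map_C]; rfl⟩
    obtain ⟨g, hg⟩ := hT
    intro μ
    rw [← hg, MvPolynomial.coeff_map]
    exact (coeff μ g).2
  · intro S hC hb htb htQ l
    have hBS : ∀ k l, B k l ∈ S := by
      intro k l
      rw [hB, Matrix.of_apply]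
      unfold QK'
      apply coeff_bind_mem
      · intro j
        exact S.sub_mem (htb l j) (hb j)
      · intro m
        rw [MvPolynomial.coeff_map]
        exact htQ l m
    have hvS : ∀ k, v k ∈ S := by
      intro k
      have h2 : (fun j : Fin q => (X j - C (b j) : MvPolynomial (Fin q) (RF n F))) =
          fun j => X j + C (-b j) := by
        funext j
        rw [map_neg, sub_eq_add_neg]
      rw [hv]
      simp only
      rw [hSK, h2]
      apply coeff_bind_mem
      · intro j
        exact S.neg_mem (hb j)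
      · intro m
        rw [hω]
        exact hC _
    rw [hA]
    simp only [Matrix.mulVec, dotProduct]
    apply Subring.sum_mem
    intro k _
    apply Subring.mul_mem
    · rw [Matrix.adjugate_apply, Matrix.det_apply]
      apply Subring.sum_mem
      intro σ _
      rw [Units.smul_def, zsmul_eq_mul]
      apply Subring.mul_mem
      · exact intCast_mem _ _
      apply Subring.prod_mem
      intro i _
      rw [Matrix.updateRow_apply]
      split
      · rw [Pi.single_apply]
        split
        · exact S.one_mem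
        · exact S.zero_mem
      · exact hBS _ _
    · exact hvS k
  · rw [hdetE]
    exact hdet
  · rw [hdetE]
    have h1 : coeff 0 w = ∑ l, α l * tK (c l) (eval b Q) := by
      rw [← hα, MvPolynomial.coeff_sum]
      apply Finset.sum_congr rfl
      intro l _
      rw [MvPolynomial.coeff_smul, smul_eq_mul, coeff_zero_pK]
    rw [hw1] at h1
    calc B.det = B.det * 1 := (mul_one _).symm
      _ = ∑ l, A l * tK (c l) (eval b Q) := by
        rw [h1, Finset.mul_sum]
        apply Finset.sum_congr rfl
        intro l _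
        rw [hAα]
        ring

end FR.L93

namespace FR

open MvPolynomial AK LS DF

/-- Row L. -/
theorem locK {F : Type*} [Field F] [Infinite F] {n q M : ℕ} (b : Fin q → RF n F)
    (Q : MvPolynomial (Fin q) (RF n F)) (hM : ∀ j, Q.degreeOf j ≤ M) (h0 : eval b Q ≠ 0) :
    ∃ (r : ℕ) (c : Fin r → Fin n → F) (Q' : MvPolynomial (Fin r × Fin q) (RF n F))
      (A : Fin r → RF n F), r ≤ (M + 1) ^ q ∧ (∀ l, (supp (c l)).card ≤ (M + 1) ^ q) ∧
      (∀ x, Q'.degreeOf x ≤ (M + 1) ^ q * M) ∧
      (∀ μ, coeff μ Q' ∈ Subring.closure {g | ∃ l ν, g = tk (c l) (coeff ν Q)}) ∧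
      (∀ S : Subring (RF n F), (∀ a : F, em (C a) ∈ S) → (∀ j, b j ∈ S) →
        (∀ l j, tk (c l) (b j) ∈ S) → (∀ l ν, tk (c l) (coeff ν Q) ∈ S) → ∀ l, A l ∈ S) ∧
      eval (fun x => tk (c x.1) (b x.2) - b x.2) Q' ≠ 0 ∧
      eval (fun x => tk (c x.1) (b x.2) - b x.2) Q' = ∑ l, A l * tk (c l) (eval b Q) :=
  L93.main3 b Q hM h0

end FR
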