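import Pool.Agent.Lib.MP_64d474_lc.FR.HQG15
import Pool.Agent.Lib.MP_64d474_lc.FR.L93
import Pool.Agent.Lib.MP_64d474_lc.BK.Main55

/-!
# Sums of fractions at every level, over blocks
-/

set_option autoImplicit false

namespace FB

open MvPolynomial AK LS DF FR BK

universe u

/-- The levels given by differences, over any classes `B s`. -/
def GE {F : Type*} [Field F] {n : ℕ} (B : ℕ → MvPolynomial (Fin n) F → Prop) (r s k e : ℕ) :
    ℕ → MvPolynomial (Fin n) F → Prop
  | 0, f => B s f ∧ ∀ i, f.degreeOf i ≤ e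
  | t + 1, f => QK r k k k k (GE B r s k e t) (em f) ∧ ∀ i, f.degreeOf i ≤ e

/-- The levels given by sums of fractions, over any classes `B s`. -/
def GM {F : Type*} [Field F] {n : ℕ} (B : ℕ → MvPolynomial (Fin n) F → Prop) (r s k e : ℕ) :
    ℕ → MvPolynomial (Fin n) F → Prop
  | 0, f => B s f ∧ ∀ i, f.degreeOf i ≤ e
  | t + 1, f => MixK r k e (GM B r s k e t) f ∧ ∀ i, f.degreeOf i ≤ e

/-- Monotone in `s`. -/
def BMo {F : Type*} [Field F] {n : ℕ} (B : ℕ → MvPolynomial (Fin n) F → Prop) : Prop :=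
  ∀ s s' : ℕ, s ≤ s' → ∀ f, B s f → B s' f

theorem ge_mono {F : Type*} [Field F] {n r k s s' e t : ℕ}
    {B : ℕ → MvPolynomial (Fin n) F → Prop} (hM : BMo B) (hs : s ≤ s')
    {f : MvPolynomial (Fin n) F} (h : GE B r s k e t f) : GE B r s' k e t f := by
  induction t generalizing f with
  | zero => exact ⟨hM s s' hs f h.1, h.2⟩
  | succ t ih => exact ⟨qK_mono (fun f hf => ih hf) h.1, h.2⟩

theorem ge_tc {F : Type*} [Field F] {n r k s e t : ℕ}
    {B : ℕ → MvPolynomial (Fin n) F → Prop} (hB : BTc B e) (m : ℕ) (c : Fin n → F)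
    (hc : (supp c).card ≤ m) {f : MvPolynomial (Fin n) F} (h : GE B r s k e t f) :
    GE B r ((e + 1) ^ m * s) k e t (tc c f) := by
  induction t generalizing f with
  | zero => exact ⟨hB m c hc s f h.2 h.1, fun j => (tc_degreeOf c j f).trans (h.2 j)⟩
  | succ t ih =>
    refine ⟨?_, fun j => (tc_degreeOf c j f).trans (h.2 j)⟩
    rw [← tk_em]
    exact qK_map c (fun p hp => ih hp) h.1

/-- Row CL. -/
theorem expr_qk {F : Type*} [Field F] [Infinite F] {n r r' q M K κ k s e E M' t : ℕ}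
    {B : ℕ → MvPolynomial (Fin n) F → Prop} (hB : BTc B e) (i : Fin n)
    (BB : Finset (MvPolynomial (Fin n) F))
    (h : ∀ b ∈ BB, QK r' q M K κ (GE B r s k e t) (em b) ∧ ∀ j, b.degreeOf j ≤ E)
    (b : MvPolynomial (Fin n) F) (hb : Expr (Pi.single i 1) E M' BB b) :
    QK r' ((E + 1) * (E + 1) * q) (M' * M) ((E + 1) * (E + 1) * K) κ
      (GE B r ((e + 1) * s) k e t) (em b) := by
  classical
  obtain ⟨g, p, hg, hp, rfl⟩ := hb
  obtain ⟨c, lam, -, hlam⟩ := AK.DH.coeff_eq_sum_tr (F := F) (Pi.single i (1 : F)) E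
  choose q' bb Q hq' hbb hQM hQA hQe using fun a : Fin (E + 1) => (h _ (hg a)).1
  let φ : Fin (E + 1) → RF n F →+* RF n F := fun j => tk (Pi.single i (c j))
  let τ : Type := Σ aj : Fin (E + 1) × Fin (E + 1), Fin (q' aj.1)
  let v : ∀ aj : Fin (E + 1) × Fin (E + 1), Fin (q' aj.1) → τ := fun aj j => ⟨aj, j⟩
  have hv : ∀ aj, Function.Injective (v aj) := fun aj j j' hj => by
    exact eq_of_heq (Sigma.mk.inj hj).2
  let b' : τ → RF n F := fun x => φ x.1.2 (bb x.1.1 x.2)
  let G : Fin (E + 1) → Fin (E + 1) → MvPolynomial τ (RF n F) := fun a j' =>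
    eval₂ (C.comp (φ j')) (fun j => X (v (a, j') j) + C 0) (Q a)
  have hG : ∀ a j', eval b' (G a j') = φ j' (em (g a)) := fun a j' => by
    rw [hQe a]
    exact FR.CL15.eval_shift2 (φ j') (v (a, j')) (bb a) (fun _ => 0) b' (fun j => add_zero _) (Q a)
  let H : Fin (E + 1) × Fin (E + 1) → MvPolynomial τ (RF n F) := fun al =>
    ∑ j', C (em (C (lam al.2 j'))) * G al.1 j'
  have hH : ∀ al, eval b' (H al) = em ((sh (Pi.single i 1) (g al.1)).coeff al.2) := fun al => by
    rw [hlam (g al.1) ((sh_natDegree_degreeOf i _).trans ((h _ (hg al.1)).2 i)) al.2]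
    simp only [H, map_sum, map_mul, eval_C, hG]
    refine Finset.sum_congr rfl fun j' _ => ?_
    rw [LS.CL15.tr_single]
    congr 1
    exact tk_em _ _
  have hs : (e + 1) ^ 1 * s = (e + 1) * s := by rw [pow_one]
  have h6 : ∀ p : MvPolynomial (Fin (E + 1) × Fin (E + 1)) F, eval b' (eval₂ (FR.CL15.cF τ) H p) =
      em (aeval (fun al : Fin (E + 1) × Fin (E + 1) =>
        (sh (Pi.single i 1) (g al.1)).coeff (al.2 : ℕ)) p) := by
    intro p
    rw [eval₂_comp_left (eval b'), aeval_def, eval₂_comp_left em]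
    have h7 : (eval b').comp (FR.CL15.cF τ) = (em : MvPolynomial (Fin n) F →+* RF n F).comp
        (algebraMap F (MvPolynomial (Fin n) F)) := by
      refine RingHom.ext fun a => ?_
      show eval b' (C (em (C a))) = em (algebraMap F _ a)
      rw [eval_C]
      rfl
    rw [h7]
    congr 1
    funext al
    exact hH al
  rw [← h6 p]
  have hsup : ∀ j : Fin (E + 1), (supp (Pi.single i (c j) : Fin n → F)).card ≤ 1 := fun j =>
    LS.CL15.supp_single_card _ _
  have htc : ∀ (j : Fin (E + 1)) (p : MvPolynomial (Fin n) F), GE B r s k e t p →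
      GE B r ((e + 1) * s) k e t (tc (Pi.single i (c j)) p) := fun j p hp => by
    have := ge_tc hB 1 _ (hsup j) hp
    rwa [hs] at this
  refine FR.CL15.qk_of b' (eval₂ (FR.CL15.cF τ) H p) ?_ (fun x => ?_) (fun x => ?_) ?_
  · rw [Fintype.card_sigma]
    calc ∑ aj : Fin (E + 1) × Fin (E + 1), Fintype.card (Fin (q' aj.1)) ≤
        ∑ _aj : Fin (E + 1) × Fin (E + 1), q := by
          refine Finset.sum_le_sum fun aj _ => ?_
          rw [Fintype.card_fin]
          exact hq' _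
      _ = (E + 1) * (E + 1) * q := by simp
  · exact ⟨dfK_map _ (htc _) (hbb x.1.1 x.2).1, denK_map _ (htc _) (hbb x.1.1 x.2).2⟩
  · refine (FR.CL15.degreeOf_eval₂_le H x M (fun al => ?_) p).trans (Nat.mul_le_mul_right _ hp)
    refine (degreeOf_sum_le _ _ _).trans (Finset.sup_le fun j' _ => ?_)
    refine (degreeOf_mul_le _ _ _).trans ?_
    rw [degreeOf_C, zero_add]
    exact FR.CL15.degreeOf_shift (φ j') (v (al.1, j')) (hv _) _ x M (Q al.1) (hQM al.1)
  · have h1 : ∀ aj : Fin (E + 1) × Fin (E + 1), AlgK K (GE B r ((e + 1) * s) k e t)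
        (tk (Pi.single i (c aj.2)) '' {x | ∃ μ, x = coeff μ (Q aj.1)}) := fun aj =>
      algK_map _ (htc _) (hQA aj.1)
    have h4 := algK_closure (algK_iUnion h1)
    rw [Fintype.card_prod, Fintype.card_fin] at h4
    refine algK_mono le_rfl (fun f hf => hf) ?_ h4
    rintro x ⟨μ, rfl⟩
    set A : Subfield (RF n F) := Subfield.closure ((⋃ aj : Fin (E + 1) × Fin (E + 1),
      (tk (Pi.single i (c aj.2)) '' {x | ∃ μ, x = coeff μ (Q aj.1)})) ∪
        Set.range fun a : F => em (C a)) with hA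
    have hGA : ∀ a j', G a j' ∈ FR.CL15.co A τ := by
      intro a j'
      refine FR.CL15.eval₂_mem_co (φ j') _ (fun j => ?_) (Q a) (fun μ => ?_)
      · exact Subring.add_mem _ (FR.CL15.X_mem_co _) (FR.CL15.C_mem_co A.zero_mem)
      · refine Subfield.subset_closure (Or.inl (Set.mem_iUnion.2 ⟨(a, j'), ?_⟩))
        exact ⟨_, ⟨μ, rfl⟩, rfl⟩
    have hcA : ∀ a : F, em (C a) ∈ A := fun a => Subfield.subset_closure (Or.inr ⟨a, rfl⟩)
    have hHA : ∀ al, H al ∈ FR.CL15.co A τ := by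
      intro al
      exact Subring.sum_mem _ fun j' _ => Subring.mul_mem _ (FR.CL15.C_mem_co (hcA _)) (hGA _ _)
    refine FR.CL15.coeff_mem_of ?_ μ
    rw [eval₂_eq]
    refine Subring.sum_mem _ fun μ _ => Subring.mul_mem _ (FR.CL15.C_mem_co (hcA _))
      (Subring.prod_mem _ fun j _ => Subring.pow_mem _ (hHA j) _)

theorem qX_tc {F : Type u} [Field F] [CharZero F] {n lg S V R N : ℕ} {β : Fin n → ℕ}
    (c : Fin n → F) (hc : (supp c).card ≤ N) (f : MvPolynomial (Fin n) F)
    (h : aeval (qX F β lg S V (R + N)) f = 0) : aeval (qX F β lg S V R) (tc c f) = 0 := by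
  classical
  by_contra h1
  obtain ⟨x, hx⟩ := DH.exists_eval_ne h1
  rw [eval_qX, LS.HQ15.eval_tc] at hx
  obtain ⟨a', w', h7⟩ := BK.exists_append (β := β) (κ := lg) (S := S) (W := V) (supp c) hc
    (x (Sum.inl ())) (fun j => x (Sum.inr (Sum.inl j))) (fun j => x (Sum.inr (Sum.inr j))) c
    (fun i hi => by
      by_contra h
      exact hi (by rw [supp, Finset.mem_filter]; exact ⟨Finset.mem_univ _, h⟩))
  apply hx
  rw [← h7]
  have h9 := eval_qX (Sum.elim (fun _ : Unit => x (Sum.inl ())) (Sum.elim a' w'))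
    f (β := β) (κ := lg) (S := S) (W := V)
  rw [h, map_zero] at h9
  exact h9.symm

open FR.HQ15

theorem hit_qk (ρ : ℕ) : ∀ q M K κ : ℕ, ∃ K' N' : ℕ, ∀ (F : Type u) [Field F] [CharZero F]
    (n r s k e t R S lg V : ℕ) (β : Fin n → ℕ) (B : ℕ → MvPolynomial (Fin n) F → Prop),
    BTc B e → BMo B →
    (∀ f : MvPolynomial (Fin n) F, f ≠ 0 → DH.Alg K' (GE B r ((e + 1) ^ N' * s) k e t) f →
      aeval (qX F β lg S V R) f ≠ 0) →
    ∀ f : RF n F, f ≠ 0 → QK ρ q M K κ (GE B r s k e t) f →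
      Hit (aeval (qX F β lg S V (R + N')) : MvPolynomial (Fin n) F →ₐ[F] _).toRingHom f := by
  induction ρ with
  | zero =>
    intro q M K κ
    refine ⟨K + q * κ, 0, fun F _ _ n r s k e t R S lg V β B hB hMo ih f h0 hf => ?_⟩
    classical
    obtain ⟨q', b, Q, hq', hb, hM, hA, rfl⟩ := hf
    rw [pow_zero, one_mul] at ih
    have h1 : ∀ j : Fin q', AlgK κ (GE B r s k e t) {b j} := fun j => (hb j).1
    have h2 := algK_closure (algK_union hA (algK_iUnion h1))
    rw [Fintype.card_fin] at h2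
    have h3 : eval b Q ∈ (Subfield.closure (({g | ∃ μ, g = coeff μ Q} ∪ ⋃ j, {b j}) ∪
        Set.range fun a : F => em (C a)) : Set (RF n F)) := by
      show eval b Q ∈ Subfield.closure _
      rw [eval_eq]
      refine Subfield.sum_mem _ fun μ _ => Subfield.mul_mem _ ?_
        (Subfield.prod_mem _ fun j _ => Subfield.pow_mem _ ?_ _)
      · exact Subfield.subset_closure (Or.inl (Or.inl ⟨μ, rfl⟩))
      · exact Subfield.subset_closure (Or.inl (Or.inr (Set.mem_iUnion.2 ⟨j, rfl⟩)))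
    obtain ⟨u, v, hv0, hu, hv, huv⟩ := exists_uv h2 h3
    have hle : K + q' * κ ≤ K + q * κ := Nat.add_le_add_left (Nat.mul_le_mul_right _ hq') _
    have hu0 : u ≠ 0 := by
      rintro rfl
      apply h0
      rw [huv, map_zero, zero_div]
    exact ⟨u, v, ih u hu0 (DH.alg_mono hle (fun f hf => hf) hu),
      ih v hv0 (DH.alg_mono hle (fun f hf => hf) hv), huv⟩
  | succ ρ IH =>
    intro q M K κ
    obtain ⟨N, hN⟩ : ∃ N, N = (M + 1) ^ q := ⟨_, rfl⟩
    have hN1 : 1 ≤ N := hN ▸ Nat.pow_pos (Nat.succ_pos M)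
    obtain ⟨K'', N'', hIH⟩ := IH (N * q) (N * M) (N * K) (N * κ)
    refine ⟨K'' + κ + K, N'' + N, fun F _ _ n r s k e t R S lg V β B hB hMo ih f h0 hf => ?_⟩
    classical
    obtain ⟨q', b, Q, hq', hb, hM, hA, rfl⟩ := hf
    have hNq : (M + 1) ^ q' ≤ N := hN ▸ Nat.pow_le_pow_right (Nat.succ_pos M) hq'
    obtain ⟨r0, c, P', A, hr, hsupp, hdeg, hco, hAS, hD0, hD⟩ := locK b Q hM h0
    have hr' := hr.trans hNq
    have hsupp' : ∀ l, (supp (c l)).card ≤ N := fun l => (hsupp l).trans hNq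
    have he1 : 1 ≤ (e + 1) ^ N := Nat.pow_pos (Nat.succ_pos e)
    have he2 : 1 ≤ (e + 1) ^ N'' := Nat.pow_pos (Nat.succ_pos e)
    have htc : ∀ l p, GE B r s k e t p → GE B r ((e + 1) ^ N * s) k e t (tc (c l) p) :=
      fun l p hp => ge_tc hB N (c l) (hsupp' l) hp
    have hmono : ∀ p : MvPolynomial (Fin n) F, GE B r s k e t p →
        GE B r ((e + 1) ^ N * s) k e t p := fun p hp =>
      ge_mono hMo (Nat.le_mul_of_pos_left _ he1) hp
    have hsz : (e + 1) ^ N * s ≤ (e + 1) ^ (N'' + N) * s := by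
      rw [pow_add, mul_assoc]
      exact Nat.le_mul_of_pos_left _ he2
    -- what is hit by `bX R`
    have hhit : ∀ (K₀ : ℕ) (p : MvPolynomial (Fin n) F), K₀ ≤ K'' + κ + K → p ≠ 0 →
        DH.Alg K₀ (GE B r ((e + 1) ^ N * s) k e t) p → ∀ R', R ≤ R' →
        aeval (qX F β lg S V R') p ≠ 0 := fun K₀ p hK₀ hp0 hp R' hR' =>
      BK.qX_mono hR' p (ih p hp0 (DH.alg_mono hK₀ (fun g hg => ge_mono hMo hsz hg) hp))
    have h1 : QK ρ (N * q) (N * M) (N * K) (N * κ) (GE B r ((e + 1) ^ N * s) k e t)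
        (eval (fun x : Fin r0 × Fin q' => tk (c x.1) (b x.2) - b x.2) P') := by
      refine FR.CL15.qk_of _ P' ?_ (fun x => ⟨?_, ?_⟩) (fun x => ?_) ?_
      · rw [Fintype.card_prod, Fintype.card_fin, Fintype.card_fin]
        exact Nat.mul_le_mul hr' hq'
      · exact dfK_diffP (hb x.2).1 N (fun c hc p hp => ge_tc hB N c hc hp) (c x.1) (hsupp' _)
      · refine denK_mono (Nat.le_mul_of_pos_left _ hN1) (fun g hg => hg) (denK_sub ?_ ?_)
        · exact denK_map _ (htc _) (hb x.2).2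
        · exact denK_mono le_rfl hmono (hb x.2).2
      · exact (hdeg x).trans (Nat.mul_le_mul_right _ hNq)
      · have h2 : ∀ l : Fin r0, AlgK K (GE B r ((e + 1) ^ N * s) k e t)
            (tk (c l) '' {x | ∃ μ, x = coeff μ Q}) := fun l => algK_map _ (htc l) hA
        have h3 := algK_closure (algK_iUnion h2)
        rw [Fintype.card_fin] at h3
        refine algK_mono (Nat.mul_le_mul_right _ hr') (fun f hf => hf) ?_ h3
        rintro x ⟨μ, rfl⟩
        have h4 : Subring.closure {g | ∃ l ν, g = tk (c l) (coeff ν Q)} ≤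
            (Subfield.closure ((⋃ l, tk (c l) '' {x | ∃ μ, x = coeff μ Q}) ∪
              Set.range fun a : F => em (C a))).toSubring := by
          refine Subring.closure_le.2 ?_
          rintro g ⟨l, ν, rfl⟩
          exact Subfield.subset_closure (Or.inl (Set.mem_iUnion.2 ⟨l, ⟨_, ⟨ν, rfl⟩, rfl⟩⟩))
        exact h4 (hco μ)
    have h5 := hIH F n r ((e + 1) ^ N * s) k e t R S lg V β B hB hMo (fun f hf0 hf => ih f hf0 (by
      rw [pow_add, mul_assoc]
      exact DH.alg_mono (by omega) (fun g hg => hg) hf)) _ hD0 h1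
    set G₁ := (aeval (qX F β lg S V (R + N'')) : MvPolynomial (Fin n) F →ₐ[F] _).toRingHom with hG₁
    set G₂ := (aeval (qX F β lg S V (R + (N'' + N))) : MvPolynomial (Fin n) F →ₐ[F] _).toRingHom
      with hG₂
    -- the coefficients `A l`
    have hAl : ∀ l, A l ∈ lo (nk G₁) (zero_notMem_nk G₁) := by
      refine hAS _ (fun a => em_mem_lo _) (fun j => ?_) (fun l j => ?_) (fun l ν => ?_)
      · exact den_mem_lo (hb j).2 fun p hp0 hp => hhit κ p (by omega) hp0
          (DH.alg_mono le_rfl hmono hp) _ (Nat.le_add_right _ _)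
      · exact den_mem_lo (denK_map _ (htc l) (hb j).2) fun p hp0 hp =>
          hhit κ p (by omega) hp0 hp _ (Nat.le_add_right _ _)
      · obtain ⟨u, v, hv0, hu, hv, huv⟩ := exists_uv (algK_map _ (htc l) hA)
          (g := tk (c l) (coeff ν Q)) ⟨_, ⟨ν, rfl⟩, rfl⟩
        exact ⟨u, v, hhit K v (by omega) hv0 hv _ (Nat.le_add_right _ _), huv⟩
    -- a representation of `f`
    let W : Submonoid (MvPolynomial (Fin n) F) :=
      { carrier := {w | G₂ w ≠ 0 ∧ ∀ l, G₁ (tc (c l) w) ≠ 0}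
        mul_mem' := by
          rintro a b ⟨ha, ha'⟩ ⟨hb, hb'⟩
          refine ⟨?_, fun l => ?_⟩
          · rw [map_mul]
            exact mul_ne_zero ha hb
          · rw [map_mul, map_mul]
            exact mul_ne_zero (ha' l) (hb' l)
        one_mem' := by
          refine ⟨?_, fun l => ?_⟩
          · rw [map_one]
            exact one_ne_zero
          · rw [map_one, map_one]
            exact one_ne_zero }
    have hW : (0 : MvPolynomial (Fin n) F) ∉ W := fun h => h.1 (map_zero _)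
    have hWmem : ∀ (K₀ : ℕ) (p : MvPolynomial (Fin n) F), K₀ ≤ K'' + κ + K → p ≠ 0 →
        DH.Alg K₀ (GE B r s k e t) p → p ∈ W := by
      intro K₀ p hK₀ hp0 hp
      refine ⟨hhit K₀ p hK₀ hp0 (DH.alg_mono le_rfl hmono hp) _ (Nat.le_add_right _ _),
        fun l => ?_⟩
      refine hhit K₀ (tc (c l) p) hK₀ (fun h => hp0 ?_) ?_ _ (Nat.le_add_right _ _)
      · exact tc_injective (c l) (by rw [h, map_zero])
      · exact DH.alg_map _ (tc_injective (c l)) (htc l) hp
    have hfW : eval b Q ∈ lo W hW := by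
      refine eval_mem _ b Q (fun j => ?_) (fun μ => ?_)
      · exact den_mem_lo (hb j).2 fun p hp0 hp => hWmem κ p (by omega) hp0 hp
      · obtain ⟨u, v, hv0, hu, hv, huv⟩ := exists_uv hA (g := coeff μ Q) ⟨μ, rfl⟩
        exact ⟨u, v, hWmem K v (by omega) hv0 hv, huv⟩
    obtain ⟨u₀, w₀, hw₀, hf⟩ := hfW
    refine ⟨u₀, w₀, fun hu₀ => ?_, hw₀.1, hf⟩
    rw [hD] at h5
    refine not_hit_sum G₁ Finset.univ A _ (fun l _ => hAl l) (fun l _ => ?_) h5
    refine ⟨tc (c l) u₀, tc (c l) w₀, ?_, hw₀.2 l, ?_⟩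
    · refine qX_tc (c l) (hsupp' l) u₀ ?_
      rw [add_assoc]
      exact hu₀
    · rw [hf, map_div₀, tk_em, tk_em]


end FB
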