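import Mathlib

/-!
# A nonsingular minor outside a few rows and columns
-/

set_option autoImplicit false

namespace FR

namespace TDE91

open Finset

/-- Deletion of the rows outside `P`. -/
theorem rows {R : Type*} [CommRing R] {N : ℕ} (B : Matrix (Fin N) (Fin N) R)
    (P : Finset (Fin N)) : ∀ (p : ℕ) (a b : Fin p → Fin N), Function.Injective a →
      Function.Injective b → (B.submatrix a b).det ≠ 0 →
      ∃ (p' : ℕ) (a' b' : Fin p' → Fin N), Function.Injective a' ∧ Function.Injective b' ∧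
        (∀ i, a' i ∈ P) ∧ (∀ i, a' i ∈ Set.range a) ∧ (∀ i, b' i ∈ Set.range b) ∧
        (B.submatrix a' b').det ≠ 0 ∧ p ≤ p' + ∑ i, if a i ∈ P then 0 else 1 := by
  intro p
  induction p with
  | zero =>
    intro a b ha hb h
    exact ⟨0, a, b, ha, hb, fun i => i.elim0, fun i => i.elim0, fun i => i.elim0, h, by simp⟩
  | succ p ih =>
    intro a b ha hb h
    by_cases hP : ∀ i, a i ∈ P
    · exact ⟨p + 1, a, b, ha, hb, hP, fun i => ⟨i, rfl⟩, fun i => ⟨i, rfl⟩, h, by omega⟩
    · push Not at hP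
      obtain ⟨r, hr⟩ := hP
      rw [Matrix.det_succ_row _ r] at h
      obtain ⟨t, _, ht⟩ := Finset.exists_ne_zero_of_sum_ne_zero h
      have h1 : (B.submatrix (a ∘ r.succAbove) (b ∘ t.succAbove)).det ≠ 0 := by
        intro h0
        apply ht
        rw [Matrix.submatrix_submatrix, h0, mul_zero]
      obtain ⟨p', a', b', ha', hb', h2, h3, h4, h5, h6⟩ := ih (a ∘ r.succAbove)
        (b ∘ t.succAbove) (ha.comp Fin.succAbove_right_injective)
        (hb.comp Fin.succAbove_right_injective) h1
      refine ⟨p', a', b', ha', hb', h2, fun i => ?_, fun i => ?_, h5, ?_⟩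
      · obtain ⟨x, hx⟩ := h3 i
        exact ⟨_, hx⟩
      · obtain ⟨x, hx⟩ := h4 i
        exact ⟨_, hx⟩
      · rw [Fin.sum_univ_succAbove _ r, if_neg hr]
        have h7 : (∑ i, if (a ∘ r.succAbove) i ∈ P then 0 else 1) =
            ∑ i : Fin p, if a (r.succAbove i) ∈ P then 0 else 1 := rfl
        omega

/-- Few of the indices are deleted. -/
theorem count {N l p : ℕ} (h : Fin N → Fin l) (hh : Function.Injective h) (J : Finset (Fin l))
    (a : Fin p → Fin N) (ha : Function.Injective a) :
    (∑ i, if a i ∈ (univ.filter fun x => h x ∈ J) then 0 else 1) ≤ (univ.image h \ J).card := by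
  have h1 : (∑ i, if a i ∈ (univ.filter fun x => h x ∈ J) then 0 else 1) =
      (univ.filter fun i => h (a i) ∉ J).card := by
    rw [Finset.card_filter]
    refine Finset.sum_congr rfl fun i _ => ?_
    by_cases hi : h (a i) ∈ J
    · simp [hi]
    · simp [hi]
  rw [h1]
  refine Finset.card_le_card_of_injOn (fun i => h (a i)) ?_ ?_
  · intro i hi
    rw [Finset.mem_coe, Finset.mem_filter] at hi
    rw [Finset.mem_coe, Finset.mem_sdiff]
    exact ⟨Finset.mem_image.2 ⟨a i, Finset.mem_univ _, rfl⟩, hi.2⟩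
  · intro i _ j _ hij
    exact ha (hh hij)

/-- An injection of an initial segment as the first part of a decomposition. -/
theorem split {N p : ℕ} (a : Fin p → Fin N) (ha : Function.Injective a) :
    ∃ (a₁ : Fin (N - p) → Fin N) (u : Fin N ≃ Fin p ⊕ Fin (N - p)),
      ∀ i, Sum.elim a a₁ (u i) = i := by
  classical
  have hc : Fintype.card ((Set.range a)ᶜ : Set (Fin N)) = Fintype.card (Fin (N - p)) := by
    rw [Fintype.card_compl_set, Fintype.card_fin, Fintype.card_fin,
      ← Fintype.card_congr (Equiv.ofInjective a ha), Fintype.card_fin]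
  let e := Fintype.equivOfCardEq hc
  let w : Fin p ⊕ Fin (N - p) ≃ Fin N :=
    (Equiv.sumCongr (Equiv.ofInjective a ha) e.symm).trans (Equiv.Set.sumCompl (Set.range a))
  refine ⟨fun i => (e.symm i : Fin N), w.symm, fun i => ?_⟩
  have h1 : ∀ x, Sum.elim a (fun i => (e.symm i : Fin N)) x = w x := by
    rintro (x | x)
    · rfl
    · rfl
  rw [h1, Equiv.apply_symm_apply]

end TDE91

open TDE91 in
/-- Row TDE (91 / 48): a nonsingular matrix has a nonsingular submatrix outside `c` rows and `c`
columns; the remaining rows and columns are at most `2 c`. -/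
theorem exists_minor {R : Type*} [CommRing R] [IsDomain R] {l c N : ℕ}
    (A : Matrix (Fin l) (Fin l) R) (f g : Fin N → Fin l) (hf : Function.Injective f)
    (hg : Function.Injective g) (h : (A.submatrix f g).det ≠ 0) (I J : Finset (Fin l))
    (hI : (Finset.univ.image f \ I).card ≤ c) (hJ : (Finset.univ.image g \ J).card ≤ c) :
    ∃ (p m : ℕ) (f₀ g₀ : Fin p → Fin l) (f₁ g₁ : Fin m → Fin l) (u v : Fin N ≃ Fin p ⊕ Fin m),
      (∀ i, f₀ i ∈ I) ∧ (∀ i, g₀ i ∈ J) ∧ (A.submatrix f₀ g₀).det ≠ 0 ∧ m ≤ 2 * c ∧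
      f = Sum.elim f₀ f₁ ∘ u ∧ g = Sum.elim g₀ g₁ ∘ v := by
  obtain ⟨p₁, a₁, b₁, ha₁, hb₁, h1, -, -, h2, h3⟩ := rows (A.submatrix f g)
    (Finset.univ.filter fun x => f x ∈ I) N id id Function.injective_id Function.injective_id
    (by rwa [Matrix.submatrix_id_id])
  have h4 : ((A.submatrix f g).transpose.submatrix b₁ a₁).det ≠ 0 := by
    rwa [← Matrix.transpose_submatrix, Matrix.det_transpose]
  obtain ⟨p, b, a, hb, ha, h5, -, h6, h7, h8⟩ := rows (A.submatrix f g).transpose
    (Finset.univ.filter fun x => g x ∈ J) p₁ b₁ a₁ hb₁ ha₁ h4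
  have h9 := count f hf I (id : Fin N → Fin N) Function.injective_id
  have h10 := count g hg J b₁ hb₁
  obtain ⟨a', u, hu⟩ := split a ha
  obtain ⟨b', v, hv⟩ := split b hb
  refine ⟨p, N - p, f ∘ a, g ∘ b, f ∘ a', g ∘ b', u, v, fun i => ?_, fun i => ?_, ?_, ?_, ?_, ?_⟩
  · obtain ⟨x, hx⟩ := h6 i
    have := h1 x
    rw [Finset.mem_filter] at this
    rw [Function.comp_apply, ← hx]
    exact this.2
  · have := h5 i
    rw [Finset.mem_filter] at this
    exact this.2
  · rwa [← Matrix.transpose_submatrix, Matrix.det_transpose, Matrix.submatrix_submatrix] at h7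
  · omega
  · funext i
    have h11 : Sum.elim (f ∘ a) (f ∘ a') (u i) = f (Sum.elim a a' (u i)) := by
      rcases u i with x | x <;> rfl
    rw [Function.comp_apply, h11, hu]
  · funext i
    have h11 : Sum.elim (g ∘ b) (g ∘ b') (v i) = g (Sum.elim b b' (v i)) := by
      rcases v i with x | x <;> rfl
    rw [Function.comp_apply, h11, hv]

end FR
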