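import Mathlib

/-!
# Sizes and degrees of determinants
-/

set_option autoImplicit false

namespace FR

open MvPolynomial

theorem support_det46 {F : Type*} [Field F] {n s : ℕ} {ι : Type} [Fintype ι] [DecidableEq ι]
    (M : Matrix ι ι (MvPolynomial (Fin n) F)) (h : ∀ i j, (M i j).support.card ≤ s) :
    M.det.support.card ≤ (Fintype.card ι).factorial * s ^ Fintype.card ι := by
  classical
  have hprod : ∀ (S : Finset ι) (f : ι → MvPolynomial (Fin n) F),
      (∀ i ∈ S, (f i).support.card ≤ s) → (∏ i ∈ S, f i).support.card ≤ s ^ S.card := by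
    intro S f
    induction S using Finset.induction_on with
    | empty =>
      intro _
      rw [Finset.prod_empty, Finset.card_empty, pow_zero, ← C_1, ← monomial_zero', support_monomial]
      split_ifs <;> simp
    | insert a S ha ih =>
      intro hf
      rw [Finset.prod_insert ha, Finset.card_insert_of_notMem ha, pow_succ']
      refine (Finset.card_le_card (support_mul _ _)).trans ((Finset.card_add_le).trans ?_)
      exact Nat.mul_le_mul (hf a (Finset.mem_insert_self _ _))
        (ih fun i hi => hf i (Finset.mem_insert_of_mem hi))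
  rw [Matrix.det_apply]
  refine (Finset.card_le_card (support_sum)).trans (Finset.card_biUnion_le.trans ?_)
  refine (Finset.sum_le_sum (g := fun _ => s ^ Fintype.card ι) fun σ _ => ?_).trans ?_
  · have h1 := hprod Finset.univ (fun i => M (σ i) i) fun i _ => h _ _
    rw [Finset.card_univ] at h1
    rcases Int.units_eq_one_or (Equiv.Perm.sign σ) with h2 | h2
    · rw [h2, one_smul]; exact h1
    · rw [h2, Units.neg_smul, one_smul, support_neg]; exact h1
  · rw [Finset.sum_const, Finset.card_univ, Fintype.card_perm, smul_eq_mul]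

theorem degreeOf_minor46 {F : Type*} [Field F] {n l k e : ℕ} {ι : Type} [Fintype ι]
    [DecidableEq ι] (A : Matrix (Fin l) (Fin l) (MvPolynomial (Fin n) F)) (x : Fin n)
    (h1 : ∀ i j, (A i j).degreeOf x ≤ e)
    (h2 : (Finset.univ.filter fun p : Fin l × Fin l => (A p.1 p.2).degreeOf x ≠ 0).card ≤ k)
    (f g : ι → Fin l) (hg : Function.Injective g) :
    (A.submatrix f g).det.degreeOf x ≤ k * e := by
  classical
  rw [Matrix.det_apply]
  refine (degreeOf_sum_le _ _ _).trans (Finset.sup_le fun π _ => ?_)
  have h3 : degreeOf x (∏ i, (A.submatrix f g) (π i) i) ≤ k * e := by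
    refine (degreeOf_prod_le _ _ _).trans ?_
    have h4 : ∑ i, degreeOf x ((A.submatrix f g) (π i) i) ≤
        ∑ i ∈ Finset.univ.filter (fun i => degreeOf x (A (f (π i)) (g i)) ≠ 0), e := by
      rw [← Finset.sum_filter_add_sum_filter_not Finset.univ
        (fun i => degreeOf x (A (f (π i)) (g i)) ≠ 0)]
      have h5 : ∑ i ∈ Finset.univ.filter (fun i => ¬ degreeOf x (A (f (π i)) (g i)) ≠ 0),
          degreeOf x ((A.submatrix f g) (π i) i) = 0 := by
        refine Finset.sum_eq_zero fun i hi => ?_
        rw [Finset.mem_filter, not_not] at hi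
        exact hi.2
      rw [h5, add_zero]
      exact Finset.sum_le_sum fun i _ => h1 _ _
    refine h4.trans ?_
    rw [Finset.sum_const, smul_eq_mul]
    refine Nat.mul_le_mul_right e (le_trans ?_ h2)
    refine Finset.card_le_card_of_injOn (fun i => (f (π i), g i)) (fun i hi => ?_) ?_
    · rw [Finset.mem_coe, Finset.mem_filter] at hi
      rw [Finset.mem_coe, Finset.mem_filter]
      exact ⟨Finset.mem_univ _, hi.2⟩
    · intro i _ j _ hij
      exact hg (Prod.ext_iff.1 hij).2
  rcases Int.units_eq_one_or (Equiv.Perm.sign π) with h6 | h6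
  · rw [h6, one_smul]; exact h3
  · rw [h6, Units.neg_smul, one_smul, degreeOf_neg]; exact h3

theorem exists_entry46 {F : Type*} [Field F] {n : ℕ} {ι : Type} [Fintype ι] [DecidableEq ι]
    (M : Matrix ι ι (MvPolynomial (Fin n) F)) (x : Fin n) (h : M.det.degreeOf x ≠ 0) :
    ∃ i j, (M i j).degreeOf x ≠ 0 := by
  classical
  by_contra hc
  push Not at hc
  apply h
  refine Nat.le_zero.1 ?_
  rw [Matrix.det_apply]
  refine (degreeOf_sum_le _ _ _).trans (Finset.sup_le fun π _ => ?_)
  have h3 : degreeOf x (∏ i, M (π i) i) ≤ 0 := by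
    refine (degreeOf_prod_le _ _ _).trans ?_
    rw [Finset.sum_eq_zero fun i _ => hc _ _]
  rcases Int.units_eq_one_or (Equiv.Perm.sign π) with h6 | h6
  · rw [h6, one_smul]; exact h3
  · rw [h6, Units.neg_smul, one_smul, degreeOf_neg]; exact h3

end FR
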