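import Pool.Agent.Lib.MP_64d474_lc.FR.TDb46
import Pool.Agent.Lib.MP_64d474_lc.FR.TDS46
import Pool.Agent.Lib.MP_64d474_lc.FR.TDE91

/-!
# Row TD: matrices of bounded tree-depth are in the levels
-/

set_option autoImplicit false

namespace FR

open MvPolynomial AK LS DF

theorem det_sub_equiv {R κ ι : Type*} [CommRing R] [Fintype κ] [DecidableEq κ] [Fintype ι]
    [DecidableEq ι] (M : Matrix κ κ R) (u v : ι ≃ κ) :
    (M.submatrix u v).det = M.det ∨ (M.submatrix u v).det = -M.det := by
  have h1 : M.submatrix u v = (M.submatrix (v.symm.trans u : Equiv.Perm κ) id).submatrix v v := by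
    ext i j
    simp
  rw [h1, Matrix.det_submatrix_equiv_self, Matrix.det_permute]
  rcases Int.units_eq_one_or (Equiv.Perm.sign (v.symm.trans u : Equiv.Perm κ)) with h2 | h2
  · left; rw [h2]; simp
  · right; rw [h2]; simp

section step

variable {F : Type*} [Field F] {n l p m : ℕ}
  (A : Matrix (Fin l) (Fin l) (MvPolynomial (Fin n) F)) (f₀ g₀ : Fin p → Fin l)
  (β : Fin p → ℕ)

/-- the labels that occur -/
abbrev Xt (β : Fin p → ℕ) : Type := {x // x ∈ Finset.univ.image β}

/-- an entry of the Schur complement -/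
noncomputable def sc (i j : Fin l) : RF n F := em (A i j) +
  ∑ x ∈ Finset.univ.image β, em (bd A f₀ g₀ β i j x) / em (nd A f₀ g₀ β x)

theorem sc_locK {K e k : ℕ} {P : MvPolynomial (Fin n) F → Prop} (hK : 2 ≤ K) (hkK : k ≤ K)
    (hf₀ : Function.Injective f₀) (hg₀ : Function.Injective g₀) (i j : Fin l)
    (hi : ∀ t, f₀ t ≠ i) (hj : ∀ t, g₀ t ≠ j)
    (h2 : ∀ x, (Finset.univ.filter fun q : Fin l × Fin l =>
      (A q.1 q.2).degreeOf x ≠ 0).card ≤ k)
    (hA : P (A i j)) (hn0 : ∀ x ∈ Finset.univ.image β, nd A f₀ g₀ β x ≠ 0)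
    (hn : ∀ x ∈ Finset.univ.image β, P (nd A f₀ g₀ β x))
    (hb : ∀ x ∈ Finset.univ.image β, P (bd A f₀ g₀ β i j x)) :
    LocK 1 K e P (sc A f₀ g₀ β i j) := by
  classical
  let u : Option (Xt β) → MvPolynomial (Fin n) F := fun a => a.elim (A i j) fun x =>
    bd A f₀ g₀ β i j x
  let v : Option (Xt β) → MvPolynomial (Fin n) F := fun a => a.elim 1 fun x => nd A f₀ g₀ β x
  have hsum : sc A f₀ g₀ β i j = ∑ a, em (u a) / em (v a) := by
    rw [Fintype.sum_option]
    show _ = em (A i j) / em 1 + ∑ x : Xt β, em (bd A f₀ g₀ β i j x) / em (nd A f₀ g₀ β x)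
    rw [map_one, div_one, sc]
    congr 1
    exact (Finset.sum_coe_sort (Finset.univ.image β)
      (fun x => em (bd A f₀ g₀ β i j x) / em (nd A f₀ g₀ β x) : ℕ → RF n F)).symm
  rw [hsum]
  refine locK_fin u v (fun a => ?_) (fun y => ?_)
  · cases a with
    | none => exact ⟨one_ne_zero, algF_self_one hK hA⟩
    | some x => exact ⟨hn0 x x.2, algF_pair hK (hb x x.2) (hn x x.2)⟩
  · -- the labels of columns and rows
    let γ : Fin l → Option (Xt β) := fun q =>
      if h : ∃ t, g₀ t = q then some ⟨β h.choose, Finset.mem_image_of_mem β (Finset.mem_univ _)⟩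
      else none
    let δ : Fin l → Option (Xt β) := fun q =>
      if h : ∃ t, f₀ t = q then some ⟨β h.choose, Finset.mem_image_of_mem β (Finset.mem_univ _)⟩
      else none
    have hγ : ∀ t, γ (g₀ t) = some ⟨β t, Finset.mem_image_of_mem β (Finset.mem_univ _)⟩ := by
      intro t
      have h : ∃ t', g₀ t' = g₀ t := ⟨t, rfl⟩
      have h' : h.choose = t := hg₀ h.choose_spec
      simp only [γ, dif_pos h]
      congr 2
      rw [h']
    have hδ : ∀ t, δ (f₀ t) = some ⟨β t, Finset.mem_image_of_mem β (Finset.mem_univ _)⟩ := by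
      intro t
      have h : ∃ t', f₀ t' = f₀ t := ⟨t, rfl⟩
      have h' : h.choose = t := hf₀ h.choose_spec
      simp only [δ, dif_pos h]
      congr 2
      rw [h']
    have hγj : γ j = none := by
      simp only [γ]
      rw [dif_neg]
      rintro ⟨t, ht⟩
      exact hj t ht
    have hδi : δ i = none := by
      simp only [δ]
      rw [dif_neg]
      rintro ⟨t, ht⟩
      exact hi t ht
    let G : Fin l × Fin l → Option (Xt β) := fun q => (γ q.2).elim (δ q.1) some
    refine ⟨(Finset.univ.filter fun q : Fin l × Fin l => (A q.1 q.2).degreeOf y ≠ 0).image G,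
      Finset.card_image_le.trans ((h2 y).trans hkK), fun a ha => ?_⟩
    have hmem : ∀ r c : Fin l, (A r c).degreeOf y ≠ 0 → G (r, c) = a →
        a ∈ (Finset.univ.filter fun q : Fin l × Fin l => (A q.1 q.2).degreeOf y ≠ 0).image G :=
      fun r c h1 h2 => Finset.mem_image.2 ⟨(r, c), Finset.mem_filter.2 ⟨Finset.mem_univ _, h1⟩, h2⟩
    cases a with
    | none =>
      rcases ha with ha | ha
      · refine hmem i j ha ?_
        simp only [G, hγj, Option.elim_none, hδi]
      · exact absurd (degreeOf_one y) ha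
    | some x =>
      rcases ha with ha | ha
      · obtain ⟨r, c, hrc⟩ := exists_entry46 _ y ha
        rcases r with r | r <;> rcases c with c | c
        · have h3 : (A (f₀ r) (g₀ c)).degreeOf y ≠ 0 := by
            have h4 : zr A i j (f₀ r) (g₀ c) = A (f₀ r) (g₀ c) := by
              rw [zr, Matrix.of_apply, if_neg (fun h => hi _ h.1)]
            rw [← h4]; exact hrc
          refine hmem _ _ h3 ?_
          simp only [G, hγ, Option.elim_some]
          exact congrArg some (Subtype.ext c.2)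
        · have h3 : (A (f₀ r) j).degreeOf y ≠ 0 := by
            have h4 : zr A i j (f₀ r) j = A (f₀ r) j := by
              rw [zr, Matrix.of_apply, if_neg (fun h => hi _ h.1)]
            rw [← h4]; exact hrc
          refine hmem _ _ h3 ?_
          simp only [G, hγj, Option.elim_none, hδ]
          exact congrArg some (Subtype.ext r.2)
        · have h3 : (A i (g₀ c)).degreeOf y ≠ 0 := by
            have h4 : zr A i j i (g₀ c) = A i (g₀ c) := by
              rw [zr, Matrix.of_apply, if_neg (fun h => hj _ h.2)]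
            rw [← h4]; exact hrc
          refine hmem _ _ h3 ?_
          simp only [G, hγ, Option.elim_some]
          exact congrArg some (Subtype.ext c.2)
        · exfalso
          apply hrc
          have h4 : zr A i j i j = 0 := by
            rw [zr, Matrix.of_apply, if_pos ⟨rfl, rfl⟩]
          show (zr A i j i j).degreeOf y = 0
          rw [h4, degreeOf_zero]
      · obtain ⟨r, c, hrc⟩ := exists_entry46 _ y ha
        refine hmem (f₀ r) (g₀ c) hrc ?_
        simp only [G, hγ, Option.elim_some]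
        exact congrArg some (Subtype.ext c.2)

theorem mixK_schur {K e : ℕ} {P : MvPolynomial (Fin n) F → Prop} (hm : m * m ≤ K) (hm' : m ≤ K)
    (hK : 1 ≤ K) (f₁ g₁ : Fin m → Fin l) (hβ : ∀ i j, β i ≠ β j → A (f₀ i) (g₀ j) = 0)
    (hN : (A.submatrix f₀ g₀).det ≠ 0) (hf : ∀ t i, f₀ t ≠ f₁ i) (hg : ∀ t j, g₀ t ≠ g₁ j)
    (hn : ∀ x ∈ Finset.univ.image β, P (nd A f₀ g₀ β x))
    (hS : ∀ i j, LocK 1 K e P (sc A f₀ g₀ β (f₁ i) (g₁ j))) :
    MixK 1 K e P (A.submatrix (Sum.elim f₀ f₁) (Sum.elim g₀ g₁)).det := by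
  classical
  obtain ⟨φ⟩ : Nonempty (Fin m × Fin m ↪ Fin K) :=
    Function.Embedding.nonempty_of_card_le (by simpa using hm)
  let σ : Fin K → RF n F := Function.extend φ (fun q => sc A f₀ g₀ β (f₁ q.1) (g₁ q.2))
    (fun _ => 0)
  have hσ : ∀ q, σ (φ q) = sc A f₀ g₀ β (f₁ q.1) (g₁ q.2) := fun q =>
    φ.injective.extend_apply _ _ q
  set T : MvPolynomial (Fin n) F := (A.submatrix f₀ g₀).det with hT
  let G : Matrix (Fin m) (Fin m) (MvPolynomial (Fin K) (MvPolynomial (Fin n) F)) :=
    Matrix.of fun i j => X (φ (i, j))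
  let Q : MvPolynomial (Fin K) (MvPolynomial (Fin n) F) := C T * G.det
  have hTP : IsProdK P T := by
    rw [hT, prod_nd A f₀ g₀ β hβ]
    exact isProdK_prod _ _ hn
  refine ⟨σ, Q, 1, one_ne_zero, fun a => ?_, fun a => ?_, ?_, ?_⟩
  · by_cases ha : ∃ q, φ q = a
    · obtain ⟨q, rfl⟩ := ha
      rw [hσ]
      exact hS _ _
    · have : σ a = 0 := Function.extend_apply' _ _ _ ha
      rw [this]
      exact locK_zero
  · refine (degreeOf_mul_le _ _ _).trans ?_
    rw [degreeOf_C, zero_add]
    refine le_trans ?_ hm'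
    have h1 : ∀ i j, (G i j).degreeOf a ≤ 1 := fun i j => by
      show (X (φ (i, j)) : MvPolynomial (Fin K) (MvPolynomial (Fin n) F)).degreeOf a ≤ 1
      rw [degreeOf_X]
      split_ifs <;> simp
    rw [Matrix.det_apply]
    refine (degreeOf_sum_le _ _ _).trans (Finset.sup_le fun π _ => ?_)
    have h3 : degreeOf a (∏ i, G (π i) i) ≤ m := by
      refine (degreeOf_prod_le _ _ _).trans ((Finset.sum_le_sum fun i _ => h1 _ _).trans ?_)
      simp
    rcases Int.units_eq_one_or (Equiv.Perm.sign π) with h6 | h6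
    · rw [h6, one_smul]; exact h3
    · rw [h6, Units.neg_smul, one_smul, degreeOf_neg]; exact h3
  · refine algF_fin (m := 1) hK (fun _ => T) (fun _ => hTP) _ ?_
    have hTS : T ∈ Algebra.adjoin F (Set.range fun _ : Fin 1 => T) :=
      Algebra.subset_adjoin ⟨0, rfl⟩
    intro g hg
    rcases hg with rfl | ⟨μ, rfl⟩
    · exact Subalgebra.one_mem _
    · have h1 : G.det = MvPolynomial.map (Int.castRingHom (MvPolynomial (Fin n) F))
          (Matrix.of fun i j => X (φ (i, j)) :
            Matrix (Fin m) (Fin m) (MvPolynomial (Fin K) ℤ)).det := by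
        rw [RingHom.map_det]
        congr 1
        refine Matrix.ext fun i j => ?_
        show (X (φ (i, j)) : MvPolynomial (Fin K) (MvPolynomial (Fin n) F)) =
          MvPolynomial.map (Int.castRingHom (MvPolynomial (Fin n) F)) (X (φ (i, j)))
        rw [map_X]
      show coeff μ (C T * G.det) ∈ _
      rw [coeff_C_mul, h1, coeff_map]
      exact Subalgebra.mul_mem _ hTS (intCast_mem _ _)
  · have h2 : eval₂Hom em σ (C T * G.det) =
        em T * (Matrix.of fun i j : Fin m => sc A f₀ g₀ β (f₁ i) (g₁ j)).det := by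
      have h3 : eval₂Hom em σ G.det = ((eval₂Hom em σ).mapMatrix G).det :=
        RingHom.map_det (eval₂Hom em σ) G
      have h4 : eval₂Hom em σ (C T) = em T := by rw [coe_eval₂Hom, eval₂_C]
      rw [map_mul, h3, h4]
      congr 2
      refine Matrix.ext fun i j => ?_
      show eval₂Hom em σ (X (φ (i, j))) = sc A f₀ g₀ β (f₁ i) (g₁ j)
      rw [coe_eval₂Hom, eval₂_X, hσ]
    rw [map_one, one_mul, schur_det A f₀ g₀ β f₁ g₁ hβ hN hf hg]
    exact h2.symm

end step

theorem deep_main {F : Type*} [Field F] {n l s e k D : ℕ} (hs : 1 ≤ s) (he : 1 ≤ e) (hk : 1 ≤ k) :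
    ∀ (h c : ℕ), c + h ≤ D → ∀ A : Matrix (Fin l) (Fin l) (MvPolynomial (Fin n) F),
      (∀ i j, (A i j).support.card ≤ s ∧ ∀ x, (A i j).degreeOf x ≤ e) →
      (∀ x, (Finset.univ.filter fun p : Fin l × Fin l =>
        (A p.1 p.2).degreeOf x ≠ 0).card ≤ k) →
      ∀ (ι : Type) [Fintype ι] [DecidableEq ι] (f g : ι → Fin l), Function.Injective f →
      Function.Injective g → Deep c A (h + 1) (Finset.univ.image f) (Finset.univ.image g) →
      MLev 1 ((2 * D).factorial * s ^ (2 * D)) (4 * D ^ 2 + k + 2) (k * e) h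
        (A.submatrix f g).det := by
  classical
  intro h
  induction h with
  | zero =>
    intro c hcD A h1 h2 ι _ _ f g hf hg hd
    by_cases hdet : (A.submatrix f g).det = 0
    · rw [hdet]; exact mlev_zero 0
    -- the order is at most `2 c`
    have E := Fintype.equivFin ι
    set N := Fintype.card ι with hNdef
    have hdet' : (A.submatrix (f ∘ E.symm) (g ∘ E.symm)).det ≠ 0 := by
      have h3 : A.submatrix (f ∘ E.symm) (g ∘ E.symm) = (A.submatrix f g).submatrix E.symm E.symm :=
        rfl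
      rw [h3, Matrix.det_submatrix_equiv_self]
      exact hdet
    obtain ⟨I', J', a, b, hI, hJ, hc1, hc2, hz, hbl⟩ := hd
    have himf : Finset.univ.image (f ∘ E.symm) = Finset.univ.image f := by
      rw [← Finset.image_image, Finset.image_univ_equiv]
    have himg : Finset.univ.image (g ∘ E.symm) = Finset.univ.image g := by
      rw [← Finset.image_image, Finset.image_univ_equiv]
    obtain ⟨p, m, f₀, g₀, f₁, g₁, u, v, hf₀, hg₀, hN, hm, hfe, hge⟩ :=
      exists_minor (c := c) A (f ∘ E.symm) (g ∘ E.symm) (hf.comp E.symm.injective)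
        (hg.comp E.symm.injective) hdet' I' J' (by rw [himf]; exact hc1) (by rw [himg]; exact hc2)
    have hzero : ∀ i ∈ I', ∀ j ∈ J', A i j = 0 := by
      intro i hi j hj
      by_cases hab : a i = b j
      · rcases hbl (a i) with h3 | h3
        · have h4 : i ∈ I'.filter fun i' => a i' = a i := Finset.mem_filter.2 ⟨hi, rfl⟩
          rw [h3] at h4
          exact absurd h4 (Finset.notMem_empty _)
        · have h4 : j ∈ J'.filter fun j' => b j' = a i := Finset.mem_filter.2 ⟨hj, hab.symm⟩
          rw [h3] at h4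
          exact absurd h4 (Finset.notMem_empty _)
      · exact hz i hi j hj hab
    have hp : p = 0 := by
      rcases Nat.eq_zero_or_pos p with h3 | h3
      · exact h3
      · exact absurd (Matrix.det_eq_zero_of_row_eq_zero ⟨0, h3⟩ fun j =>
          hzero _ (hf₀ _) _ (hg₀ _)) hN
    have hNm : N ≤ 2 * D := by
      have h3 := Fintype.card_congr u
      rw [Fintype.card_fin, Fintype.card_sum, Fintype.card_fin, Fintype.card_fin, hp] at h3
      omega
    refine ⟨(support_det46 _ fun i j => (h1 _ _).1).trans ?_, fun x => ?_⟩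
    · exact Nat.mul_le_mul (Nat.factorial_le hNm) (Nat.pow_le_pow_right hs hNm)
    · exact degreeOf_minor46 A x (fun i j => (h1 i j).2 x) (h2 x) f g hg
  | succ h ih =>
    intro c hcD A h1 h2 ι _ _ f g hf hg hd
    by_cases hdet : (A.submatrix f g).det = 0
    · rw [hdet]; exact mlev_zero _
    have E := Fintype.equivFin ι
    set N := Fintype.card ι with hNdef
    have h3 : A.submatrix (f ∘ E.symm) (g ∘ E.symm) = (A.submatrix f g).submatrix E.symm E.symm :=
      rfl
    have hdetE : (A.submatrix (f ∘ E.symm) (g ∘ E.symm)).det = (A.submatrix f g).det := by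
      rw [h3, Matrix.det_submatrix_equiv_self]
    obtain ⟨I', J', a, b, hI, hJ, hc1, hc2, hz, hbl⟩ := hd
    have himf : Finset.univ.image (f ∘ E.symm) = Finset.univ.image f := by
      rw [← Finset.image_image, Finset.image_univ_equiv]
    have himg : Finset.univ.image (g ∘ E.symm) = Finset.univ.image g := by
      rw [← Finset.image_image, Finset.image_univ_equiv]
    obtain ⟨p, m, f₀, g₀, f₁, g₁, u, v, hf₀, hg₀, hN, hm, hfe, hge⟩ :=
      exists_minor (c := c) A (f ∘ E.symm) (g ∘ E.symm) (hf.comp E.symm.injective)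
        (hg.comp E.symm.injective) (by rw [hdetE]; exact hdet) I' J' (by rw [himf]; exact hc1)
        (by rw [himg]; exact hc2)
    -- a permutation in the nonsingular minor
    obtain ⟨π, hπ⟩ : ∃ π : Equiv.Perm (Fin p), ∀ i, A (f₀ (π i)) (g₀ i) ≠ 0 := by
      have h4 := hN
      rw [Matrix.det_apply] at h4
      obtain ⟨π, -, hπ⟩ := Finset.exists_ne_zero_of_sum_ne_zero h4
      refine ⟨π, fun i hi => hπ ?_⟩
      have h5 : ∏ i, (A.submatrix f₀ g₀) (π i) i = 0 :=
        Finset.prod_eq_zero (Finset.mem_univ i) hi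
      rw [h5, smul_zero]
    let f₂ : Fin p → Fin l := f₀ ∘ π
    let β : Fin p → ℕ := fun i => b (g₀ i)
    have haβ : ∀ i, a (f₂ i) = β i := by
      intro i
      by_contra hne
      exact hπ i (hz _ (hf₀ _) _ (hg₀ _) hne)
    have hβ : ∀ i j, β i ≠ β j → A (f₂ i) (g₀ j) = 0 := fun i j hij =>
      hz _ (hf₀ _) _ (hg₀ _) (by
        have := haβ i
        show a (f₂ i) ≠ b (g₀ j)
        rw [this]
        exact hij)
    have hN2 : (A.submatrix f₂ g₀).det ≠ 0 := by
      have h4 : A.submatrix f₂ g₀ = (A.submatrix f₀ g₀).submatrix π id := rfl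
      rw [h4, Matrix.det_permute]
      rcases Int.units_eq_one_or (Equiv.Perm.sign π) with h5 | h5
      · rw [h5]; simpa using hN
      · rw [h5]; simpa using hN
    let u' : Fin N ≃ Fin p ⊕ Fin m := u.trans (Equiv.sumCongr π.symm (Equiv.refl _))
    have hfe' : f ∘ E.symm = Sum.elim f₂ f₁ ∘ u' := by
      rw [hfe]
      funext i
      show Sum.elim f₀ f₁ (u i) = Sum.elim f₂ f₁ (Equiv.sumCongr π.symm (Equiv.refl _) (u i))
      rcases u i with x | x
      · simp [f₂]
      · simp
    have hinjf : Function.Injective (Sum.elim f₂ f₁) := by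
      have h4 : Sum.elim f₂ f₁ = (f ∘ E.symm) ∘ u'.symm := by
        rw [hfe', Function.comp_assoc, Equiv.self_comp_symm, Function.comp_id]
      rw [h4]
      exact (hf.comp E.symm.injective).comp u'.symm.injective
    have hinjg : Function.Injective (Sum.elim g₀ g₁) := by
      have h4 : Sum.elim g₀ g₁ = (g ∘ E.symm) ∘ v.symm := by
        rw [hge, Function.comp_assoc, Equiv.self_comp_symm, Function.comp_id]
      rw [h4]
      exact (hg.comp E.symm.injective).comp v.symm.injective
    have hf₂inj : Function.Injective f₂ := fun x y hxy =>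
      Sum.inl_injective (hinjf (a₁ := Sum.inl x) (a₂ := Sum.inl y) hxy)
    have hg₀inj : Function.Injective g₀ := fun x y hxy =>
      Sum.inl_injective (hinjg (a₁ := Sum.inl x) (a₂ := Sum.inl y) hxy)
    have hfd : ∀ t i, f₂ t ≠ f₁ i := fun t i hti =>
      Sum.inl_ne_inr (hinjf (a₁ := Sum.inl t) (a₂ := Sum.inr i) hti)
    have hgd : ∀ t j, g₀ t ≠ g₁ j := fun t j htj =>
      Sum.inl_ne_inr (hinjg (a₁ := Sum.inl t) (a₂ := Sum.inr j) htj)
    -- the blocks are in the level below
    have hnd : ∀ x ∈ Finset.univ.image β,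
        MLev 1 ((2 * D).factorial * s ^ (2 * D)) (4 * D ^ 2 + k + 2) (k * e) h
          (nd A f₂ g₀ β x) := by
      intro x _
      refine ih c (by omega) A h1 h2 {i // β i = x} (fun i => f₂ i) (fun i => g₀ i)
        (fun i j hij => Subtype.ext (hf₂inj hij)) (fun i j hij => Subtype.ext (hg₀inj hij)) ?_
      refine deep_mono le_rfl (fun _ _ h => h) ?_ ?_ (hbl x)
      · intro y hy
        obtain ⟨i, -, rfl⟩ := Finset.mem_image.1 hy
        exact Finset.mem_filter.2 ⟨hf₀ _, (haβ i).trans i.2⟩
      · intro y hy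
        obtain ⟨i, -, rfl⟩ := Finset.mem_image.1 hy
        exact Finset.mem_filter.2 ⟨hg₀ _, i.2⟩
    have hbd : ∀ i j : Fin m, ∀ x ∈ Finset.univ.image β,
        MLev 1 ((2 * D).factorial * s ^ (2 * D)) (4 * D ^ 2 + k + 2) (k * e) h
          (bd A f₂ g₀ β (f₁ i) (g₁ j) x) := by
      intro i j x _
      refine ih (c + 1) (by omega) (zr A (f₁ i) (g₁ j)) (fun r q => ?_) (fun y => ?_)
        ({i // β i = x} ⊕ Unit) (Sum.elim (fun t => f₂ t) (fun _ => f₁ i))
        (Sum.elim (fun t => g₀ t) (fun _ => g₁ j)) ?_ ?_ ?_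
      · rw [zr, Matrix.of_apply]
        split_ifs
        · exact ⟨by simp, fun x => by simp⟩
        · exact h1 r q
      · refine (Finset.card_le_card fun q hq => ?_).trans (h2 y)
        rw [Finset.mem_filter] at hq ⊢
        refine ⟨hq.1, fun h4 => hq.2 ?_⟩
        rw [zr, Matrix.of_apply]
        split_ifs
        · rw [degreeOf_zero]
        · exact h4
      · rintro (r | r) (q | q) hrq
        · exact congrArg Sum.inl (Subtype.ext (hf₂inj hrq))
        · exact absurd hrq (hfd _ _)
        · exact absurd hrq.symm (hfd _ _)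
        · rfl
      · rintro (r | r) (q | q) hrq
        · exact congrArg Sum.inl (Subtype.ext (hg₀inj hrq))
        · exact absurd hrq (hgd _ _)
        · exact absurd hrq.symm (hgd _ _)
        · rfl
      · refine deep_mono le_rfl (fun _ _ h => h) ?_ ?_
          (deep_insert (zr_zero A (f₁ i) (g₁ j)) (f₁ i) (g₁ j) (hbl x))
        · intro y hy
          obtain ⟨r | r, -, rfl⟩ := Finset.mem_image.1 hy
          · exact Finset.mem_insert_of_mem (Finset.mem_filter.2 ⟨hf₀ _, (haβ r).trans r.2⟩)
          · exact Finset.mem_insert_self _ _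
        · intro y hy
          obtain ⟨r | r, -, rfl⟩ := Finset.mem_image.1 hy
          · exact Finset.mem_insert_of_mem (Finset.mem_filter.2 ⟨hg₀ _, r.2⟩)
          · exact Finset.mem_insert_self _ _
    have hn0 : ∀ x ∈ Finset.univ.image β, nd A f₂ g₀ β x ≠ 0 := by
      have h4 := hN2
      rw [prod_nd A f₂ g₀ β hβ] at h4
      exact fun x hx => Finset.prod_ne_zero_iff.1 h4 x hx
    have hD1 : 1 ≤ D := by omega
    have hDD : D ≤ D ^ 2 := by nlinarith
    have hsS : s ≤ (2 * D).factorial * s ^ (2 * D) := by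
      calc s = 1 * s ^ 1 := by rw [pow_one, one_mul]
        _ ≤ (2 * D).factorial * s ^ (2 * D) :=
          Nat.mul_le_mul (Nat.factorial_pos _) (Nat.pow_le_pow_right hs (by omega))
    have hAij : ∀ i j : Fin l, MLev 1 ((2 * D).factorial * s ^ (2 * D)) (4 * D ^ 2 + k + 2)
        (k * e) h (A i j) := fun i j =>
      mlev_base (by omega) ((h1 i j).1.trans hsS)
        (fun x => ((h1 i j).2 x).trans (Nat.le_mul_of_pos_left e hk)) h
    have hmix : MLev 1 ((2 * D).factorial * s ^ (2 * D)) (4 * D ^ 2 + k + 2) (k * e) (h + 1)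
        (A.submatrix (Sum.elim f₂ f₁) (Sum.elim g₀ g₁)).det := by
      refine ⟨mixK_schur A f₂ g₀ β ?_ ?_ (by omega) f₁ g₁ hβ hN2 hfd hgd hnd fun i j => ?_,
        fun x => degreeOf_minor46 A x (fun i j => (h1 i j).2 x) (h2 x) _ _ hinjg⟩
      · have : m * m ≤ (2 * D) * (2 * D) := Nat.mul_le_mul (by omega) (by omega)
        nlinarith
      · omega
      · exact sc_locK A f₂ g₀ β (by omega) (by omega) hf₂inj hg₀inj (f₁ i) (g₁ j)
          (fun t => hfd t i) (fun t => hgd t j) h2 (hAij _ _) hn0 hnd (hbd i j)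
    have hfin : (A.submatrix f g).det =
        ((A.submatrix (Sum.elim f₂ f₁) (Sum.elim g₀ g₁)).submatrix u' v).det := by
      rw [← hdetE, hfe', hge]
      rfl
    rw [hfin]
    rcases det_sub_equiv (A.submatrix (Sum.elim f₂ f₁) (Sum.elim g₀ g₁)) u' v with h4 | h4
    · rw [h4]; exact hmix
    · rw [h4]; exact mlev_neg hmix

/-- Row TD. -/
theorem deep_mlev {F : Type*} [Field F] {n l c h s e k : ℕ} (hs : 1 ≤ s) (he : 1 ≤ e) (hk : 1 ≤ k)
    (A : Matrix (Fin l) (Fin l) (MvPolynomial (Fin n) F))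
    (h1 : ∀ i j, (A i j).support.card ≤ s ∧ ∀ x, (A i j).degreeOf x ≤ e)
    (h2 : ∀ x, (Finset.univ.filter fun p : Fin l × Fin l =>
      (A p.1 p.2).degreeOf x ≠ 0).card ≤ k)
    (h3 : Deep c A (h + 1) Finset.univ Finset.univ) :
    MLev 1 ((2 * (c + h)).factorial * s ^ (2 * (c + h))) (4 * (c + h) ^ 2 + k + 2) (k * e) h
      A.det := by
  have h4 := deep_main (D := c + h) hs he hk h c le_rfl A h1 h2 (Fin l) id id
    Function.injective_id Function.injective_id (by rwa [Finset.image_id])
  rwa [Matrix.submatrix_id_id] at h4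

end FR
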