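import Pool.Agent.Lib.MP_64d474_lc.FR.FI15
import Pool.Agent.Lib.MP_64d474_lc.FR.TD46

/-!
# Matrices of bounded depth, over one block
-/

set_option autoImplicit false

namespace FB

open MvPolynomial AK LS DF FR BK

theorem locK_mono {F : Type*} [Field F] {n r k e : ℕ} {P P' : MvPolynomial (Fin n) F → Prop}
    (hP : ∀ f, P f → P' f) {f : RF n F} (h : LocK r k e P f) : LocK r k e P' f := by
  obtain ⟨m, u, v, h1, h2, h3, h4⟩ := h
  exact ⟨m, u, v, fun a => ⟨(h1 a).1, LS.CL15.algF_mono le_rfl hP subset_rfl (h1 a).2⟩, h2, h3, h4⟩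

theorem mixK_mono {F : Type*} [Field F] {n r k e : ℕ} {P P' : MvPolynomial (Fin n) F → Prop}
    (hP : ∀ f, P f → P' f) {f : MvPolynomial (Fin n) F} (h : MixK r k e P f) :
    MixK r k e P' f := by
  obtain ⟨σ, Q, w, h1, h2, h3, h4, h5⟩ := h
  exact ⟨σ, Q, w, h1, fun j => locK_mono hP (h2 j), h3,
    LS.CL15.algF_mono le_rfl hP subset_rfl h4, h5⟩

theorem bb0_of_support {F : Type*} [Field F] {n s : ℕ} {f : MvPolynomial (Fin n) F}
    (h : f.support.card ≤ s) : BB0 (fun _ : Fin n => 0) 1 s f := by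
  classical
  refine ⟨fun c => ?_, fun b => (Finset.card_image_le).trans h⟩
  rcases Nat.eq_zero_or_pos c with h0 | h0
  · subst h0
    refine ⟨fun _ => 1, fun _ => f, fun _ => Subalgebra.one_mem _, fun _ => ?_, by simp⟩
    have : ({i : Fin n | 0 ≤ (fun _ : Fin n => 0) i}) = Set.univ := by
      ext i
      simp
    rw [this, supported_univ]
    exact Algebra.mem_top
  · refine ⟨fun _ => f, fun _ => 1, fun _ => ?_, fun _ => Subalgebra.one_mem _, by simp⟩
    have : ({i : Fin n | (fun _ : Fin n => 0) i < c}) = Set.univ := by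
      ext i
      simp [h0]
    rw [this, supported_univ]
    exact Algebra.mem_top

theorem gm_of_mlev {F : Type*} [Field F] {n r s k e : ℕ} (t : ℕ) :
    ∀ {f : MvPolynomial (Fin n) F}, MLev r s k e t f → GM (BB0 (fun _ : Fin n => 0) 1) r s k e t f := by
  induction t with
  | zero => exact fun h => ⟨bb0_of_support h.1, h.2⟩
  | succ t ih => exact fun h => ⟨mixK_mono (fun f hf => ih hf) h.1, h.2⟩

theorem deep_gm {F : Type*} [Field F] {n l c h s e k : ℕ} (hs : 1 ≤ s) (he : 1 ≤ e) (hk : 1 ≤ k)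
    (A : Matrix (Fin l) (Fin l) (MvPolynomial (Fin n) F))
    (h1 : ∀ i j, (A i j).support.card ≤ s ∧ ∀ x, (A i j).degreeOf x ≤ e)
    (h2 : ∀ x, (Finset.univ.filter fun p : Fin l × Fin l =>
      (A p.1 p.2).degreeOf x ≠ 0).card ≤ k)
    (h3 : Deep c A (h + 1) Finset.univ Finset.univ) :
    GM (BB0 (fun _ : Fin n => 0) 1) 1 ((2 * (c + h)).factorial * s ^ (2 * (c + h)))
      (4 * (c + h) ^ 2 + k + 2) (k * e) h A.det :=
  gm_of_mlev h (deep_mlev hs he hk A h1 h2 h3)

/-- Members of a class are mixed over it. -/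
theorem mixK_of_mem {F : Type*} [Field F] {n r k e : ℕ} {P : MvPolynomial (Fin n) F → Prop}
    (hk : 1 ≤ k) {f : MvPolynomial (Fin n) F} (h : P f) : MixK r k e P f := by
  classical
  refine ⟨fun _ => 0, C f, 1, one_ne_zero, fun _ => ?_, fun j => ?_, ?_, ?_⟩
  · exact ⟨0, fun a => a.elim0, fun a => a.elim0, fun a => a.elim0, fun J _ => by simp,
      fun _ a => a.elim0, by simp⟩
  · rw [degreeOf_C]
    exact Nat.zero_le _
  · refine ⟨1, fun _ => f, fun _ => ⟨{f}, fun p hp => ?_, by simp⟩, fun s _ => ?_, ?_⟩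
    · rw [Multiset.mem_singleton.1 hp]
      exact h
    · exact (Finset.card_le_univ s).trans (by simpa using hk)
    · rintro g (rfl | ⟨μ, rfl⟩)
      · exact Subalgebra.one_mem _
      · rw [coeff_C]
        split_ifs
        · exact Algebra.subset_adjoin ⟨0, rfl⟩
        · exact Subalgebra.zero_mem _
  · rw [eval₂_C, map_one, one_mul]

end FB
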