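import Pool.Agent.Lib.MP_64d474_lc.FR.U58
import Pool.Agent.Lib.MP_64d474_lc.DF.X14

/-!
# Row X for fractions: the differences of a sum of fractions
-/

set_option autoImplicit false

namespace FR

open MvPolynomial AK LS DF

namespace X95

variable {F : Type*} [Field F] {n : ℕ}

/-- Iterated differences in the directions of the axes. -/
noncomputable def DK : List (Fin n × F) → (RF n F →+ RF n F)
  | [] => AddMonoidHom.id _
  | x :: L => (DK L).comp ((tk (Pi.single x.1 x.2)).toAddMonoidHom - AddMonoidHom.id _)

theorem DK_nil (f : RF n F) : DK [] f = f := rfl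

theorem DK_cons (x : Fin n × F) (L : List (Fin n × F)) (f : RF n F) :
    DK (x :: L) f = DK L (tk (Pi.single x.1 x.2) f - f) := rfl

theorem DK_em (L : List (Fin n × F)) : ∀ g : MvPolynomial (Fin n) F,
    DK L (em g) = em (DF.X14.DD L g) := by
  induction L with
  | nil => intro g; rfl
  | cons x L ih =>
    intro g
    rw [DK_cons, tk_em, ← map_sub, ih, DF.X14.DD_cons]

theorem dfK_of_DK {K : ℕ} {P : MvPolynomial (Fin n) F → Prop} (r : ℕ) :
    ∀ f : RF n F, (∀ L : List (Fin n × F), L.length = r → AlgK K P {DK L f}) → DfK K P r f := by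
  induction r with
  | zero =>
    intro f h
    exact h [] rfl
  | succ r ih =>
    intro f h i a
    refine ih _ fun L hL => ?_
    exact h ((i, a) :: L) (by simp [hL])

/-- The iterated differences of one fraction. -/
theorem term {k N : ℕ} {P P' : MvPolynomial (Fin n) F → Prop}
    (hP : ∀ c : Fin n → F, (supp c).card ≤ N → ∀ p, P p → P' (tc c p))
    {u v : MvPolynomial (Fin n) F} (hg : AlgF k P {u, v}) (L : List (Fin n × F)) :
    ∀ c : Fin n → F, (supp c).card + L.length ≤ N →
      AlgK (2 ^ L.length * k) P' {DK L (em (tc c u) / em (tc c v))} := by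
  induction L with
  | nil =>
    intro c hc
    rw [List.length_nil, pow_zero, one_mul, DK_nil]
    have h1 := algK_closure (algK_of_algF (algF_map c (hP c (by simpa using hc)) hg))
    refine algK_mono le_rfl (fun _ h => h) ?_ h1
    rw [Set.singleton_subset_iff, SetLike.mem_coe]
    refine div_mem (Subfield.subset_closure (Or.inl ?_)) (Subfield.subset_closure (Or.inl ?_))
    · exact ⟨_, ⟨u, by simp, rfl⟩, rfl⟩
    · exact ⟨_, ⟨v, by simp, rfl⟩, rfl⟩
  | cons x L ih =>
    intro c hc
    rw [List.length_cons] at hc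
    have h1 := ih c (by omega)
    have h2 := ih (Pi.single x.1 x.2 + c) (by
      have h3 := DF.X14.supp_add_card (Pi.single x.1 x.2) c
      have h4 := DF.X14.supp_single_card x.1 x.2
      omega)
    have h3 := algK_closure (algK_union h2 h1)
    have h4 : 2 ^ (x :: L).length * k = 2 ^ L.length * k + 2 ^ L.length * k := by
      rw [List.length_cons, pow_succ]
      ring
    rw [h4]
    refine algK_mono le_rfl (fun _ h => h) ?_ h3
    have h5 : tk (Pi.single x.1 x.2) (em (tc c u) / em (tc c v)) =
        em (tc (Pi.single x.1 x.2 + c) u) / em (tc (Pi.single x.1 x.2 + c) v) := by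
      rw [map_div₀, tk_em, tk_em, tc_tc, tc_tc]
    rw [Set.singleton_subset_iff, SetLike.mem_coe, DK_cons, map_sub, h5]
    refine sub_mem ?_ ?_
    · exact Subfield.subset_closure (Or.inl (Or.inl rfl))
    · exact Subfield.subset_closure (Or.inl (Or.inr rfl))

theorem diff_zero (i : Fin n) (a : F) (u v : MvPolynomial (Fin n) F) (hu : u.degreeOf i = 0)
    (hv : v.degreeOf i = 0) :
    tk (Pi.single i a) (em u / em v) - em u / em v = 0 := by
  have hf : ∀ g : MvPolynomial (Fin n) F, g.degreeOf i = 0 → tc (Pi.single i a) g = g :=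
    fun g hg => sub_eq_zero.1 (DF.X14.diff_zero i a g hg)
  rw [map_div₀, tk_em, tk_em, hf u hu, hf v hv, sub_self]

theorem few {r k e : ℕ} {m : ℕ}
    {u v : Fin m → MvPolynomial (Fin n) F}
    (h2 : ∀ J : Finset (Fin n), J.card = r →
      ((Finset.univ : Finset (Fin m)).filter fun a =>
        ∀ i ∈ J, (u a).degreeOf i ≠ 0 ∨ (v a).degreeOf i ≠ 0).card ≤ k)
    (h3 : 1 < r → ∀ a, v a = 1 ∧ ∀ i, (u a).degreeOf i ≤ e) (L : List (Fin n × F))
    (hL : L.length = ord r e) (A : Finset (Fin m))
    (hA : ∀ a ∈ A, DK L (em (u a) / em (v a)) ≠ 0) : A.card ≤ k := by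
  classical
  by_cases hr : r = 0
  · refine (Finset.card_le_card ?_).trans (h2 ∅ (by rw [hr, Finset.card_empty]))
    intro a _
    rw [Finset.mem_filter]
    exact ⟨Finset.mem_univ _, fun i hi => absurd hi (Finset.notMem_empty i)⟩
  · rw [ord, if_neg hr] at hL
    by_cases hr1 : 1 < r
    · by_cases h0 : A = ∅
      · rw [h0, Finset.card_empty]
        exact Nat.zero_le _
      · obtain ⟨b, hb⟩ := Finset.nonempty_iff_ne_empty.2 h0
        have hD : ∀ a ∈ A, DF.X14.DD L (u a) ≠ 0 := by
          intro a ha h
          apply hA a ha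
          rw [(h3 hr1 a).1, map_one, div_one, DK_em, h, map_zero]
        have h5 := DF.X14.dirs hr L hL (u b) (hD b hb) (fun h6 => (h3 h6 b).2)
        obtain ⟨s, hs, hsr⟩ := Finset.exists_subset_card_eq h5
        refine (Finset.card_le_card ?_).trans (h2 s hsr)
        intro a ha
        rw [Finset.mem_filter]
        refine ⟨Finset.mem_univ _, fun i hi => Or.inl ?_⟩
        have h6 := DF.X14.count_le L (u a) (hD a ha) i
        have h7 : 0 < (L.map Prod.fst).count i := by
          rw [List.count_pos_iff]
          exact List.mem_toFinset.1 (hs hi)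
        omega
    · have hr2 : r = 1 := by omega
      subst hr2
      rw [Nat.sub_self, mul_zero, zero_add, List.length_eq_one_iff] at hL
      obtain ⟨x, rfl⟩ := hL
      refine (Finset.card_le_card ?_).trans (h2 {x.1} (Finset.card_singleton _))
      intro a ha
      rw [Finset.mem_filter]
      refine ⟨Finset.mem_univ _, fun i hi => ?_⟩
      rw [Finset.mem_singleton] at hi
      subst hi
      by_contra hne
      push Not at hne
      apply hA a ha
      rw [DK_cons, diff_zero x.1 x.2 _ _ hne.1 hne.2, map_zero]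

end X95

/-- Row X. -/
theorem df_of_locK {F : Type*} [Field F] {n r k e : ℕ} {P P' : MvPolynomial (Fin n) F → Prop}
    (hP : ∀ c : Fin n → F, (supp c).card ≤ ord r e → ∀ p, P p → P' (tc c p)) {f : RF n F}
    (h : LocK r k e P f) :
    DfK (2 ^ ord r e * k * (2 ^ ord r e * k)) P' (ord r e) f ∧ DenK k P f := by
  classical
  obtain ⟨m, u, v, h1, h2, h3, rfl⟩ := h
  constructor
  · refine X95.dfK_of_DK _ _ fun L hL => ?_
    rw [map_sum]
    set A : Finset (Fin m) := Finset.univ.filter fun a => X95.DK L (em (u a) / em (v a)) ≠ 0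
      with hA
    have hsum : ∑ a, X95.DK L (em (u a) / em (v a)) = ∑ a ∈ A, X95.DK L (em (u a) / em (v a)) := by
      symm
      refine Finset.sum_subset (Finset.subset_univ _) fun a _ ha => ?_
      by_contra hne
      exact ha (by rw [hA, Finset.mem_filter]; exact ⟨Finset.mem_univ _, hne⟩)
    have hAk : A.card ≤ k := by
      refine X95.few (fun J hJ => ?_) h3 L hL A fun a ha => ?_
      · have h5 := h2 J hJ
        refine le_trans (le_of_eq ?_) h5
        congr 1
      · rw [hA, Finset.mem_filter] at ha
        exact ha.2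
    rw [hsum]
    have hfam : ∀ a : A, AlgK (2 ^ ord r e * k) P' {X95.DK L (em (u a) / em (v a))} := by
      intro a
      have h5 := X95.term hP (h1 a).2 L 0 (by
        have h6 : (supp (0 : Fin n → F)) = ∅ := by
          refine Finset.eq_empty_of_forall_notMem fun i hi => ?_
          rw [supp, Finset.mem_filter] at hi
          exact hi.2 rfl
        rw [h6, Finset.card_empty, zero_add, hL])
      rwa [tc_zero, tc_zero, hL] at h5
    have hall := algK_closure (algK_iUnion hfam)
    have hcard : Fintype.card A * (2 ^ ord r e * k) ≤ 2 ^ ord r e * k * (2 ^ ord r e * k) := by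
      rw [Fintype.card_coe]
      refine Nat.mul_le_mul_right _ (hAk.trans ?_)
      exact Nat.le_mul_of_pos_left _ (by positivity)
    refine algK_mono hcard (fun _ h => h) ?_ hall
    rw [Set.singleton_subset_iff, SetLike.mem_coe]
    refine sum_mem fun a ha => ?_
    apply Subfield.subset_closure
    exact Or.inl (Set.mem_iUnion.2 ⟨⟨a, ha⟩, rfl⟩)
  · refine ⟨Finset.univ.val.map v, ∑ a, u a * ∏ b ∈ Finset.univ.erase a, v b, ?_, ?_⟩
    · intro p hp
      obtain ⟨a, -, rfl⟩ := Multiset.mem_map.1 hp
      refine ⟨(h1 a).1, ?_⟩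
      obtain ⟨m', T, hT1, hT2, hT3⟩ := (h1 a).2
      exact ⟨m', T, hT1, hT2, hT3 (Or.inr rfl)⟩
    · change _ = em _ / em (∏ a, v a)
      rw [map_sum, Finset.sum_div]
      refine Finset.sum_congr rfl fun a _ => ?_
      have hne : em (∏ b, v b) ≠ 0 := em_ne (Finset.prod_ne_zero_iff.2 fun b _ => (h1 b).1)
      rw [div_eq_div_iff (em_ne (h1 a).1) hne, ← map_mul, ← map_mul,
        ← Finset.mul_prod_erase Finset.univ v (Finset.mem_univ a)]
      congr 1
      ring

end FR
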