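import Pool.Agent.Lib.MP_64d474_lc.FR.FB15
import Pool.Agent.Lib.MP_64d474_lc.FR.X95

/-!
# Sums of fractions at every level, over blocks: induction on the level
-/

set_option autoImplicit false

namespace FB

open MvPolynomial AK LS DF FR BK

universe u

/-- The parameters (number of sums, degree, transcendence degree, individual degree). -/
def par (k e : ℕ) : ℕ → ℕ × ℕ × ℕ × ℕ
  | 0 => (k, k, k, e)
  | j + 1 => (((par k e j).2.2.2 + 1) * ((par k e j).2.2.2 + 1) * (par k e j).1,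
      2 * (par k e j).2.2.2 ^ 2 * ((par k e j).2.2.2 + 1) * (par k e j).2.1,
      ((par k e j).2.2.2 + 1) * ((par k e j).2.2.2 + 1) * (par k e j).2.2.1,
      2 * (par k e j).2.2.2 ^ 2 * ((par k e j).2.2.2 + 1) * (par k e j).2.2.2)

theorem one_le_par (k : ℕ) {e : ℕ} (he : 1 ≤ e) (j : ℕ) : 1 ≤ (par k e j).2.2.2 := by
  induction j with
  | zero => exact he
  | succ j ih =>
    show 0 < 2 * (par k e j).2.2.2 ^ 2 * ((par k e j).2.2.2 + 1) * (par k e j).2.2.2
    have : 0 < (par k e j).2.2.2 := ih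
    positivity

/-- The classes for the iteration. -/
def PC {F : Type*} [Field F] {n : ℕ} (B : ℕ → MvPolynomial (Fin n) F → Prop)
    (r s k e t j : ℕ) (b : MvPolynomial (Fin n) F) : Prop :=
  QK r (par k e j).1 (par k e j).2.1 (par k e j).2.2.1 k (GE B r ((e + 1) ^ j * s) k e t)
    (em b) ∧ ∀ i, b.degreeOf i ≤ (par k e j).2.2.2

theorem steps_PC {F : Type u} [Field F] [Infinite F] {n r s k e t : ℕ}
    {B : ℕ → MvPolynomial (Fin n) F → Prop} (hB : BTc B e) (he : 1 ≤ e) :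
    Steps (F := F) (n := n) (FB.PC B r s k e t) := by
  intro j i BB hBB
  obtain ⟨BB', h1, h2⟩ := step_gen (FB.one_le_par k he j) (Pi.single i (1 : F)) BB
    (fun b hb => (hBB b hb).1)
    (fun b hb => (sh_natDegree_degreeOf i b).trans ((hBB b hb).2.2 i))
  refine ⟨BB', fun b hb => ⟨(h1 b hb).1, ?_, ?_⟩, h2⟩
  · have h3 := FB.expr_qk hB i BB (fun b hb => (hBB b hb).2) b (h1 b hb).2
    have h4 : (e + 1) * ((e + 1) ^ j * s) = (e + 1) ^ (j + 1) * s := by ring
    rw [h4] at h3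
    exact h3
  · intro i'
    exact DH.expr_degreeOf i i' BB (fun b hb => (hBB b hb).2.2 i') b (h1 b hb).2

/-- Monotone at level 0. -/
def StMo : Prop := ∀ (F : Type u) [Field F] (n : ℕ) (β : Fin n → ℕ) (w : ℕ),
  BMo (F := F) (n := n) (BB0 β w)

theorem stMo : StMo.{u} := fun _ _ _ _ _ _ _ hs _ h => ⟨h.1, sp_mono hs h.2⟩

theorem hit_ind (t : ℕ) : ∀ r k e K : ℕ, 1 ≤ e → ∃ R c : ℕ, ∀ (F : Type u) [Field F] [CharZero F]
    (n l w s V S : ℕ) (β : Fin n → ℕ), (∀ i, β i < 2 ^ l) → 1 ≤ w → 1 ≤ s → (c * w) ^ c ≤ V →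
    (c * s) ^ c ≤ S → ∀ f : MvPolynomial (Fin n) F, f ≠ 0 →
    DH.Alg K (GE (BB0 β w) r s k e t) f → aeval (qX F β l S V R) f ≠ 0 := by
  induction t with
  | zero =>
    intro r k e K he
    obtain ⟨R, c, h⟩ := stZeroD.{u} K e he
    exact ⟨R, c, fun F _ _ n l w s V S β hβ hw hs hV hS f h0 hf =>
      h F n l w s V S β hβ hw hs hV hS f h0 hf⟩
  | succ t ih =>
    intro r k e K he
    have hq : ∀ j : ℕ, ∃ K' N' : ℕ, ∀ (F : Type u) [Field F] [CharZero F]
        (n s R S l V w : ℕ) (β : Fin n → ℕ),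
        (∀ f : MvPolynomial (Fin n) F, f ≠ 0 → DH.Alg K' (GE (BB0 β w) r ((e + 1) ^ N' * s) k e t) f →
          aeval (qX F β l S V R) f ≠ 0) →
        ∀ f : MvPolynomial (Fin n) F, f ≠ 0 →
          QK r (par k e j).1 (par k e j).2.1 (par k e j).2.2.1 k (GE (BB0 β w) r s k e t) (em f) →
          aeval (qX F β l S V (R + N')) f ≠ 0 := fun j => by
      obtain ⟨K', N', h⟩ := FB.hit_qk.{u} r (par k e j).1 (par k e j).2.1 (par k e j).2.2.1 k
      exact ⟨K', N', fun F _ _ n s R S l V w β ih f hf0 hf =>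
        FR.HQ15.hit_em _ (h F n r s k e t R S l V β (BB0 β w) (stTcB F n β w e) (stMo F n β w)
          ih (em f) (em_ne hf0) hf)⟩
    choose K' N' hQ using hq
    have hj : ∀ j : ℕ, ∃ R c : ℕ, ∀ (F : Type u) [Field F] [CharZero F]
        (n l w s V S : ℕ) (β : Fin n → ℕ), (∀ i, β i < 2 ^ l) → 1 ≤ w → 1 ≤ s → (c * w) ^ c ≤ V →
        (c * s) ^ c ≤ S → ∀ f : MvPolynomial (Fin n) F, f ≠ 0 →
        DH.Alg (K' j) (GE (BB0 β w) r s k e t) f → aeval (qX F β l S V R) f ≠ 0 :=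
      fun j => ih r k e _ he
    choose R c hRc using hj
    refine ⟨∑ j ∈ Finset.range (K + 1), (R j + N' j + j),
      1 + ∑ j ∈ Finset.range (K + 1), c j * (e + 1) ^ (N' j + j),
      fun F _ _ n l w s V S β hβ hw hs hV hS f h0 hf => ?_⟩
    obtain ⟨m, T, h1, h2, h3⟩ := hf
    obtain ⟨r', hr', I, hI, BB, hBB, hres⟩ := nonzero_gen (FB.PC (BB0 β w) r s k e t)
      (FB.steps_PC (stTcB F n β w e) he) T
      (fun j => by
        obtain ⟨M, hM, hT⟩ := h1 j
        refine ⟨M, fun p hp => ?_, hT⟩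
        have h4 := hM p hp
        refine ⟨?_, h4.2⟩
        have h5 := h4.1
        show QK r k k k k (GE (BB0 β w) r ((e + 1) ^ 0 * s) k e t) (em p)
        rwa [pow_zero, one_mul]) h2 f h3 h0
    have hmem : r' ∈ Finset.range (K + 1) := Finset.mem_range.2 (Nat.lt_succ_of_le hr')
    have hc : c r' * (e + 1) ^ (N' r' + r') ≤
        ∑ j ∈ Finset.range (K + 1), c j * (e + 1) ^ (N' j + j) :=
      Finset.single_le_sum (f := fun j => c j * (e + 1) ^ (N' j + j))
        (fun _ _ => Nat.zero_le _) hmem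
    have hR : R r' + N' r' + r' ≤ ∑ j ∈ Finset.range (K + 1), (R j + N' j + j) :=
      Finset.single_le_sum (f := fun j => R j + N' j + j) (fun _ _ => Nat.zero_le _) hmem
    refine qX_mono hR f ?_
    refine hit_of_res I hI.le BB (fun b hb => ?_) f hres
    refine hQ r' F n ((e + 1) ^ r' * s) (R r') S l V w β (fun g hg0 hg => ?_) b (hBB b hb).1
      (hBB b hb).2.1
    refine hRc r' F n l w ((e + 1) ^ N' r' * ((e + 1) ^ r' * s)) V S β hβ hw ?_ ?_ ?_ g hg0 hg
    · exact Nat.mul_pos (Nat.pow_pos (Nat.succ_pos e)) (Nat.mul_pos (Nat.pow_pos (Nat.succ_pos e)) hs)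
    · have hc' : c r' ≤ c r' * (e + 1) ^ (N' r' + r') :=
        Nat.le_mul_of_pos_right (c r') (Nat.pow_pos (Nat.succ_pos e))
      have h9 := DF.Ind15.pow_le (c := c r') (a := 1) hw (by omega) (by omega) hV
      rwa [one_mul] at h9
    · rw [← mul_assoc ((e + 1) ^ N' r'), ← pow_add]
      have hc' : c r' ≤ c r' * (e + 1) ^ (N' r' + r') :=
        Nat.le_mul_of_pos_right (c r') (Nat.pow_pos (Nat.succ_pos e))
      exact DF.Ind15.pow_le hs (by omega) (by omega) hS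

/-- The parameter of the class of differences. -/
def kap (r k e : ℕ) : ℕ := 2 ^ ord r e * k * (2 ^ ord r e * k) + k

theorem qk_of_mix {F : Type*} [Field F] {n r k e : ℕ} {P P' : MvPolynomial (Fin n) F → Prop}
    (hP : ∀ c : Fin n → F, (supp c).card ≤ ord r e → ∀ p, P p → P' (tc c p))
    {f : MvPolynomial (Fin n) F} (h : MixK r k e P f) :
    QK (ord r e) (kap r k e) (kap r k e) (kap r k e) (kap r k e) P' (em f) := by
  classical
  obtain ⟨σ, Q, w, hw, hσ, hQ, hA, hf⟩ := h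
  have hPP : ∀ p, P p → P' p := fun p hp => by
    have := hP 0 (by simp [supp]) p hp
    rwa [tc_zero] at this
  have hk : k ≤ kap r k e := Nat.le_add_left _ _
  refine ⟨k, σ, C (em w)⁻¹ * map em Q, hk, fun j => ⟨?_, ?_⟩, fun j => ?_, ?_, ?_⟩
  · exact dfK_mono (Nat.le_add_right _ _) (fun p hp => hp) (df_of_locK hP (hσ j)).1
  · exact denK_mono hk hPP (df_of_locK hP (hσ j)).2
  · refine (degreeOf_mul_le _ _ _).trans ?_
    rw [degreeOf_C, zero_add]
    have h1 : (map em Q).degreeOf j ≤ Q.degreeOf j := by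
      rw [degreeOf_le_iff]
      intro μ hμ
      exact monomial_le_degreeOf j (support_map_subset _ _ hμ)
    exact h1.trans ((hQ j).trans hk)
  · obtain ⟨m, T, h1, h2, h3⟩ := hA
    refine ⟨m, T, fun j => ?_, fun s hs => (h2 s hs).trans hk, ?_⟩
    · obtain ⟨M, hM, hT⟩ := h1 j
      exact ⟨M, fun p hp => hPP p (hM p hp), hT⟩
    · rintro g ⟨μ, rfl⟩
      rw [coeff_C_mul, coeff_map]
      refine ⟨coeff μ Q, h3 (Set.mem_insert_of_mem _ ⟨μ, rfl⟩), w, h3 (Set.mem_insert _ _), hw, ?_⟩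
      rw [div_eq_mul_inv, mul_comm]
  · rw [map_mul, eval_C, eval_map, ← hf, ← mul_assoc, inv_mul_cancel₀ (em_ne hw), one_mul]

theorem ge_of_gm {F : Type*} [Field F] {n r s k e : ℕ}
    {B : ℕ → MvPolynomial (Fin n) F → Prop} (hB : BTc B e) (t : ℕ) :
    ∀ {f : MvPolynomial (Fin n) F}, GM B r s k e t f →
      GE B (ord r e) ((e + 1) ^ (ord r e * t) * s) (kap r k e) e t f := by
  induction t with
  | zero =>
    intro f h
    rw [mul_zero, pow_zero, one_mul]
    exact h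
  | succ t ih =>
    intro f h
    refine ⟨qk_of_mix (fun c hc p hp => ?_) h.1, h.2⟩
    have h1 := ge_tc hB (ord r e) c hc (ih hp)
    rwa [← mul_assoc, ← pow_add, show ord r e + ord r e * t = ord r e * (t + 1) by ring] at h1

/-- All levels over blocks, sums of fractions with any `r` variables in few of them. -/
theorem hit_all (t : ℕ) : ∀ r k e : ℕ, 1 ≤ e → ∃ R c : ℕ, ∀ (F : Type u) [Field F] [CharZero F]
    (n l w s V S : ℕ) (β : Fin n → ℕ), (∀ i, β i < 2 ^ l) → 1 ≤ w → 1 ≤ s → (c * w) ^ c ≤ V →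
    (c * s) ^ c ≤ S → ∀ f : MvPolynomial (Fin n) F, f ≠ 0 →
    MixK r k e (GM (BB0 β w) r s k e t) f → aeval (qX F β l S V R) f ≠ 0 := by
  intro r k e he
  obtain ⟨K', N', hQ⟩ := FB.hit_qk.{u} (ord r e) (kap r k e) (kap r k e) (kap r k e) (kap r k e)
  obtain ⟨R, c, h⟩ := FB.hit_ind.{u} t (ord r e) (kap r k e) e K' he
  refine ⟨R + N', 1 + c * (e + 1) ^ (N' + ord r e * (t + 1)),
    fun F _ _ n l w s V S β hβ hw hs hV hS f h0 hf => ?_⟩
  have hc' : c ≤ c * (e + 1) ^ (N' + ord r e * (t + 1)) :=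
    Nat.le_mul_of_pos_right c (Nat.pow_pos (Nat.succ_pos e))
  refine FR.HQ15.hit_em _ (hQ F n (ord r e) ((e + 1) ^ (ord r e * (t + 1)) * s) (kap r k e) e t R S
    l V β (BB0 β w) (stTcB F n β w e) (stMo F n β w)
    (fun g hg0 hg => h F n l w ((e + 1) ^ N' * ((e + 1) ^ (ord r e * (t + 1)) * s)) V S β hβ hw
      ?_ ?_ ?_ g hg0 hg) (em f) (em_ne h0) ?_)
  · exact Nat.mul_pos (Nat.pow_pos (Nat.succ_pos e)) (Nat.mul_pos (Nat.pow_pos (Nat.succ_pos e)) hs)
  · have h9 := DF.Ind15.pow_le (c := c) (a := 1) hw (by omega) (by omega) hV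
    rwa [one_mul] at h9
  · rw [← mul_assoc ((e + 1) ^ N'), ← pow_add]
    exact DF.Ind15.pow_le hs (by omega) (by omega) hS
  · refine qk_of_mix (fun c hc p hp => ?_) hf
    have h1 := ge_tc (stTcB F n β w e) (ord r e) c hc (ge_of_gm (stTcB F n β w e) t hp)
    rwa [← mul_assoc, ← pow_add, show ord r e + ord r e * t = ord r e * (t + 1) by ring] at h1

end FB
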