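import Pool.Agent.Lib.MP_64d474_lc.FR.FD15

/-!
# The sparse case: one block
-/

set_option autoImplicit false

namespace FB

open MvPolynomial AK LS DF FR BK

universe u

/-- All levels over sparse polynomials. -/
theorem hit_sparse (t : ℕ) : ∀ r k e : ℕ, 1 ≤ e → ∃ R c : ℕ, ∀ (F : Type u) [Field F]
    [CharZero F] (n s S : ℕ), 1 ≤ s → (c * s) ^ c ≤ S → ∀ f : MvPolynomial (Fin n) F, f ≠ 0 →
    MixK r k e (MLev r s k e t) f → aeval (DH.B.bX F n S R) f ≠ 0 := by
  intro r k e he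
  obtain ⟨R, c, h⟩ := hit_all.{u} t r k e he
  refine ⟨R, c, fun F _ _ n s S hs hS f h0 hf => ?_⟩
  have h1 := h F n 0 1 s ((c * 1) ^ c) S (fun _ => 0) (fun _ => by norm_num) le_rfl hs le_rfl hS f
    h0 (mixK_mono (fun g hg => gm_of_mlev t hg) hf)
  exact h1

end FB
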