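import Pool.Agent.Lib.MP_64d474_lc.FR.FS15

/-!
# One class: mixed polynomials and determinants of matrices of bounded depth
-/

set_option autoImplicit false

namespace FB

open MvPolynomial AK LS DF FR BK

universe u

theorem aeval_ne {F : Type*} [Field F] {σ τ : Type*} (φ : MvPolynomial σ F →ₐ[F] MvPolynomial τ F)
    (M : Multiset (MvPolynomial σ F)) (hM : ∀ f ∈ M, φ f ≠ 0) {g : MvPolynomial σ F}
    (hg : g ∣ M.prod) : φ g ≠ 0 := by
  obtain ⟨v, hv⟩ := hg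
  intro h0
  have h1 : φ M.prod = 0 := by rw [hv, map_mul, h0, zero_mul]
  rw [map_multiset_prod, Multiset.prod_eq_zero_iff] at h1
  obtain ⟨f, hf, hf0⟩ := Multiset.mem_map.1 h1
  exact hM f hf hf0

/-- The class: mixed over level `t`, or the determinant of a matrix of depth `t + 1` with simple
entries, each variable in at most `k` of them. -/
def Cl {F : Type*} [Field F] {n : ℕ} (s k e t : ℕ) (f : MvPolynomial (Fin n) F) : Prop :=
  MixK 1 k e (MLev 1 s k e t) f ∨ ∃ (d : ℕ) (B : Matrix (Fin d) (Fin d) (MvPolynomial (Fin n) F)),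
    (∀ i j, (B i j).support.card ≤ s ∧ ∀ x, (B i j).degreeOf x ≤ e) ∧
    (∀ x, (Finset.univ.filter fun p : Fin d × Fin d =>
      (B p.1 p.2).degreeOf x ≠ 0).card ≤ k) ∧
    Deep k B (t + 1) Finset.univ Finset.univ ∧ f = B.det

theorem hit_cl (t : ℕ) : ∀ k e : ℕ, 1 ≤ e → ∃ R c : ℕ, ∀ (F : Type u) [Field F]
    [CharZero F] (n s S : ℕ), 1 ≤ s → (c * s) ^ c ≤ S → ∀ f : MvPolynomial (Fin n) F, f ≠ 0 →
    Cl s k e t f → aeval (DH.B.bX F n S R) f ≠ 0 := by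
  intro k e he
  obtain ⟨R₁, c₁, h₁⟩ := hit_sparse.{u} t 1 k e he
  obtain ⟨R₂, c₂, h₂⟩ := hit_sparse.{u} t 1 (4 * (k + t) ^ 2 + (k + 1) + 2) ((k + 1) * e)
    (Nat.mul_pos (Nat.succ_pos k) he)
  obtain ⟨a, ha⟩ : ∃ a, a = (2 * (k + t)).factorial := ⟨_, rfl⟩
  obtain ⟨b, hb⟩ : ∃ b, b = 2 * (k + t) := ⟨_, rfl⟩
  have hC : ∃ C, C = 1 + c₁ + c₂ * a + (b + 1) * c₂ := ⟨_, rfl⟩
  obtain ⟨C, hC⟩ := hC
  refine ⟨R₁ + R₂, C, fun F _ _ n s S hs hS f h0 hf => ?_⟩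
  have hCs : 0 < C * s := Nat.mul_pos (by omega) hs
  rcases hf with hf | ⟨d, B, hB1, hB2, hB3, rfl⟩
  · refine LS.Ind15.bX_mono (Nat.le_add_right _ _) f (h₁ F n s S hs (le_trans ?_ hS) f h0 hf)
    calc (c₁ * s) ^ c₁ ≤ (C * s) ^ c₁ := Nat.pow_le_pow_left (Nat.mul_le_mul_right s (by omega)) _
      _ ≤ (C * s) ^ C := Nat.pow_le_pow_right hCs (by omega)
  · have h3 := deep_mlev (k := k + 1) hs he (Nat.succ_pos k) B hB1
      (fun x => (hB2 x).trans (Nat.le_succ k)) hB3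
    rw [← ha, ← hb] at h3
    have ha0 : 0 < a := ha ▸ Nat.factorial_pos _
    refine LS.Ind15.bX_mono (Nat.le_add_left _ _) B.det (h₂ F n (a * s ^ b) S
      (Nat.mul_pos ha0 (Nat.pow_pos hs)) (le_trans ?_ hS) B.det h0
      (mixK_of_mem (by omega) h3))
    have h4 : c₂ * (a * s ^ b) ≤ (C * s) ^ (b + 1) := by
      calc c₂ * (a * s ^ b) = (c₂ * a) * s ^ b := by ring
        _ ≤ C * s ^ b := Nat.mul_le_mul_right _ (by omega)
        _ ≤ (C * s) * (C * s) ^ b := Nat.mul_le_mul (Nat.le_mul_of_pos_right _ hs)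
            (Nat.pow_le_pow_left (Nat.le_mul_of_pos_left _ (by omega)) _)
        _ = (C * s) ^ (b + 1) := by rw [pow_succ]; ring
    calc (c₂ * (a * s ^ b)) ^ c₂ ≤ ((C * s) ^ (b + 1)) ^ c₂ := Nat.pow_le_pow_left h4 _
      _ = (C * s) ^ ((b + 1) * c₂) := by rw [pow_mul]
      _ ≤ (C * s) ^ C := Nat.pow_le_pow_right hCs (by omega)

/-- Divisors of products of members of the class. -/
theorem hit_div (t : ℕ) : ∀ k e : ℕ, 1 ≤ e → ∃ R c : ℕ, ∀ (F : Type u) [Field F]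
    [CharZero F] (n s S : ℕ), 1 ≤ s → (c * s) ^ c ≤ S → ∀ M : Multiset (MvPolynomial (Fin n) F),
    (∀ f ∈ M, f ≠ 0 ∧ Cl s k e t f) → ∀ g : MvPolynomial (Fin n) F, g ∣ M.prod →
    aeval (DH.B.bX F n S R) g ≠ 0 := by
  intro k e he
  obtain ⟨R, c, h⟩ := hit_cl.{u} t k e he
  exact ⟨R, c, fun F _ _ n s S hs hS M hM g hg =>
    aeval_ne _ M (fun f hf => h F n s S hs hS f (hM f hf).1 (hM f hf).2) hg⟩

end FB
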