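import Pool.Agent.Lib.MP_64d474_lc.FR.FT15
import Pool.Agent.Lib.MP_64d474_lc.FR.CDefs15

/-!
# Hitting the class closed under mixed polynomials and determinants of bounded depth
-/

set_option autoImplicit false

namespace FB

open MvPolynomial AK LS DF FR BK

universe u

/-- The statement of the containment. -/
def StMemMix : Prop := ∀ t k e : ℕ, 1 ≤ e → ∃ T K E c : ℕ, 1 ≤ E ∧
  ∀ (F : Type u) [Field F] (n s : ℕ) (f : MvPolynomial (Fin n) F), 1 ≤ s →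
    MemK k e (CLev s k e t) f → MixK 1 K E (MLev 1 ((c * s) ^ c) K E T) f

theorem hit_clev (hM : StMemMix.{u}) (t : ℕ) : ∀ k e : ℕ, 1 ≤ e → ∃ R c : ℕ,
    ∀ (F : Type u) [Field F] [CharZero F] (n s S : ℕ), 1 ≤ s → (c * s) ^ c ≤ S →
    ∀ f : MvPolynomial (Fin n) F, f ≠ 0 → MemK k e (CLev s k e t) f →
      aeval (DH.B.bX F n S R) f ≠ 0 := by
  intro k e he
  obtain ⟨T, K, E, c₁, hE, h₁⟩ := hM t k e he
  obtain ⟨R, c₂, h₂⟩ := hit_sparse.{u} T 1 K E hE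
  obtain ⟨C, hC⟩ : ∃ C, C = 1 + c₁ + c₂ + (c₁ + 1) * c₂ := ⟨_, rfl⟩
  refine ⟨R, C, fun F _ _ n s S hs hS f h0 hf => ?_⟩
  have hCs : 0 < C * s := Nat.mul_pos (by omega) hs
  have hs' : 1 ≤ (c₁ * s) ^ c₁ := by
    rcases Nat.eq_zero_or_pos c₁ with h | h
    · rw [h, pow_zero]
    · exact Nat.one_le_pow _ _ (Nat.mul_pos h hs)
  refine h₂ F n ((c₁ * s) ^ c₁) S hs' (le_trans ?_ hS) f h0 (h₁ F n s f hs hf)
  have h4 : c₂ * (c₁ * s) ^ c₁ ≤ (C * s) ^ (c₁ + 1) := by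
    rw [pow_succ, mul_comm]
    exact Nat.mul_le_mul (Nat.pow_le_pow_left (Nat.mul_le_mul_right s (by omega)) _)
      (le_trans (by omega : c₂ ≤ C) (Nat.le_mul_of_pos_right _ hs))
  calc (c₂ * (c₁ * s) ^ c₁) ^ c₂ ≤ ((C * s) ^ (c₁ + 1)) ^ c₂ := Nat.pow_le_pow_left h4 _
    _ = (C * s) ^ ((c₁ + 1) * c₂) := by rw [pow_mul]
    _ ≤ (C * s) ^ C := Nat.pow_le_pow_right hCs (by omega)

/-- Divisors of products. -/
theorem hit_clev_div (hM : StMemMix.{u}) (t : ℕ) : ∀ k e : ℕ, 1 ≤ e → ∃ R c : ℕ,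
    ∀ (F : Type u) [Field F] [CharZero F] (n s S : ℕ), 1 ≤ s → (c * s) ^ c ≤ S →
    ∀ M : Multiset (MvPolynomial (Fin n) F), (∀ f ∈ M, f ≠ 0 ∧ MemK k e (CLev s k e t) f) →
    ∀ g : MvPolynomial (Fin n) F, g ∣ M.prod → aeval (DH.B.bX F n S R) g ≠ 0 := by
  intro k e he
  obtain ⟨R, c, h⟩ := hit_clev hM t k e he
  exact ⟨R, c, fun F _ _ n s S hs hS M hM' g hg =>
    aeval_ne _ M (fun f hf => h F n s S hs hS f (hM' f hf).1 (hM' f hf).2) hg⟩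

end FB
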