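import Pool.Agent.Lib.MP_64d474_lc.FR.FV15

/-!
# The containment from the statement on matrices with entries of level `t`
-/

set_option autoImplicit false

namespace FB

open MvPolynomial AK LS DF FR BK

universe u

/-- Matrices of bounded depth with entries of level `t`. -/
def StTE : Prop := ∀ (F : Type u) [Field F] (n l c h s e k t : ℕ), 1 ≤ s → 1 ≤ e → 1 ≤ k →
  ∀ A : Matrix (Fin l) (Fin l) (MvPolynomial (Fin n) F), (∀ i j, MLev 1 s k e t (A i j)) →
    (∀ x, (Finset.univ.filter fun p : Fin l × Fin l =>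
      (A p.1 p.2).degreeOf x ≠ 0).card ≤ k) →
    Deep c A (h + 1) Finset.univ Finset.univ →
    MLev 1 ((2 * (c + h)).factorial * s ^ (2 * (c + h))) (4 * (c + h) ^ 2 * k + k + 2)
      ((2 * (c + h) + k) * e) (t + h) A.det

theorem locK_mono2 {F : Type*} [Field F] {n k k' e e' : ℕ}
    {P P' : MvPolynomial (Fin n) F → Prop} (hk : k ≤ k')
    (hP : ∀ f, P f → P' f) {f : RF n F} (h : LocK 1 k e P f) : LocK 1 k' e' P' f := by
  obtain ⟨m, u, v, h1, h2, h3, h4⟩ := h
  exact ⟨m, u, v, fun a => ⟨(h1 a).1, LS.CL15.algF_mono hk hP subset_rfl (h1 a).2⟩,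
    fun J hJ => (h2 J hJ).trans hk, fun h => absurd h (lt_irrefl 1), h4⟩

theorem locK_zero {F : Type*} [Field F] {n r k e : ℕ} {P : MvPolynomial (Fin n) F → Prop} :
    LocK r k e P (0 : RF n F) :=
  ⟨0, fun a => a.elim0, fun a => a.elim0, fun a => a.elim0, fun J _ => by simp,
    fun _ a => a.elim0, by simp⟩

theorem mixK_mono2 {F : Type*} [Field F] {n k k' e e' : ℕ}
    {P P' : MvPolynomial (Fin n) F → Prop} (hk : k ≤ k')
    (hP : ∀ f, P f → P' f) {f : MvPolynomial (Fin n) F} (h : MixK 1 k e P f) :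
    MixK 1 k' e' P' f := by
  classical
  obtain ⟨σ, Q, w, h1, h2, h3, h4, h5⟩ := h
  refine ⟨fun j => if hj : (j : ℕ) < k then σ ⟨j, hj⟩ else 0, rename (Fin.castLE hk) Q, w, h1,
    fun j => ?_, fun j => ?_, ?_, ?_⟩
  · show LocK 1 k' e' P' (if hj : (j : ℕ) < k then σ ⟨j, hj⟩ else 0)
    split_ifs with hj
    · exact locK_mono2 hk hP (h2 _)
    · exact locK_zero
  · rw [degreeOf_le_iff]
    intro μ hμ
    rw [support_rename_of_injective (Fin.castLE_injective hk), Finset.mem_image] at hμ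
    obtain ⟨ν, hν, rfl⟩ := hμ
    by_cases hj : ∃ i : Fin k, Fin.castLE hk i = j
    · obtain ⟨i, rfl⟩ := hj
      rw [Finsupp.mapDomain_apply (Fin.castLE_injective hk)]
      exact ((monomial_le_degreeOf i hν).trans (h3 i)).trans hk
    · rw [Finsupp.mapDomain_of_notMem_range]
      · exact Nat.zero_le _
      · rintro ⟨i, hi⟩
        exact hj ⟨i, hi⟩
  · obtain ⟨m, T, g1, g2, g3⟩ := h4
    refine ⟨m, T, fun j => ?_, fun s hs => (g2 s hs).trans hk, ?_⟩
    · obtain ⟨M, hM, hT⟩ := g1 j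
      exact ⟨M, fun p hp => hP p (hM p hp), hT⟩
    rintro g (rfl | ⟨μ, rfl⟩)
    · exact g3 (Set.mem_insert _ _)
    by_cases hμ : ∃ ν : Fin k →₀ ℕ, ν.mapDomain (Fin.castLE hk) = μ
    · obtain ⟨ν, rfl⟩ := hμ
      rw [coeff_rename_mapDomain _ (Fin.castLE_injective hk)]
      exact g3 (Set.mem_insert_of_mem _ ⟨ν, rfl⟩)
    · rw [coeff_rename_eq_zero]
      · exact Subalgebra.zero_mem _
      · intro ν hν
        exact absurd ⟨ν, hν⟩ hμ
  · rw [h5, eval₂_rename]
    congr 1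
    funext j
    simp

theorem mlev_mono {F : Type*} [Field F] {n s s' k k' e e' : ℕ} (hs : s ≤ s') (hk : k ≤ k')
    (he : e ≤ e') (t : ℕ) : ∀ {f : MvPolynomial (Fin n) F}, MLev 1 s k e t f →
      MLev 1 s' k' e' t f := by
  induction t with
  | zero => exact fun h => ⟨h.1.trans hs, fun i => (h.2 i).trans he⟩
  | succ t ih => exact fun h => ⟨mixK_mono2 hk (fun f hf => ih hf) h.1, fun i => (h.2 i).trans he⟩

theorem mlev_lift {F : Type*} [Field F] {n s k e : ℕ} (hk : 1 ≤ k) (t a : ℕ) :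
    ∀ {f : MvPolynomial (Fin n) F}, MLev 1 s k e t f → MLev 1 s k e (t + a) f := by
  induction a with
  | zero => exact fun h => h
  | succ a ih =>
    intro f h
    have h1 := ih h
    refine ⟨mixK_of_mem hk h1, ?_⟩
    cases h2 : t + a with
    | zero => rw [h2] at h1; exact h1.2
    | succ b => rw [h2] at h1; exact h1.2

theorem mixK_one {F : Type*} [Field F] {n r k e : ℕ} {P : MvPolynomial (Fin n) F → Prop} :
    MixK r k e P (1 : MvPolynomial (Fin n) F) := by
  classical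
  refine ⟨fun _ => 0, 1, 1, one_ne_zero, fun _ => locK_zero, fun j => ?_, ?_, ?_⟩
  · rw [← C_1, degreeOf_C]
    exact Nat.zero_le _
  · refine ⟨0, fun j => j.elim0, fun j => j.elim0, fun s _ => ?_, ?_⟩
    · rw [Finset.eq_empty_of_isEmpty s]
      simp
    · rintro g (rfl | ⟨μ, rfl⟩)
      · exact Subalgebra.one_mem _
      · rw [coeff_one]
        split_ifs
        · exact Subalgebra.one_mem _
        · exact Subalgebra.zero_mem _
  · rw [map_one, one_mul, eval₂_one]

/-- One step. -/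
theorem mem_step (hTE : StTE.{u}) {F : Type u} [Field F] {n s' k e K E T : ℕ} (hs' : 1 ≤ s')
    (hE : 1 ≤ E) (hK : 1 ≤ K) (hk : k ≤ K)
    {P : MvPolynomial (Fin n) F → Prop} (hP : ∀ f, P f → MLev 1 s' K E T f)
    {f : MvPolynomial (Fin n) F} (hf : MemK k e P f) :
    MixK 1 (4 * (2 * k + 1) ^ 2 * K + K + 2) ((2 * (2 * k + 1) + K) * E)
      (MLev 1 ((2 * (2 * k + 1)).factorial * s' ^ (2 * (2 * k + 1)))
        (4 * (2 * k + 1) ^ 2 * K + K + 2) ((2 * (2 * k + 1) + K) * E) (T + k)) f := by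
  have hfac : 1 ≤ (2 * (2 * k + 1)).factorial := Nat.factorial_pos _
  have hEE : E ≤ (2 * (2 * k + 1) + K) * E := Nat.le_mul_of_pos_left _ (by omega)
  have hKK : K ≤ 4 * (2 * k + 1) ^ 2 * K + K + 2 := by omega
  have hs2 : s' ≤ (2 * (2 * k + 1)).factorial * s' ^ (2 * (2 * k + 1)) := by
    calc s' = s' ^ 1 := (pow_one _).symm
      _ ≤ s' ^ (2 * (2 * k + 1)) := Nat.pow_le_pow_right hs' (by omega)
      _ ≤ _ := Nat.le_mul_of_pos_left _ (Nat.factorial_pos _)
  rcases hf with hf | ⟨l, B, h1, h2, h3, rfl⟩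
  · refine mixK_mono2 (hk.trans hKK) (fun g hg => ?_) hf
    exact mlev_lift (by omega) T k (mlev_mono hs2 hKK hEE T (hP g hg))
  · rcases Nat.eq_zero_or_pos k with h0 | h0
    · subst h0
      have hl : l = 0 := by
        have h4 : (Finset.univ : Finset (Fin l)) = ∅ := by
          rcases h3 with h | h <;> exact h
        have h5 := congrArg Finset.card h4
        simpa using h5
      subst hl
      rw [Matrix.det_isEmpty]
      exact mixK_one
    · obtain ⟨h, rfl⟩ : ∃ h, k = h + 1 := ⟨k - 1, by omega⟩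
      have h4 := hTE F n l (h + 1) h s' E K T hs' hE hK B (fun i j => hP _ (h1 i j))
        (fun x => (h2 x).trans hk) h3
      refine mixK_of_mem (by omega) ?_
      have h5 := mlev_lift (by omega) _ 1 h4
      rw [show T + h + 1 = T + (h + 1) by ring] at h5
      refine mlev_mono ?_ ?_ ?_ _ h5
      · refine Nat.mul_le_mul (Nat.factorial_le (by omega)) (Nat.pow_le_pow_right hs' (by omega))
      · have : (h + 1 + h) ^ 2 ≤ (2 * (h + 1) + 1) ^ 2 := Nat.pow_le_pow_left (by omega) 2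
        have := Nat.mul_le_mul_right K (Nat.mul_le_mul_left 4 this)
        omega
      · exact Nat.mul_le_mul_right _ (by omega)

/-- The size of the parameters. -/
theorem size_step {c a b s : ℕ} (hs : 1 ≤ s) :
    a * ((c * s) ^ c) ^ b ≤ ((1 + a + c + c * b) * s) ^ (1 + a + c + c * b) := by
  set C := 1 + a + c + c * b with hC
  have hCs : 0 < C * s := Nat.mul_pos (by omega) hs
  calc a * ((c * s) ^ c) ^ b = a * (c * s) ^ (c * b) := by rw [← pow_mul]
    _ ≤ (C * s) * (C * s) ^ (c * b) := Nat.mul_le_mul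
        (le_trans (by omega : a ≤ C) (Nat.le_mul_of_pos_right _ hs))
        (Nat.pow_le_pow_left (Nat.mul_le_mul_right s (by omega)) _)
    _ = (C * s) ^ (c * b + 1) := by rw [pow_succ]; ring
    _ ≤ (C * s) ^ C := Nat.pow_le_pow_right hCs (by omega)

theorem clev_mlev (hTE : StTE.{u}) (t k e : ℕ) (he : 1 ≤ e) : ∃ T K E c : ℕ, 1 ≤ E ∧ 1 ≤ K ∧
    k ≤ K ∧ e ≤ E ∧ 1 ≤ c ∧ ∀ (F : Type u) [Field F] (n s : ℕ) (f : MvPolynomial (Fin n) F),
      1 ≤ s → CLev s k e t f → MLev 1 ((c * s) ^ c) K E T f := by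
  induction t with
  | zero =>
    refine ⟨0, k + 1, e, 1, he, by omega, by omega, le_rfl, le_rfl, fun F _ n s f hs h => ?_⟩
    rw [one_mul, pow_one]
    exact h
  | succ t ih =>
    obtain ⟨T, K, E, c, hE, hK, hk, hee, hc, h⟩ := ih
    refine ⟨T + k + 1, 4 * (2 * k + 1) ^ 2 * K + K + 2, (2 * (2 * k + 1) + K) * E,
      1 + (2 * (2 * k + 1)).factorial + c + c * (2 * (2 * k + 1)), Nat.mul_pos (by omega) hE,
      by omega, by omega, hee.trans (Nat.le_mul_of_pos_left _ (by omega)), by omega,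
      fun F _ n s f hs hf => ?_⟩
    have hs' : 1 ≤ (c * s) ^ c := Nat.one_le_pow _ _ (Nat.mul_pos hc hs)
    refine mlev_mono (size_step (a := (2 * (2 * k + 1)).factorial) (b := 2 * (2 * k + 1)) hs)
      le_rfl le_rfl _ (?_ : MLev 1 _ _ _ (T + k + 1) f)
    exact ⟨mem_step hTE hs' hE hK hk (fun g hg => h F n s g hs hg) hf.1,
      fun i => ((hf.2 i).trans hee).trans (Nat.le_mul_of_pos_left _ (by omega))⟩

theorem stMemMix (hTE : StTE.{u}) : StMemMix.{u} := by
  intro t k e he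
  obtain ⟨T, K, E, c, hE, hK, hk, hee, hc, h⟩ := clev_mlev hTE t k e he
  refine ⟨T + k, 4 * (2 * k + 1) ^ 2 * K + K + 2, (2 * (2 * k + 1) + K) * E,
    1 + (2 * (2 * k + 1)).factorial + c + c * (2 * (2 * k + 1)), Nat.mul_pos (by omega) hE,
    fun F _ n s f hs hf => ?_⟩
  have hs' : 1 ≤ (c * s) ^ c := Nat.one_le_pow _ _ (Nat.mul_pos hc hs)
  refine mixK_mono2 le_rfl (fun g hg => ?_)
    (mem_step hTE hs' hE hK hk (fun g hg => h F n s g hs hg) hf)
  exact mlev_mono (size_step (a := (2 * (2 * k + 1)).factorial) (b := 2 * (2 * k + 1)) hs)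
    le_rfl le_rfl _ hg

end FB
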