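import Pool.Agent.Lib.MP_64d474_lc.FR.FX68

/-!
# The closed class
-/

set_option autoImplicit false

namespace FB

open MvPolynomial AK LS DF FR BK

universe u

/-- The points hit every nonzero member of the closed class. -/
theorem hit_closed (t k e : ℕ) (he : 1 ≤ e) : ∃ R c : ℕ,
    ∀ (F : Type u) [Field F] [CharZero F] (n s S : ℕ), 1 ≤ s → (c * s) ^ c ≤ S →
    ∀ f : MvPolynomial (Fin n) F, f ≠ 0 → MemK k e (CLev s k e t) f →
      aeval (DH.B.bX F n S R) f ≠ 0 :=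
  hit_clev (stMemMix stTE) t k e he

theorem hit_closed_div (t k e : ℕ) (he : 1 ≤ e) : ∃ R c : ℕ,
    ∀ (F : Type u) [Field F] [CharZero F] (n s S : ℕ), 1 ≤ s → (c * s) ^ c ≤ S →
    ∀ M : Multiset (MvPolynomial (Fin n) F), (∀ f ∈ M, f ≠ 0 ∧ MemK k e (CLev s k e t) f) →
    ∀ g : MvPolynomial (Fin n) F, g ∣ M.prod → aeval (DH.B.bX F n S R) g ≠ 0 :=
  hit_clev_div (stMemMix stTE) t k e he

end FB
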