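import Pool.Agent.Lib.MP_64d474_lc.FR.TD46
import Pool.Agent.Lib.MP_64d474_lc.LS.CL15

/-!
# Matrices of bounded tree-depth with entries of any level
-/

set_option autoImplicit false

namespace FR.TE95

open MvPolynomial AK LS DF FR

section mix

variable {F : Type*} [Field F] {n : ℕ}

theorem locK_mono {r k k' e e' : ℕ} {P P' : MvPolynomial (Fin n) F → Prop} (hk : k ≤ k')
    (he : e ≤ e') (hP : ∀ f, P f → P' f) {f : RF n F} (h : LocK r k e P f) :
    LocK r k' e' P' f := by
  obtain ⟨m, u, v, h1, h2, h3, h4⟩ := h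
  exact ⟨m, u, v, fun a => ⟨(h1 a).1, LS.CL15.algF_mono hk hP subset_rfl (h1 a).2⟩,
    fun J hJ => (h2 J hJ).trans hk, fun hr a => ⟨(h3 hr a).1, fun i => ((h3 hr a).2 i).trans he⟩,
    h4⟩

theorem degreeOf_rename_le {R : Type*} [CommRing R] {σ τ : Type*} {φ : σ → τ}
    (hφ : Function.Injective φ) (Q : MvPolynomial σ R) {K : ℕ} (hQ : ∀ j, Q.degreeOf j ≤ K)
    (x : τ) : (rename φ Q).degreeOf x ≤ K := by
  classical
  rw [degreeOf_le_iff]
  intro m hm
  rw [support_rename_of_injective hφ, Finset.mem_image] at hm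
  obtain ⟨μ, hμ, rfl⟩ := hm
  by_cases hx : x ∈ Set.range φ
  · obtain ⟨j, rfl⟩ := hx
    rw [Finsupp.mapDomain_apply hφ]
    exact (monomial_le_degreeOf j hμ).trans (hQ j)
  · rw [Finsupp.mapDomain_of_notMem_range _ _ hx]
    exact Nat.zero_le _

theorem mixK_of_fin {ι : Type} [Fintype ι] {r K e : ℕ} {P : MvPolynomial (Fin n) F → Prop}
    {f : MvPolynomial (Fin n) F} (hι : Fintype.card ι ≤ K) (σ : ι → RF n F)
    (Q : MvPolynomial ι (MvPolynomial (Fin n) F)) (w : MvPolynomial (Fin n) F) (hw : w ≠ 0)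
    (hσ : ∀ j, LocK r K e P (σ j)) (hQ : ∀ j, Q.degreeOf j ≤ K)
    (hF : AlgF K P (insert w {g | ∃ μ, g = coeff μ Q})) (he : em w * em f = eval₂ em σ Q) :
    MixK r K e P f := by
  classical
  obtain ⟨φ⟩ : Nonempty (ι ↪ Fin K) :=
    Function.Embedding.nonempty_of_card_le (by simpa using hι)
  have hσ' : ∀ j, Function.extend φ σ (fun _ => 0) (φ j) = σ j := fun j =>
    φ.injective.extend_apply _ _ j
  refine ⟨Function.extend φ σ (fun _ => 0), rename φ Q, w, hw, fun a => ?_,
    degreeOf_rename_le φ.injective Q hQ, ?_, ?_⟩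
  · by_cases ha : ∃ j, φ j = a
    · obtain ⟨j, rfl⟩ := ha
      rw [hσ']
      exact hσ j
    · rw [Function.extend_apply' _ _ _ ha]
      exact locK_zero
  · refine LS.CL15.algF_mono le_rfl (fun _ h => h) ?_ (algF_adjoin hF)
    rintro g (rfl | ⟨μ, rfl⟩)
    · exact Algebra.subset_adjoin (Or.inl rfl)
    · by_cases hμ : coeff μ (rename φ Q) = 0
      · rw [hμ]
        exact Subalgebra.zero_mem _
      · obtain ⟨ν, hν, -⟩ := coeff_rename_ne_zero φ Q μ hμ
        rw [← hν, coeff_rename_mapDomain φ φ.injective]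
        exact Algebra.subset_adjoin (Or.inr ⟨ν, rfl⟩)
  · rw [he, eval₂_rename]
    congr 1
    funext j
    exact (hσ' j).symm

theorem mixK_mono {r k k' e e' : ℕ} {P P' : MvPolynomial (Fin n) F → Prop} (hk : k ≤ k')
    (he : e ≤ e') (hP : ∀ f, P f → P' f) {f : MvPolynomial (Fin n) F} (h : MixK r k e P f) :
    MixK r k' e' P' f := by
  obtain ⟨σ, Q, w, h1, h2, h3, h4, h5⟩ := h
  exact mixK_of_fin (by rw [Fintype.card_fin]; exact hk) σ Q w h1
    (fun j => locK_mono hk he hP (h2 j)) (fun j => (h3 j).trans hk)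
    (LS.CL15.algF_mono hk hP subset_rfl h4) h5

theorem mlev_mono {r s s' k k' e e' : ℕ} (hs : s ≤ s') (hk : k ≤ k') (he : e ≤ e') (t : ℕ) :
    ∀ {f : MvPolynomial (Fin n) F}, MLev r s k e t f → MLev r s' k' e' t f := by
  induction t with
  | zero => intro f h; exact ⟨h.1.trans hs, fun i => (h.2 i).trans he⟩
  | succ t ih =>
    intro f h
    exact ⟨mixK_mono hk he (fun p hp => ih hp) h.1, fun i => (h.2 i).trans he⟩

theorem mlev_succ {r s k e : ℕ} (hk : 1 ≤ k) (t : ℕ) {f : MvPolynomial (Fin n) F}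
    (h : MLev r s k e t f) : MLev r s k e (t + 1) f := by
  refine ⟨mixK_self hk h, ?_⟩
  cases t with
  | zero => exact h.2
  | succ t => exact h.2

theorem mlev_deg {r s k e : ℕ} {t : ℕ} {f : MvPolynomial (Fin n) F}
    (h : MLev r s k e t f) (i : Fin n) : f.degreeOf i ≤ e := by
  cases t with
  | zero => exact h.2 i
  | succ t => exact h.2 i

theorem mlev_le {r s k e : ℕ} (hk : 1 ≤ k) {t t' : ℕ} (ht : t ≤ t') {f : MvPolynomial (Fin n) F}
    (h : MLev r s k e t f) : MLev r s k e t' f := by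
  obtain ⟨d, rfl⟩ := Nat.exists_eq_add_of_le ht
  induction d with
  | zero => exact h
  | succ d ih => exact mlev_succ hk _ (ih (Nat.le_add_right _ _))

theorem rename_eq15 {R : Type*} [CommRing R] {σ τ : Type*} (φ : σ → τ) (Q : MvPolynomial σ R) :
    rename φ Q = eval₂ ((C : R →+* MvPolynomial τ R).comp (RingHom.id R)) (fun l => X (φ l)) Q := by
  rw [RingHom.comp_id]
  have h : eval₂ C X (rename φ Q) = eval₂ C ((X : τ → MvPolynomial τ R) ∘ φ) Q :=
    eval₂_rename _ _ _ _
  rw [eval₂_eta] at h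
  exact h

theorem det_map {R S T ι : Type*} [CommRing R] [CommRing S] [CommRing T] [Fintype ι]
    [DecidableEq ι] (Φ : T →+* S) (g : R →+* S) (G : Matrix ι ι T) (M : Matrix ι ι R) (c : ι → R)
    (h : ∀ i j, Φ (G i j) = g (c j * M i j)) : g (∏ j, c j) * g M.det = Φ G.det := by
  have h1 : Φ.mapMatrix G = g.mapMatrix (Matrix.of fun i j => c j * M i j) :=
    Matrix.ext fun i j => h i j
  have h2 : Φ G.det = (Φ.mapMatrix G).det := RingHom.map_det Φ G
  rw [h2, h1, ← RingHom.map_det, Matrix.det_mul_row, map_mul]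

/-- Determinants of bounded order. -/
theorem mixK_det {ι : Type} [Fintype ι] [DecidableEq ι] {r k K e N : ℕ}
    {P : MvPolynomial (Fin n) F → Prop} (M : Matrix ι ι (MvPolynomial (Fin n) F))
    (hN : Fintype.card ι ≤ N) (hK : N * N * k ≤ K) (hkK : k ≤ K)
    (h : ∀ i j, MixK r k e P (M i j)) : MixK r K e P M.det := by
  classical
  choose σ Q w hw hσ hQ hF he using fun p : ι × ι => h p.1 p.2
  have hcard : Fintype.card ι * Fintype.card ι * k ≤ K :=
    (Nat.mul_le_mul_right k (Nat.mul_le_mul hN hN)).trans hK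
  let G : Matrix ι ι (MvPolynomial ((ι × ι) × Fin k) (MvPolynomial (Fin n) F)) :=
    Matrix.of fun i j => rename (fun l : Fin k => ((i, j), l)) (Q (i, j)) *
      C (∏ a ∈ Finset.univ.erase i, w (a, j))
  have hinj : ∀ p : ι × ι, Function.Injective (fun l : Fin k => (p, l)) := fun p a b hab =>
    (Prod.mk.inj hab).2
  refine mixK_of_fin (ι := (ι × ι) × Fin k) ?_ (fun x => σ x.1 x.2) G.det
    (∏ j, ∏ a, w (a, j)) ?_ (fun x => locK_mono hkK le_rfl (fun _ h => h) (hσ x.1 x.2))
    (fun x => ?_) ?_ ?_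
  · rw [Fintype.card_prod, Fintype.card_prod, Fintype.card_fin]
    exact hcard
  · exact Finset.prod_ne_zero_iff.2 fun j _ => Finset.prod_ne_zero_iff.2 fun a _ => hw _
  · have h1 : ∀ i j, (G i j).degreeOf x ≤ k := fun i j => by
      show (rename (fun l : Fin k => ((i, j), l)) (Q (i, j)) *
        C (∏ a ∈ Finset.univ.erase i, w (a, j))).degreeOf x ≤ k
      refine (degreeOf_mul_le _ _ _).trans ?_
      rw [degreeOf_C, add_zero]
      exact degreeOf_rename_le (hinj _) _ (hQ _) x
    rw [Matrix.det_apply]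
    refine (degreeOf_sum_le _ _ _).trans (Finset.sup_le fun π _ => ?_)
    have h3 : degreeOf x (∏ i, G (π i) i) ≤ K := by
      refine (degreeOf_prod_le _ _ _).trans ((Finset.sum_le_sum fun i _ => h1 _ _).trans ?_)
      rw [Finset.sum_const, Finset.card_univ, smul_eq_mul]
      exact (Nat.mul_le_mul_right k (Nat.le_mul_self _)).trans hcard
    rcases Int.units_eq_one_or (Equiv.Perm.sign π) with h6 | h6
    · rw [h6, one_smul]; exact h3
    · rw [h6, Units.neg_smul, one_smul, degreeOf_neg]; exact h3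
  · have h2 := algF_adjoin (algF_iUnion hF)
    rw [Fintype.card_prod] at h2
    refine LS.CL15.algF_mono hcard (fun _ h => h) ?_ h2
    set A : Subalgebra F (MvPolynomial (Fin n) F) := Algebra.adjoin F (⋃ p : ι × ι,
      insert (w p) {g | ∃ μ, g = coeff μ (Q p)}) with hA
    have hwA : ∀ p, w p ∈ A := fun p =>
      Algebra.subset_adjoin (Set.mem_iUnion.2 ⟨p, Or.inl rfl⟩)
    have hQA : ∀ p μ, coeff μ (Q p) ∈ A := fun p μ =>
      Algebra.subset_adjoin (Set.mem_iUnion.2 ⟨p, Or.inr ⟨μ, rfl⟩⟩)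
    have hGA : ∀ i j, G i j ∈ LS.CL15.coeffsIn A ((ι × ι) × Fin k) := fun i j => by
      refine Subalgebra.mul_mem _ ?_ (LS.CL15.C_mem_coeffsIn
        (Subalgebra.prod_mem _ fun a _ => hwA _))
      rw [rename_eq15]
      exact LS.CL15.eval₂_mem_coeffsIn _ _ (fun l => LS.CL15.X_mem_coeffsIn _) _
        fun μ => hQA _ μ
    have hdet : G.det ∈ LS.CL15.coeffsIn A ((ι × ι) × Fin k) := by
      rw [Matrix.det_apply]
      refine Subalgebra.sum_mem _ fun π _ => ?_
      have h3 : ∏ i, G (π i) i ∈ LS.CL15.coeffsIn A ((ι × ι) × Fin k) :=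
        Subalgebra.prod_mem _ fun i _ => hGA _ _
      rcases Int.units_eq_one_or (Equiv.Perm.sign π) with h6 | h6
      · rw [h6, one_smul]; exact h3
      · rw [h6, Units.neg_smul, one_smul]; exact neg_mem h3
    rintro g (rfl | ⟨μ, rfl⟩)
    · exact Subalgebra.prod_mem _ fun j _ => Subalgebra.prod_mem _ fun a _ => hwA _
    · exact LS.CL15.coeff_mem_of hdet μ
  · rw [← coe_eval₂Hom]
    refine det_map (eval₂Hom em (fun x : (ι × ι) × Fin k => σ x.1 x.2)) em G M
      (fun j => ∏ a, w (a, j)) fun i j => ?_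
    have hGij : G i j = rename (fun l : Fin k => ((i, j), l)) (Q (i, j)) *
      C (∏ a ∈ Finset.univ.erase i, w (a, j)) := rfl
    rw [hGij]
    clear_value G
    have h5 : eval₂Hom em (fun x : (ι × ι) × Fin k => σ x.1 x.2)
        (rename (fun l : Fin k => ((i, j), l)) (Q (i, j))) = em (w (i, j)) * em (M i j) := by
      rw [coe_eval₂Hom, eval₂_rename, he (i, j)]
      rfl
    have h6 : eval₂Hom em (fun x : (ι × ι) × Fin k => σ x.1 x.2)
        (C (∏ a ∈ Finset.univ.erase i, w (a, j))) =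
        em (∏ a ∈ Finset.univ.erase i, w (a, j)) := by
      rw [coe_eval₂Hom, eval₂_C]
    have h7 : (∏ a, w (a, j)) = w (i, j) * ∏ a ∈ Finset.univ.erase i, w (a, j) :=
      (Finset.mul_prod_erase Finset.univ (fun a => w (a, j)) (Finset.mem_univ i)).symm
    rw [map_mul, h5, h6, h7, map_mul, map_mul, mul_right_comm]

end mix

section gen

/-- The levels over any class `B`. -/
def GV {F : Type*} [Field F] {n : ℕ} (B : MvPolynomial (Fin n) F → Prop) (K e : ℕ) :
    ℕ → MvPolynomial (Fin n) F → Prop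
  | 0, f => B f ∧ ∀ i, f.degreeOf i ≤ e
  | t + 1, f => MixK 1 K e (GV B K e t) f ∧ ∀ i, f.degreeOf i ≤ e

theorem gl_zero {F : Type*} [Field F] {n : ℕ} {B : MvPolynomial (Fin n) F → Prop} {K e : ℕ}
    (h0 : B 0) : ∀ t, GV B K e t (0 : MvPolynomial (Fin n) F)
  | 0 => ⟨h0, fun i => by simp⟩
  | _ + 1 => ⟨mixK_zero, fun i => by simp⟩

theorem gl_neg {F : Type*} [Field F] {n : ℕ} {B : MvPolynomial (Fin n) F → Prop} {K e : ℕ}
    (hneg : ∀ f, B f → B (-f)) {f : MvPolynomial (Fin n) F} :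
    ∀ {t}, GV B K e t f → GV B K e t (-f)
  | 0, h => ⟨hneg _ h.1, fun i => by rw [degreeOf_neg]; exact h.2 i⟩
  | _ + 1, h => ⟨mixK_neg h.1, fun i => by rw [degreeOf_neg]; exact h.2 i⟩

theorem gl_base {F : Type*} [Field F] {n : ℕ} {B : MvPolynomial (Fin n) F → Prop} {K e : ℕ}
    (hK : 1 ≤ K) {f : MvPolynomial (Fin n) F} (h1 : B f) (h2 : ∀ i, f.degreeOf i ≤ e) :
    ∀ t, GV B K e t f
  | 0 => ⟨h1, h2⟩
  | t + 1 => ⟨mixK_self hK (gl_base hK h1 h2 t), h2⟩

theorem deep_gen {F : Type*} [Field F] {n l e k D K : ℕ}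
    {B₀ B : MvPolynomial (Fin n) F → Prop} (hB : ∀ f, B₀ f → B f) (hB₀ : B₀ 0)
    (hneg : ∀ f, B f → B (-f)) (hdeg : ∀ f, B₀ f → ∀ x, f.degreeOf x ≤ e) (hk : 1 ≤ k)
    (hdet : ∀ (ι : Type) [Fintype ι] [DecidableEq ι] (M : Matrix ι ι (MvPolynomial (Fin n) F)),
      Fintype.card ι ≤ 2 * D → (∀ i j, B₀ (M i j)) → B M.det)
    (hK : 4 * D ^ 2 + k + 2 ≤ K) :
    ∀ (h c : ℕ), c + h ≤ D → ∀ A : Matrix (Fin l) (Fin l) (MvPolynomial (Fin n) F),
      (∀ i j, B₀ (A i j)) →
      (∀ x, (Finset.univ.filter fun p : Fin l × Fin l =>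
        (A p.1 p.2).degreeOf x ≠ 0).card ≤ k) →
      ∀ (ι : Type) [Fintype ι] [DecidableEq ι] (f g : ι → Fin l), Function.Injective f →
      Function.Injective g → Deep c A (h + 1) (Finset.univ.image f) (Finset.univ.image g) →
      GV B K (k * e) h (A.submatrix f g).det := by
  classical
  intro h
  induction h with
  | zero =>
    intro c hcD A h1 h2 ι _ _ f g hf hg hd
    by_cases hdet0 : (A.submatrix f g).det = 0
    · rw [hdet0]; exact gl_zero (hB _ hB₀) 0
    -- the order is at most `2 c`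
    have E := Fintype.equivFin ι
    set N := Fintype.card ι with hNdef
    have hdet' : (A.submatrix (f ∘ E.symm) (g ∘ E.symm)).det ≠ 0 := by
      have h3 : A.submatrix (f ∘ E.symm) (g ∘ E.symm) = (A.submatrix f g).submatrix E.symm E.symm :=
        rfl
      rw [h3, Matrix.det_submatrix_equiv_self]
      exact hdet0
    obtain ⟨I', J', a, b, hI, hJ, hc1, hc2, hz, hbl⟩ := hd
    have himf : Finset.univ.image (f ∘ E.symm) = Finset.univ.image f := by
      rw [← Finset.image_image, Finset.image_univ_equiv]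
    have himg : Finset.univ.image (g ∘ E.symm) = Finset.univ.image g := by
      rw [← Finset.image_image, Finset.image_univ_equiv]
    obtain ⟨p, m, f₀, g₀, f₁, g₁, u, v, hf₀, hg₀, hN, hm, hfe, hge⟩ :=
      exists_minor (c := c) A (f ∘ E.symm) (g ∘ E.symm) (hf.comp E.symm.injective)
        (hg.comp E.symm.injective) hdet' I' J' (by rw [himf]; exact hc1) (by rw [himg]; exact hc2)
    have hzero : ∀ i ∈ I', ∀ j ∈ J', A i j = 0 := by
      intro i hi j hj
      by_cases hab : a i = b j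
      · rcases hbl (a i) with h3 | h3
        · have h4 : i ∈ I'.filter fun i' => a i' = a i := Finset.mem_filter.2 ⟨hi, rfl⟩
          rw [h3] at h4
          exact absurd h4 (Finset.notMem_empty _)
        · have h4 : j ∈ J'.filter fun j' => b j' = a i := Finset.mem_filter.2 ⟨hj, hab.symm⟩
          rw [h3] at h4
          exact absurd h4 (Finset.notMem_empty _)
      · exact hz i hi j hj hab
    have hp : p = 0 := by
      rcases Nat.eq_zero_or_pos p with h3 | h3
      · exact h3
      · exact absurd (Matrix.det_eq_zero_of_row_eq_zero ⟨0, h3⟩ fun j =>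
          hzero _ (hf₀ _) _ (hg₀ _)) hN
    have hNm : N ≤ 2 * D := by
      have h3 := Fintype.card_congr u
      rw [Fintype.card_fin, Fintype.card_sum, Fintype.card_fin, Fintype.card_fin, hp] at h3
      omega
    exact ⟨hdet ι _ hNm fun i j => h1 _ _,
      fun x => degreeOf_minor46 A x (fun i j => hdeg _ (h1 i j) x) (h2 x) f g hg⟩
  | succ h ih =>
    intro c hcD A h1 h2 ι _ _ f g hf hg hd
    by_cases hdet0 : (A.submatrix f g).det = 0
    · rw [hdet0]; exact gl_zero (hB _ hB₀) _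
    have E := Fintype.equivFin ι
    set N := Fintype.card ι with hNdef
    have h3 : A.submatrix (f ∘ E.symm) (g ∘ E.symm) = (A.submatrix f g).submatrix E.symm E.symm :=
      rfl
    have hdetE : (A.submatrix (f ∘ E.symm) (g ∘ E.symm)).det = (A.submatrix f g).det := by
      rw [h3, Matrix.det_submatrix_equiv_self]
    obtain ⟨I', J', a, b, hI, hJ, hc1, hc2, hz, hbl⟩ := hd
    have himf : Finset.univ.image (f ∘ E.symm) = Finset.univ.image f := by
      rw [← Finset.image_image, Finset.image_univ_equiv]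
    have himg : Finset.univ.image (g ∘ E.symm) = Finset.univ.image g := by
      rw [← Finset.image_image, Finset.image_univ_equiv]
    obtain ⟨p, m, f₀, g₀, f₁, g₁, u, v, hf₀, hg₀, hN, hm, hfe, hge⟩ :=
      exists_minor (c := c) A (f ∘ E.symm) (g ∘ E.symm) (hf.comp E.symm.injective)
        (hg.comp E.symm.injective) (by rw [hdetE]; exact hdet0) I' J' (by rw [himf]; exact hc1)
        (by rw [himg]; exact hc2)
    -- a permutation in the nonsingular minor
    obtain ⟨π, hπ⟩ : ∃ π : Equiv.Perm (Fin p), ∀ i, A (f₀ (π i)) (g₀ i) ≠ 0 := by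
      have h4 := hN
      rw [Matrix.det_apply] at h4
      obtain ⟨π, -, hπ⟩ := Finset.exists_ne_zero_of_sum_ne_zero h4
      refine ⟨π, fun i hi => hπ ?_⟩
      have h5 : ∏ i, (A.submatrix f₀ g₀) (π i) i = 0 :=
        Finset.prod_eq_zero (Finset.mem_univ i) hi
      rw [h5, smul_zero]
    let f₂ : Fin p → Fin l := f₀ ∘ π
    let β : Fin p → ℕ := fun i => b (g₀ i)
    have haβ : ∀ i, a (f₂ i) = β i := by
      intro i
      by_contra hne
      exact hπ i (hz _ (hf₀ _) _ (hg₀ _) hne)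
    have hβ : ∀ i j, β i ≠ β j → A (f₂ i) (g₀ j) = 0 := fun i j hij =>
      hz _ (hf₀ _) _ (hg₀ _) (by
        have := haβ i
        show a (f₂ i) ≠ b (g₀ j)
        rw [this]
        exact hij)
    have hN2 : (A.submatrix f₂ g₀).det ≠ 0 := by
      have h4 : A.submatrix f₂ g₀ = (A.submatrix f₀ g₀).submatrix π id := rfl
      rw [h4, Matrix.det_permute]
      rcases Int.units_eq_one_or (Equiv.Perm.sign π) with h5 | h5
      · rw [h5]; simpa using hN
      · rw [h5]; simpa using hN
    let u' : Fin N ≃ Fin p ⊕ Fin m := u.trans (Equiv.sumCongr π.symm (Equiv.refl _))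
    have hfe' : f ∘ E.symm = Sum.elim f₂ f₁ ∘ u' := by
      rw [hfe]
      funext i
      show Sum.elim f₀ f₁ (u i) = Sum.elim f₂ f₁ (Equiv.sumCongr π.symm (Equiv.refl _) (u i))
      rcases u i with x | x
      · simp [f₂]
      · simp
    have hinjf : Function.Injective (Sum.elim f₂ f₁) := by
      have h4 : Sum.elim f₂ f₁ = (f ∘ E.symm) ∘ u'.symm := by
        rw [hfe', Function.comp_assoc, Equiv.self_comp_symm, Function.comp_id]
      rw [h4]
      exact (hf.comp E.symm.injective).comp u'.symm.injective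
    have hinjg : Function.Injective (Sum.elim g₀ g₁) := by
      have h4 : Sum.elim g₀ g₁ = (g ∘ E.symm) ∘ v.symm := by
        rw [hge, Function.comp_assoc, Equiv.self_comp_symm, Function.comp_id]
      rw [h4]
      exact (hg.comp E.symm.injective).comp v.symm.injective
    have hf₂inj : Function.Injective f₂ := fun x y hxy =>
      Sum.inl_injective (hinjf (a₁ := Sum.inl x) (a₂ := Sum.inl y) hxy)
    have hg₀inj : Function.Injective g₀ := fun x y hxy =>
      Sum.inl_injective (hinjg (a₁ := Sum.inl x) (a₂ := Sum.inl y) hxy)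
    have hfd : ∀ t i, f₂ t ≠ f₁ i := fun t i hti =>
      Sum.inl_ne_inr (hinjf (a₁ := Sum.inl t) (a₂ := Sum.inr i) hti)
    have hgd : ∀ t j, g₀ t ≠ g₁ j := fun t j htj =>
      Sum.inl_ne_inr (hinjg (a₁ := Sum.inl t) (a₂ := Sum.inr j) htj)
    -- the blocks are in the level below
    have hnd : ∀ x ∈ Finset.univ.image β,
        GV B K (k * e) h (nd A f₂ g₀ β x) := by
      intro x _
      refine ih c (by omega) A h1 h2 {i // β i = x} (fun i => f₂ i) (fun i => g₀ i)
        (fun i j hij => Subtype.ext (hf₂inj hij)) (fun i j hij => Subtype.ext (hg₀inj hij)) ?_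
      refine deep_mono le_rfl (fun _ _ h => h) ?_ ?_ (hbl x)
      · intro y hy
        obtain ⟨i, -, rfl⟩ := Finset.mem_image.1 hy
        exact Finset.mem_filter.2 ⟨hf₀ _, (haβ i).trans i.2⟩
      · intro y hy
        obtain ⟨i, -, rfl⟩ := Finset.mem_image.1 hy
        exact Finset.mem_filter.2 ⟨hg₀ _, i.2⟩
    have hbd : ∀ i j : Fin m, ∀ x ∈ Finset.univ.image β,
        GV B K (k * e) h (bd A f₂ g₀ β (f₁ i) (g₁ j) x) := by
      intro i j x _
      refine ih (c + 1) (by omega) (zr A (f₁ i) (g₁ j)) (fun r q => ?_) (fun y => ?_)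
        ({i // β i = x} ⊕ Unit) (Sum.elim (fun t => f₂ t) (fun _ => f₁ i))
        (Sum.elim (fun t => g₀ t) (fun _ => g₁ j)) ?_ ?_ ?_
      · rw [zr, Matrix.of_apply]
        split_ifs
        · exact hB₀
        · exact h1 r q
      · refine (Finset.card_le_card fun q hq => ?_).trans (h2 y)
        rw [Finset.mem_filter] at hq ⊢
        refine ⟨hq.1, fun h4 => hq.2 ?_⟩
        rw [zr, Matrix.of_apply]
        split_ifs
        · rw [degreeOf_zero]
        · exact h4
      · rintro (r | r) (q | q) hrq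
        · exact congrArg Sum.inl (Subtype.ext (hf₂inj hrq))
        · exact absurd hrq (hfd _ _)
        · exact absurd hrq.symm (hfd _ _)
        · rfl
      · rintro (r | r) (q | q) hrq
        · exact congrArg Sum.inl (Subtype.ext (hg₀inj hrq))
        · exact absurd hrq (hgd _ _)
        · exact absurd hrq.symm (hgd _ _)
        · rfl
      · refine deep_mono le_rfl (fun _ _ h => h) ?_ ?_
          (deep_insert (zr_zero A (f₁ i) (g₁ j)) (f₁ i) (g₁ j) (hbl x))
        · intro y hy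
          obtain ⟨r | r, -, rfl⟩ := Finset.mem_image.1 hy
          · exact Finset.mem_insert_of_mem (Finset.mem_filter.2 ⟨hf₀ _, (haβ r).trans r.2⟩)
          · exact Finset.mem_insert_self _ _
        · intro y hy
          obtain ⟨r | r, -, rfl⟩ := Finset.mem_image.1 hy
          · exact Finset.mem_insert_of_mem (Finset.mem_filter.2 ⟨hg₀ _, r.2⟩)
          · exact Finset.mem_insert_self _ _
    have hn0 : ∀ x ∈ Finset.univ.image β, nd A f₂ g₀ β x ≠ 0 := by
      have h4 := hN2
      rw [prod_nd A f₂ g₀ β hβ] at h4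
      exact fun x hx => Finset.prod_ne_zero_iff.1 h4 x hx
    have hD1 : 1 ≤ D := by omega
    have hDD : D ≤ D ^ 2 := by nlinarith
    have hAij : ∀ i j : Fin l, GV B K (k * e) h (A i j) := fun i j =>
      gl_base (by omega) (hB _ (h1 i j))
        (fun x => (hdeg _ (h1 i j) x).trans (Nat.le_mul_of_pos_left e hk)) h
    have hmix : GV B K (k * e) (h + 1)
        (A.submatrix (Sum.elim f₂ f₁) (Sum.elim g₀ g₁)).det := by
      refine ⟨mixK_schur A f₂ g₀ β ?_ ?_ (by omega) f₁ g₁ hβ hN2 hfd hgd hnd fun i j => ?_,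
        fun x => degreeOf_minor46 A x (fun i j => hdeg _ (h1 i j) x) (h2 x) _ _ hinjg⟩
      · have : m * m ≤ (2 * D) * (2 * D) := Nat.mul_le_mul (by omega) (by omega)
        nlinarith
      · omega
      · exact sc_locK A f₂ g₀ β (by omega) (by omega) hf₂inj hg₀inj (f₁ i) (g₁ j)
          (fun t => hfd t i) (fun t => hgd t j) h2 (hAij _ _) hn0 hnd (hbd i j)
    have hfin : (A.submatrix f g).det =
        ((A.submatrix (Sum.elim f₂ f₁) (Sum.elim g₀ g₁)).submatrix u' v).det := by
      rw [← hdetE, hfe', hge]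
      rfl
    rw [hfin]
    rcases det_sub_equiv (A.submatrix (Sum.elim f₂ f₁) (Sum.elim g₀ g₁)) u' v with h4 | h4
    · rw [h4]; exact hmix
    · rw [h4]; exact gl_neg hneg hmix

/-- A determinant of order at most `2 D` of members of a level. -/
theorem mlev_det {F : Type*} [Field F] {n D s k e : ℕ} (hs : 1 ≤ s) (hk : 1 ≤ k) (hD1 : 1 ≤ D)
    (t : ℕ)
    (ι : Type) [Fintype ι] [DecidableEq ι] (M : Matrix ι ι (MvPolynomial (Fin n) F))
    (hι : Fintype.card ι ≤ 2 * D) (h : ∀ i j, MLev 1 s k e t (M i j)) :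
    MLev 1 ((2 * D).factorial * s ^ (2 * D)) (4 * D ^ 2 * k + k + 2) ((2 * D + k) * e) t
      M.det := by
  classical
  have hdeg : ∀ x, M.det.degreeOf x ≤ (2 * D + k) * e := by
    intro x
    rw [Matrix.det_apply]
    refine (degreeOf_sum_le _ _ _).trans (Finset.sup_le fun π _ => ?_)
    have h3 : degreeOf x (∏ i, M (π i) i) ≤ (2 * D + k) * e := by
      refine (degreeOf_prod_le _ _ _).trans
        ((Finset.sum_le_sum fun i _ => mlev_deg (h _ _) x).trans ?_)
      rw [Finset.sum_const, Finset.card_univ, smul_eq_mul]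
      exact Nat.mul_le_mul_right e (hι.trans (Nat.le_add_right _ _))
    rcases Int.units_eq_one_or (Equiv.Perm.sign π) with h6 | h6
    · rw [h6, one_smul]; exact h3
    · rw [h6, Units.neg_smul, one_smul, degreeOf_neg]; exact h3
  have hsS : s ≤ (2 * D).factorial * s ^ (2 * D) := by
    calc s = 1 * s ^ 1 := by rw [pow_one, one_mul]
      _ ≤ (2 * D).factorial * s ^ (2 * D) :=
        Nat.mul_le_mul (Nat.factorial_pos _) (Nat.pow_le_pow_right hs (by omega))
  cases t with
  | zero =>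
    refine ⟨(support_det46 _ fun i j => (h i j).1).trans ?_, hdeg⟩
    exact Nat.mul_le_mul (Nat.factorial_le hι) (Nat.pow_le_pow_right hs hι)
  | succ t =>
    refine ⟨?_, hdeg⟩
    have h1 : MixK 1 (4 * D ^ 2 * k + k + 2) e (MLev 1 s k e t) M.det := by
      refine mixK_det M hι ?_ (by omega) fun i j => (h i j).1
      have : 2 * D * (2 * D) * k = 4 * D ^ 2 * k := by ring
      omega
    refine mixK_mono le_rfl (Nat.le_mul_of_pos_left e (by omega)) (fun p hp => ?_) h1
    exact mlev_mono hsS (by nlinarith [Nat.zero_le (4 * D ^ 2 * k)])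
      (Nat.le_mul_of_pos_left e (by omega)) t hp

theorem gl_mlev {F : Type*} [Field F] {n s k e' e : ℕ} (he : e' ≤ e) (t : ℕ) (h : ℕ) :
    ∀ {f : MvPolynomial (Fin n) F}, GV (MLev 1 s k e t) k e' h f → MLev 1 s k e (t + h) f := by
  induction h with
  | zero => intro f hf; exact hf.1
  | succ h ih =>
    intro f hf
    exact ⟨mixK_mono le_rfl he (fun p hp => ih hp) hf.1, fun i => (hf.2 i).trans he⟩

/-- Matrices of bounded tree-depth with entries of level `t`. -/
theorem deep_mlev_t {F : Type*} [Field F] {n l c h D s k e t : ℕ} (hs : 1 ≤ s) (hk : 1 ≤ k)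
    (hD1 : 1 ≤ D) (hD : c + h ≤ D) (A : Matrix (Fin l) (Fin l) (MvPolynomial (Fin n) F))
    (h1 : ∀ i j, MLev 1 s k e t (A i j))
    (h2 : ∀ x, (Finset.univ.filter fun p : Fin l × Fin l =>
      (A p.1 p.2).degreeOf x ≠ 0).card ≤ k)
    (h3 : Deep c A (h + 1) Finset.univ Finset.univ) :
    MLev 1 ((2 * D).factorial * s ^ (2 * D)) (4 * D ^ 2 * k + k + 2) ((2 * D + k) * e) (t + h)
      A.det := by
  have hkk : 4 * D ^ 2 ≤ 4 * D ^ 2 * k := Nat.le_mul_of_pos_right _ hk
  have h4 := deep_gen (l := l) (D := D) (K := 4 * D ^ 2 * k + k + 2) (e := e)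
    (B₀ := MLev 1 s k e t)
    (B := MLev 1 ((2 * D).factorial * s ^ (2 * D)) (4 * D ^ 2 * k + k + 2) ((2 * D + k) * e) t)
    (fun f hf => by
      have h6 := mlev_det (D := D) hs hk hD1 t Unit (Matrix.of fun _ _ => f)
        (by rw [Fintype.card_unit]; omega) fun _ _ => hf
      rwa [Matrix.det_unique] at h6)
    (mlev_zero t) (fun f hf => mlev_neg hf) (fun f hf x => mlev_deg hf x) hk
    (fun ι _ _ M hM hh => mlev_det hs hk hD1 t ι M hM hh) (by omega) h c hD A h1 h2 (Fin l) id id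
    Function.injective_id Function.injective_id (by rwa [Finset.image_id])
  rw [Matrix.submatrix_id_id] at h4
  exact gl_mlev (Nat.mul_le_mul_right e (Nat.le_add_left _ _)) t h h4

end gen

end FR.TE95
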