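import Pool.Agent.Lib.MP_64d474_lc.FR.FW15
import Pool.Agent.Lib.MP_64d474_lc.FR.TE95

/-!
# The class closed under mixed polynomials and determinants of bounded depth: final form
-/

set_option autoImplicit false

namespace FB

open MvPolynomial AK LS DF FR BK

universe u

theorem mlev_const {F : Type*} [Field F] {n s k e : ℕ} (hk : 1 ≤ k) (hs : 1 ≤ s) (t : ℕ) (c : F) :
    MLev 1 s k e t (C c : MvPolynomial (Fin n) F) := by
  have h := mlev_lift (F := F) (n := n) (s := s) (k := k) (e := e) hk 0 t (f := C c) ⟨by
    refine (Finset.card_le_card (?_ : (C c : MvPolynomial (Fin n) F).support ⊆ {0})).trans ?_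
    · rw [C_apply]
      exact support_monomial_subset
    · simpa using hs, fun i => by rw [degreeOf_C]; exact Nat.zero_le _⟩
  rwa [zero_add] at h

theorem stTE : StTE.{u} := by
  intro F _ n l c h s e k t hs he hk A h1 h2 h3
  rcases Nat.eq_zero_or_pos (c + h) with h0 | h0
  · obtain ⟨rfl, rfl⟩ : c = 0 ∧ h = 0 := by omega
    have hdet : A.det = C (0 : F) ∨ A.det = C (1 : F) := by
      obtain ⟨I', J', a, b, g1, g2, g3, g4, g5, g6⟩ := h3
      rcases l with _ | l
      · right
        rw [Matrix.det_isEmpty, C_1]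
      · left
        rw [C_0]
        have hI : ∀ i, i ∈ I' := fun i => by
          by_contra hi
          have : i ∈ Finset.univ \ I' := Finset.mem_sdiff.2 ⟨Finset.mem_univ i, hi⟩
          have := Finset.card_pos.2 ⟨i, this⟩
          omega
        have hJ : ∀ i, i ∈ J' := fun i => by
          by_contra hi
          have : i ∈ Finset.univ \ J' := Finset.mem_sdiff.2 ⟨Finset.mem_univ i, hi⟩
          have := Finset.card_pos.2 ⟨i, this⟩
          omega
        refine Matrix.det_eq_zero_of_row_eq_zero 0 fun j => ?_
        by_cases hij : a 0 = b j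
        · exfalso
          rcases g6 (a 0) with h | h
          · have : (0 : Fin (l + 1)) ∈ I'.filter fun i => a i = a 0 :=
              Finset.mem_filter.2 ⟨hI 0, rfl⟩
            rw [h] at this
            exact absurd this (Finset.notMem_empty _)
          · have : j ∈ J'.filter fun j => b j = a 0 :=
              Finset.mem_filter.2 ⟨hJ j, hij.symm⟩
            rw [h] at this
            exact absurd this (Finset.notMem_empty _)
        · exact g5 0 (hI 0) j (hJ j) hij
    have h5 : ∀ x : F, MLev 1 ((2 * (0 + 0)).factorial * s ^ (2 * (0 + 0)))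
        (4 * (0 + 0) ^ 2 * k + k + 2) ((2 * (0 + 0) + k) * e) (t + 0)
        (C x : MvPolynomial (Fin n) F) := fun x =>
      mlev_const (by omega) (Nat.mul_pos (Nat.factorial_pos _) (Nat.pow_pos hs)) _ x
    rcases hdet with h | h
    · rw [h]; exact h5 0
    · rw [h]; exact h5 1
  · exact TE95.deep_mlev_t hs hk h0 le_rfl A h1 h2 h3

theorem hit_class (t k e : ℕ) (he : 1 ≤ e) : ∃ R c : ℕ,
    ∀ (F : Type u) [Field F] [CharZero F] (n s S : ℕ), 1 ≤ s → (c * s) ^ c ≤ S →
    ∀ f : MvPolynomial (Fin n) F, f ≠ 0 → MemK k e (CLev s k e t) f →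
      aeval (DH.B.bX F n S R) f ≠ 0 := hit_clev (stMemMix stTE) t k e he

end FB
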