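import Pool.Agent.Lib.MP_64d474_lc.FR.T55
import Pool.Agent.Lib.MP_64d474_lc.FR.L93

/-!
# Hitting the classes `QK`: rational functions with differences of bounded transcendence degree
-/

set_option autoImplicit false

namespace FR

open MvPolynomial AK LS DF

universe u

section H95

variable {F : Type*} [Field F] {n : ℕ}

/-- `QK` from a family indexed by any finite type. -/
theorem qK_of {r q M K κ : ℕ} {P : MvPolynomial (Fin n) F → Prop} {τ : Type*} [Fintype τ]
    (b : τ → RF n F) (Q : MvPolynomial τ (RF n F)) (hτ : Fintype.card τ ≤ q)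
    (hb : ∀ x, DfK κ P r (b x) ∧ DenK κ P (b x)) (hM : ∀ x, Q.degreeOf x ≤ M)
    (hA : AlgK K P {g | ∃ μ, g = coeff μ Q}) : QK r q M K κ P (eval b Q) := by
  classical
  let φ := Fintype.equivFin τ
  refine ⟨Fintype.card τ, fun x => b (φ.symm x), rename φ Q, hτ, fun x => hb _, ?_, ?_, ?_⟩
  · intro x
    have h1 := degreeOf_rename_of_injective (p := Q) φ.injective (φ.symm x)
    rw [Equiv.apply_symm_apply] at h1
    rw [h1]
    exact hM _
  · refine algK_mono le_rfl (fun f hf => hf) ?_ hA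
    rintro g ⟨μ, rfl⟩
    refine ⟨μ.mapDomain φ.symm, ?_⟩
    have h1 := coeff_rename_mapDomain φ φ.injective Q (μ.mapDomain φ.symm)
    rw [← Finsupp.mapDomain_comp] at h1
    rw [← h1]
    congr 1
    have : (φ ∘ φ.symm : Fin (Fintype.card τ) → Fin (Fintype.card τ)) = id := by
      funext x; simp
    rw [this, Finsupp.mapDomain_id]
  · rw [eval_rename]
    congr 2
    funext x
    simp

theorem denK_const {k : ℕ} {P : MvPolynomial (Fin n) F → Prop} (f : MvPolynomial (Fin n) F) :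
    DenK k P (em f) :=
  ⟨0, f, fun p hp => absurd hp (Multiset.notMem_zero p), by
    rw [Multiset.prod_zero, map_one, div_one]⟩

theorem denK_mul {k : ℕ} {P : MvPolynomial (Fin n) F → Prop} {f g : RF n F} (hf : DenK k P f)
    (hg : DenK k P g) : DenK k P (f * g) := by
  obtain ⟨M, u, hM, rfl⟩ := hf
  obtain ⟨M', u', hM', rfl⟩ := hg
  refine ⟨M + M', u * u', fun p hp => ?_, ?_⟩
  · rcases Multiset.mem_add.1 hp with h | h
    · exact hM p h
    · exact hM' p h
  · rw [Multiset.prod_add, map_mul, map_mul, div_mul_div_comm]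

theorem denK_neg {k : ℕ} {P : MvPolynomial (Fin n) F → Prop} {f : RF n F} (hf : DenK k P f) :
    DenK k P (-f) := by
  obtain ⟨M, u, hM, rfl⟩ := hf
  exact ⟨M, -u, hM, by rw [map_neg, neg_div]⟩

/-- The rational functions with a denominator that is a product of members of `Alg k P`. -/
noncomputable def denS (k : ℕ) (P : MvPolynomial (Fin n) F → Prop) : Subring (RF n F) where
  carrier := {f | DenK k P f}
  mul_mem' := fun hf hg => denK_mul hf hg
  one_mem' := by
    have h := denK_const (k := k) (P := P) (1 : MvPolynomial (Fin n) F)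
    rwa [map_one] at h
  add_mem' := by
    intro f g hf hg
    have h := denK_sub hf (denK_neg hg)
    rwa [sub_neg_eq_add] at h
  zero_mem' := by
    have h := denK_const (k := k) (P := P) (0 : MvPolynomial (Fin n) F)
    rwa [map_zero] at h
  neg_mem' := fun hf => denK_neg hf

theorem mem_denS {k : ℕ} {P : MvPolynomial (Fin n) F → Prop} {f : RF n F} :
    f ∈ denS k P ↔ DenK k P f := Iff.rfl

theorem denK_of_algK {k : ℕ} {P : MvPolynomial (Fin n) F → Prop} {G : Set (RF n F)}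
    (h : AlgK k P G) {f : RF n F} (hf : f ∈ G) : DenK k P f := by
  obtain ⟨u, v, hv, -, h2, rfl⟩ := exists_uv h hf
  refine ⟨{v}, u, fun p hp => ?_, by rw [Multiset.prod_singleton]⟩
  rw [Multiset.mem_singleton] at hp
  subst hp
  exact ⟨hv, h2⟩

theorem eval_mem {σ : Type*} (S : Subring (RF n F)) (b : σ → RF n F)
    (Q : MvPolynomial σ (RF n F)) (hb : ∀ j, b j ∈ S) (hQ : ∀ μ, coeff μ Q ∈ S) :
    eval b Q ∈ S := by
  rw [eval_eq]
  exact sum_mem fun μ _ => mul_mem (hQ μ) (prod_mem fun j _ => pow_mem (hb j) _)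

section psi

variable {L : Type*} [CommRing L] [IsDomain L] (ψ : MvPolynomial (Fin n) F →+* L)

theorem ne_of_psi {v : MvPolynomial (Fin n) F} (h : ψ v ≠ 0) : v ≠ 0 := by
  rintro rfl
  exact h (map_zero ψ)

/-- The rational functions that are defined at the point. -/
noncomputable def good : Subring (RF n F) where
  carrier := {g | ∃ u v : MvPolynomial (Fin n) F, ψ v ≠ 0 ∧ g = em u / em v}
  mul_mem' := by
    rintro _ _ ⟨u, v, hv, rfl⟩ ⟨u', v', hv', rfl⟩
    exact ⟨u * u', v * v', by rw [map_mul]; exact mul_ne_zero hv hv', by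
      rw [map_mul, map_mul, div_mul_div_comm]⟩
  one_mem' := ⟨1, 1, by rw [map_one]; exact one_ne_zero, by rw [map_one, div_one]⟩
  add_mem' := by
    rintro _ _ ⟨u, v, hv, rfl⟩ ⟨u', v', hv', rfl⟩
    exact ⟨u * v' + v * u', v * v', by rw [map_mul]; exact mul_ne_zero hv hv', by
      rw [map_add, map_mul, map_mul, map_mul, div_add_div _ _ (em_ne (ne_of_psi ψ hv))
        (em_ne (ne_of_psi ψ hv'))]⟩
  zero_mem' := ⟨0, 1, by rw [map_one]; exact one_ne_zero, by rw [map_zero, zero_div]⟩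
  neg_mem' := by
    rintro _ ⟨u, v, hv, rfl⟩
    exact ⟨-u, v, hv, by rw [map_neg, neg_div]⟩

/-- The rational functions that vanish at the point. -/
def Bad (g : RF n F) : Prop :=
  ∃ u v : MvPolynomial (Fin n) F, ψ v ≠ 0 ∧ ψ u = 0 ∧ g = em u / em v

theorem bad_mul {g h : RF n F} (hg : g ∈ good ψ) (hh : Bad ψ h) : Bad ψ (g * h) := by
  obtain ⟨u, v, hv, rfl⟩ := hg
  obtain ⟨u', v', hv', hu', rfl⟩ := hh
  exact ⟨u * u', v * v', by rw [map_mul]; exact mul_ne_zero hv hv', by
    rw [map_mul, hu', mul_zero], by rw [map_mul, map_mul, div_mul_div_comm]⟩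

theorem bad_sum {ι : Type*} (s : Finset ι) (g : ι → RF n F) (hg : ∀ i ∈ s, Bad ψ (g i)) :
    Bad ψ (∑ i ∈ s, g i) := by
  classical
  refine Finset.sum_induction g (Bad ψ) ?_ ?_ hg
  · rintro _ _ ⟨u, v, hv, hu, rfl⟩ ⟨u', v', hv', hu', rfl⟩
    exact ⟨u * v' + v * u', v * v', by rw [map_mul]; exact mul_ne_zero hv hv', by
      rw [map_add, map_mul, map_mul, hu, hu', zero_mul, mul_zero, add_zero], by
      rw [map_add, map_mul, map_mul, map_mul, div_add_div _ _ (em_ne (ne_of_psi ψ hv))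
        (em_ne (ne_of_psi ψ hv'))]⟩
  · exact ⟨0, 1, by rw [map_one]; exact one_ne_zero, map_zero _, by rw [map_zero, zero_div]⟩

theorem not_bad {g : RF n F} (h : Bad ψ g) (u v : MvPolynomial (Fin n) F) (hu : ψ u ≠ 0)
    (hv : ψ v ≠ 0) (he : g = em u / em v) : False := by
  obtain ⟨u', v', hv', hu', rfl⟩ := h
  rw [div_eq_div_iff (em_ne (ne_of_psi ψ hv')) (em_ne (ne_of_psi ψ hv)), ← map_mul,
    ← map_mul] at he
  have h1 : u' * v = u * v' := IsFractionRing.injective (MvPolynomial (Fin n) F) (RF n F) he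
  have h2 := congrArg ψ h1
  rw [map_mul, map_mul, hu', zero_mul] at h2
  exact mul_ne_zero hu hv' h2.symm

theorem psi_prod {k : ℕ} {P : MvPolynomial (Fin n) F → Prop}
    (hit : ∀ f : MvPolynomial (Fin n) F, f ≠ 0 → DH.Alg k P f → ψ f ≠ 0)
    (M : Multiset (MvPolynomial (Fin n) F)) (hM : ∀ p ∈ M, p ≠ 0 ∧ DH.Alg k P p) :
    ψ M.prod ≠ 0 := by
  rw [map_multiset_prod]
  refine Multiset.prod_ne_zero fun h => ?_
  obtain ⟨p, hp, h0⟩ := Multiset.mem_map.1 h
  exact hit p (hM p hp).1 (hM p hp).2 h0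

theorem good_of_denK {k : ℕ} {P : MvPolynomial (Fin n) F → Prop}
    (hit : ∀ f : MvPolynomial (Fin n) F, f ≠ 0 → DH.Alg k P f → ψ f ≠ 0) {f : RF n F}
    (hf : DenK k P f) : f ∈ good ψ := by
  obtain ⟨M, u, hM, rfl⟩ := hf
  exact ⟨u, M.prod, psi_prod ψ hit M hM, rfl⟩

end psi

end H95

theorem hit_qK (ρ : ℕ) : ∀ q M K κ : ℕ, ∃ K' N' : ℕ, ∀ (F : Type u) [Field F] [Infinite F]
    (n : ℕ) (Cl : ℕ → MvPolynomial (Fin n) F → Prop) (L : ℕ → Type u) [∀ R, CommRing (L R)]
    [∀ R, IsDomain (L R)] (ψ : ∀ R, MvPolynomial (Fin n) F →+* L R),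
    (∀ (a m : ℕ) (c : Fin n → F), (supp c).card ≤ m → ∀ p, Cl a p → Cl (a + m) (tc c p)) →
    (∀ (R m : ℕ) (c : Fin n → F), (supp c).card ≤ m → ∀ p, ψ R (tc c p) ≠ 0 →
      ψ (R + m) p ≠ 0) →
    ∀ a R : ℕ, (∀ f : MvPolynomial (Fin n) F, f ≠ 0 → DH.Alg K' (Cl (a + N')) f → ψ R f ≠ 0) →
    ∀ h : RF n F, h ≠ 0 → QK ρ q M K κ (Cl a) h →
      ∃ u v : MvPolynomial (Fin n) F, v ≠ 0 ∧ h = em u / em v ∧ ψ (R + N') u ≠ 0 ∧
        ψ (R + N') v ≠ 0 := by
  induction ρ with
  | zero =>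
    intro q M K κ
    refine ⟨K + q * κ, 0, fun F _ _ n Cl L _ _ ψ hCl hψ a R ih h h0 hh => ?_⟩
    classical
    obtain ⟨q', b, Q, hq', hb, hM, hA, rfl⟩ := hh
    have h1 : ∀ j : Fin q', AlgK κ (Cl a) {b j} := fun j => (hb j).1
    have h2 := algK_closure (algK_union hA (algK_iUnion h1))
    rw [Fintype.card_fin] at h2
    have h3 : eval b Q ∈ (Subfield.closure (({g | ∃ μ, g = coeff μ Q} ∪ ⋃ j, {b j}) ∪
        Set.range fun a : F => em (C a)) : Set (RF n F)) := by
      rw [SetLike.mem_coe, eval_eq]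
      refine sum_mem fun μ _ => mul_mem ?_ (prod_mem fun j _ => pow_mem ?_ _)
      · exact Subfield.subset_closure (Or.inl (Or.inl ⟨μ, rfl⟩))
      · exact Subfield.subset_closure (Or.inl (Or.inr (Set.mem_iUnion.2 ⟨j, rfl⟩)))
    have h4 := algK_mono (K' := K + q * κ) (Nat.add_le_add_left (Nat.mul_le_mul_right _ hq') _)
      (fun f hf => hf) (le_refl _) h2
    obtain ⟨u, v, hv, hu', hv', he⟩ := exists_uv h4 h3
    have hu : u ≠ 0 := by
      rintro rfl
      rw [map_zero, zero_div] at he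
      exact h0 he
    exact ⟨u, v, hv, he, ih u hu hu', ih v hv hv'⟩
  | succ ρ IH =>
    intro q M K κ
    obtain ⟨N, hN⟩ : ∃ N, N = (M + 1) ^ q := ⟨_, rfl⟩
    have hN1 : 1 ≤ N := hN ▸ Nat.one_le_pow _ _ (Nat.succ_pos M)
    obtain ⟨K', N'', hIH⟩ := IH (N * q) (N * M) (N * K) (N * κ)
    refine ⟨K' + (K + κ), N'' + N, fun F _ _ n Cl L _ _ ψ hCl hψ a R ih h h0 hh => ?_⟩
    classical
    have hmono : ∀ (a m : ℕ) (p : MvPolynomial (Fin n) F), Cl a p → Cl (a + m) p := by
      intro a m p hp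
      have h1 := hCl a m 0 (by
        have h6 : (supp (0 : Fin n → F)) = ∅ := by
          refine Finset.eq_empty_of_forall_notMem fun i hi => ?_
          rw [supp, Finset.mem_filter] at hi
          exact hi.2 rfl
        rw [h6, Finset.card_empty]
        exact Nat.zero_le _) p hp
      rwa [tc_zero] at h1
    have hψmono : ∀ (R m : ℕ) (p : MvPolynomial (Fin n) F), ψ R p ≠ 0 → ψ (R + m) p ≠ 0 := by
      intro R m p hp
      refine hψ R m 0 (by
        have h6 : (supp (0 : Fin n → F)) = ∅ := by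
          refine Finset.eq_empty_of_forall_notMem fun i hi => ?_
          rw [supp, Finset.mem_filter] at hi
          exact hi.2 rfl
        rw [h6, Finset.card_empty]
        exact Nat.zero_le _) p ?_
      rwa [tc_zero]
    obtain ⟨q', b, Q, hq', hb, hM, hA, rfl⟩ := hh
    have hNq : (M + 1) ^ q' ≤ N := hN ▸ Nat.pow_le_pow_right (Nat.succ_pos M) hq'
    obtain ⟨r0, c, Q', A, hr, hsupp, hdeg, hco, hAS, hD0, hD⟩ := locK b Q hM h0
    have hr' := hr.trans hNq
    have hsupp' : ∀ l, (supp (c l)).card ≤ N := fun l => (hsupp l).trans hNq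
    have hclN : ∀ c : Fin n → F, (supp c).card ≤ N → ∀ p, Cl a p → Cl (a + N) (tc c p) :=
      fun c hc p hp => hCl a N c hc p hp
    -- the classes that are hit
    have hit0 : ∀ k, k ≤ K + κ → ∀ a', a' ≤ a + N → ∀ f : MvPolynomial (Fin n) F, f ≠ 0 →
        DH.Alg k (Cl a') f → ψ R f ≠ 0 := by
      intro k hk a' ha' f hf0 hf
      refine ih f hf0 (DH.alg_mono (by omega) (fun p hp => ?_) hf)
      have h1 := hmono a' (a + (N'' + N) - a') p hp
      rwa [Nat.add_sub_cancel' (by omega)] at h1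
    have hit1 : ∀ k, k ≤ K + κ → ∀ a', a' ≤ a + N → ∀ f : MvPolynomial (Fin n) F, f ≠ 0 →
        DH.Alg k (Cl a') f → ψ (R + N'') f ≠ 0 :=
      fun k hk a' ha' f hf0 hf => hψmono R N'' f (hit0 k hk a' ha' f hf0 hf)
    -- the descent
    have h1 : QK ρ (N * q) (N * M) (N * K) (N * κ) (Cl (a + N))
        (eval (fun x : Fin r0 × Fin q' => tk (c x.1) (b x.2) - b x.2) Q') := by
      refine qK_of _ Q' ?_ (fun x => ⟨?_, ?_⟩) (fun x => ?_) ?_
      · rw [Fintype.card_prod, Fintype.card_fin, Fintype.card_fin]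
        exact Nat.mul_le_mul hr' hq'
      · exact dfK_diffP (hb x.2).1 N hclN (c x.1) (hsupp' _)
      · refine denK_mono (Nat.le_mul_of_pos_left κ hN1) (fun _ h => h) (denK_sub ?_ ?_)
        · exact denK_map (c x.1) (hclN _ (hsupp' _)) (hb x.2).2
        · exact denK_mono le_rfl (fun p hp => hmono a N p hp) (hb x.2).2
      · exact (hdeg x).trans (Nat.mul_le_mul_right _ hNq)
      · have h2 : ∀ l : Fin r0, AlgK K (Cl (a + N)) (tk (c l) '' {x | ∃ μ, x = coeff μ Q}) :=
          fun l => algK_map (c l) (hclN _ (hsupp' l)) hA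
        have h3 := algK_closure (algK_iUnion h2)
        rw [Fintype.card_fin] at h3
        refine algK_mono (Nat.mul_le_mul_right _ hr') (fun f hf => hf) ?_ h3
        rintro x ⟨μ, rfl⟩
        have h4 : Subring.closure {g | ∃ l ν, g = tk (c l) (coeff ν Q)} ≤
            (Subfield.closure ((⋃ l, tk (c l) '' {x | ∃ μ, x = coeff μ Q}) ∪
              Set.range fun a : F => em (C a))).toSubring := by
          rw [Subring.closure_le]
          rintro g ⟨l, ν, rfl⟩
          exact Subfield.subset_closure (Or.inl (Set.mem_iUnion.2 ⟨l, ⟨_, ⟨ν, rfl⟩, rfl⟩⟩))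
        exact h4 (hco μ)
    obtain ⟨u'', v'', hv'', hD1, hu2, hv2⟩ := hIH F n Cl L ψ hCl hψ (a + N) R
      (fun f hf0 hf => ih f hf0 (DH.alg_mono (Nat.le_add_right _ _) (fun p hp => by
        rwa [show a + N + N'' = a + (N'' + N) by ring] at hp) hf)) _ hD0 h1
    -- the denominators
    have hden : eval b Q ∈ denS (K + κ) (Cl a) := by
      refine eval_mem _ b Q (fun j => ?_) fun μ => ?_
      · exact denK_mono (Nat.le_add_left _ _) (fun _ h => h) (hb j).2
      · exact denK_mono (Nat.le_add_right _ _) (fun _ h => h) (denK_of_algK hA ⟨μ, rfl⟩)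
    obtain ⟨MM, u, hMM, he⟩ := hden
    have hMM0 : MM.prod ≠ 0 := Multiset.prod_ne_zero fun h => (hMM 0 h).1 rfl
    have hAl : ∀ l, A l ∈ good (ψ (R + N'')) := by
      refine hAS _ (fun x => ?_) (fun j => ?_) (fun l j => ?_) fun l ν => ?_
      · exact ⟨C x, 1, by rw [map_one]; exact one_ne_zero, by rw [map_one, div_one]⟩
      · exact good_of_denK _ (hit1 κ (Nat.le_add_left _ _) a (Nat.le_add_right _ _)) (hb j).2
      · exact good_of_denK _ (hit1 κ (Nat.le_add_left _ _) (a + N) le_rfl)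
          (denK_map (c l) (hclN _ (hsupp' l)) (hb j).2)
      · exact good_of_denK _ (hit1 K (Nat.le_add_right _ _) (a + N) le_rfl)
          (denK_map (c l) (hclN _ (hsupp' l)) (denK_of_algK hA ⟨ν, rfl⟩))
    have htc : ∀ l, ψ (R + N'') (tc (c l) MM.prod) ≠ 0 := by
      intro l
      have h2 := psi_prod (ψ (R + N'')) (hit1 (K + κ) le_rfl (a + N) le_rfl)
        (MM.map (tc (c l))) (fun p hp => by
          obtain ⟨p', hp', rfl⟩ := Multiset.mem_map.1 hp
          exact ⟨tc_ne (hMM p' hp').1,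
            DH.alg_map _ (tc_injective (c l)) (hclN _ (hsupp' l)) (hMM p' hp').2⟩)
      rwa [← map_multiset_prod] at h2
    have hex : ∃ l, ψ (R + N'') (tc (c l) u) ≠ 0 := by
      by_contra hne
      push Not at hne
      refine not_bad (ψ (R + N'')) ?_ u'' v'' hu2 hv2 hD1
      rw [hD]
      refine bad_sum _ _ _ fun l _ => bad_mul _ (hAl l) ?_
      exact ⟨tc (c l) u, tc (c l) MM.prod, htc l, hne l, by
        rw [he, map_div₀, tk_em, tk_em]⟩
    obtain ⟨l, hl⟩ := hex
    refine ⟨u, MM.prod, hMM0, he, ?_, ?_⟩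
    · rw [← add_assoc]
      exact hψ (R + N'') N (c l) (hsupp' l) u hl
    · rw [← add_assoc]
      exact hψmono (R + N'') N _ (psi_prod _ (hit1 (K + κ) le_rfl a (Nat.le_add_right _ _)) MM hMM)

end FR
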