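import Pool.Agent.Lib.MP_64d474_lc.FR.CLG15

/-!
# Hitting the classes `QK`
-/

set_option autoImplicit false

namespace FR.HQ15

open MvPolynomial AK LS DF

universe u

section gen

variable {F : Type*} [Field F] {n : ℕ}

/-- The fractions with denominators in `W`. -/
noncomputable def lo (W : Submonoid (MvPolynomial (Fin n) F)) (hW : (0 : MvPolynomial (Fin n) F) ∉ W) :
    Subring (RF n F) where
  carrier := {g | ∃ u, ∃ w ∈ W, g = em u / em w}
  mul_mem' := by
    rintro _ _ ⟨u, w, hw, rfl⟩ ⟨u', w', hw', rfl⟩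
    exact ⟨u * u', w * w', W.mul_mem hw hw', by rw [map_mul, map_mul, div_mul_div_comm]⟩
  one_mem' := ⟨1, 1, W.one_mem, by rw [map_one, div_one]⟩
  add_mem' := by
    rintro _ _ ⟨u, w, hw, rfl⟩ ⟨u', w', hw', rfl⟩
    refine ⟨u * w' + w * u', w * w', W.mul_mem hw hw', ?_⟩
    rw [map_add, map_mul, map_mul, map_mul, div_add_div _ _ (em_ne fun h => hW (h ▸ hw))
      (em_ne fun h => hW (h ▸ hw'))]
  zero_mem' := ⟨0, 1, W.one_mem, by rw [map_zero, zero_div]⟩
  neg_mem' := by
    rintro _ ⟨u, w, hw, rfl⟩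
    exact ⟨-u, w, hw, by rw [map_neg, neg_div]⟩

theorem em_mem_lo {W : Submonoid (MvPolynomial (Fin n) F)}
    {hW : (0 : MvPolynomial (Fin n) F) ∉ W} (u : MvPolynomial (Fin n) F) : em u ∈ lo W hW :=
  ⟨u, 1, W.one_mem, by rw [map_one, div_one]⟩

theorem den_mem_lo {W : Submonoid (MvPolynomial (Fin n) F)}
    {hW : (0 : MvPolynomial (Fin n) F) ∉ W} {k : ℕ} {P : MvPolynomial (Fin n) F → Prop}
    {f : RF n F} (hf : DenK k P f) (h : ∀ p, p ≠ 0 → DH.Alg k P p → p ∈ W) : f ∈ lo W hW := by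
  obtain ⟨M, u, hM, rfl⟩ := hf
  exact ⟨u, M.prod, Submonoid.multiset_prod_mem _ _ fun p hp => h p (hM p hp).1 (hM p hp).2, rfl⟩

theorem eval_mem {σ : Type*} (S : Subring (RF n F)) (b : σ → RF n F) (Q : MvPolynomial σ (RF n F))
    (hb : ∀ j, b j ∈ S) (hQ : ∀ μ, coeff μ Q ∈ S) : eval b Q ∈ S := by
  rw [eval_eq]
  exact Subring.sum_mem _ fun μ _ => Subring.mul_mem _ (hQ μ)
    (Subring.prod_mem _ fun j _ => Subring.pow_mem _ (hb j) _)

/-- `f` is a fraction of polynomials not in the kernel. -/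
def Hit {B : Type*} [CommRing B] (G : MvPolynomial (Fin n) F →+* B) (f : RF n F) : Prop :=
  ∃ u w, G u ≠ 0 ∧ G w ≠ 0 ∧ f = em u / em w

theorem not_hit {B : Type*} [CommRing B] [IsDomain B] (G : MvPolynomial (Fin n) F →+* B)
    {f : RF n F} (u w : MvPolynomial (Fin n) F) (hu : G u = 0) (hw : G w ≠ 0)
    (hf : f = em u / em w) : ¬ Hit G f := by
  rintro ⟨u', w', hu', hw', h⟩
  have hw0 : w ≠ 0 := fun h => hw (by rw [h, map_zero])
  have hw0' : w' ≠ 0 := fun h => hw' (by rw [h, map_zero])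
  rw [hf, div_eq_div_iff (em_ne hw0) (em_ne hw0'), ← map_mul, ← map_mul] at h
  have h1 : u * w' = u' * w := IsFractionRing.injective (MvPolynomial (Fin n) F) (RF n F) h
  have h2 := congrArg G h1
  rw [map_mul, map_mul, hu, zero_mul] at h2
  exact mul_ne_zero hu' hw h2.symm

theorem hit_em {B : Type*} [CommRing B] [IsDomain B] (G : MvPolynomial (Fin n) F →+* B)
    {f : MvPolynomial (Fin n) F} (h : Hit G (em f)) : G f ≠ 0 := by
  intro h0
  exact not_hit G f 1 h0 (by rw [map_one]; exact one_ne_zero) (by rw [map_one, div_one]) h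

/-- The polynomials not in the kernel. -/
def nk {B : Type*} [CommRing B] [IsDomain B] (G : MvPolynomial (Fin n) F →+* B) :
    Submonoid (MvPolynomial (Fin n) F) where
  carrier := {w | G w ≠ 0}
  mul_mem' := by
    intro a b ha hb
    show G (a * b) ≠ 0
    rw [map_mul]
    exact mul_ne_zero ha hb
  one_mem' := by
    show G 1 ≠ 0
    rw [map_one]
    exact one_ne_zero

theorem zero_notMem_nk {B : Type*} [CommRing B] [IsDomain B]
    (G : MvPolynomial (Fin n) F →+* B) : (0 : MvPolynomial (Fin n) F) ∉ nk G := by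
  intro h
  exact h (map_zero G)

/-- A combination, with coefficients in the local ring, of fractions with numerators in the
kernel, is not hit. -/
theorem not_hit_sum {B : Type*} [CommRing B] [IsDomain B] (G : MvPolynomial (Fin n) F →+* B)
    {ι : Type*} (s : Finset ι) (A x : ι → RF n F)
    (hA : ∀ l ∈ s, A l ∈ lo (nk G) (zero_notMem_nk G))
    (hx : ∀ l ∈ s, ∃ y z, G y = 0 ∧ G z ≠ 0 ∧ x l = em y / em z) :
    ¬ Hit G (∑ l ∈ s, A l * x l) := by
  classical
  have h : ∃ y z, G y = 0 ∧ G z ≠ 0 ∧ ∑ l ∈ s, A l * x l = em y / em z := by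
    induction s using Finset.induction_on with
    | empty => exact ⟨0, 1, map_zero _, by rw [map_one]; exact one_ne_zero, by simp⟩
    | insert a s ha ih =>
      obtain ⟨y, z, hy, hz, h1⟩ := ih (fun l hl => hA l (Finset.mem_insert_of_mem hl))
        (fun l hl => hx l (Finset.mem_insert_of_mem hl))
      obtain ⟨u, w, hw, h2⟩ := hA a (Finset.mem_insert_self _ _)
      obtain ⟨y', z', hy', hz', h3⟩ := hx a (Finset.mem_insert_self _ _)
      have hw' : G w ≠ 0 := hw
      have hz0 : z ≠ 0 := fun h => hz (by rw [h, map_zero])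
      have hzw0 : w * z' ≠ 0 := fun h => mul_ne_zero hw' hz' (by rw [← map_mul, h, map_zero])
      refine ⟨(u * y') * z + (w * z') * y, (w * z') * z, ?_, ?_, ?_⟩
      · rw [map_add, map_mul, map_mul, map_mul, hy', hy]
        ring
      · rw [map_mul, map_mul]
        exact mul_ne_zero (mul_ne_zero hw' hz') hz
      · rw [Finset.sum_insert ha, h1, h2, h3, div_mul_div_comm, ← map_mul, ← map_mul,
          div_add_div _ _ (em_ne hzw0) (em_ne hz0), ← map_mul, ← map_mul, ← map_mul, ← map_add]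
  obtain ⟨y, z, hy, hz, h1⟩ := h
  exact not_hit G y z hy hz h1

end gen

end FR.HQ15
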