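import Mathlib

/-!
# A Schur complement with block diagonal principal block
-/

set_option autoImplicit false

namespace FR.LA81

open Matrix

section gen

variable {ι : Type*} [Fintype ι] [DecidableEq ι] {K : Type*} [Field K]

/-- A square matrix with one more row and column. -/
theorem border_det (N : Matrix ι ι K) (hN : N.det ≠ 0) (B C : ι → K) (d : K) :
    (fromBlocks N (of fun i (_ : Unit) => B i) (of fun (_ : Unit) j => C j)
      (of fun (_ _ : Unit) => d)).det = N.det * (d - C ⬝ᵥ (N⁻¹ *ᵥ B)) := by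
  let _ := N.invertibleOfIsUnitDet (isUnit_iff_ne_zero.2 hN)
  rw [det_fromBlocks₁₁, invOf_eq_nonsing_inv]
  congr 1
  rw [det_unique, Matrix.sub_apply, Matrix.mul_assoc, Matrix.mul_apply]
  rfl

/-- The inverse of a block diagonal matrix. -/
theorem sol (N : Matrix ι ι K) (lab : ι → ℕ) (hblk : ∀ i j, lab i ≠ lab j → N i j = 0)
    (hdet : ∀ x, (N.toSquareBlock lab x).det ≠ 0) (hN : N.det ≠ 0) (B : ι → K) :
    N⁻¹ *ᵥ B = fun i => ((N.toSquareBlock lab (lab i))⁻¹ *ᵥ fun i' => B i'.1) ⟨i, rfl⟩ := by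
  set v : ι → K := fun i => ((N.toSquareBlock lab (lab i))⁻¹ *ᵥ fun i' => B i'.1) ⟨i, rfl⟩ with hv
  have h1 : N *ᵥ v = B := by
    funext i
    rw [Matrix.mulVec, dotProduct,
      ← Fintype.sum_subtype_add_sum_subtype (fun j => lab j = lab i)]
    have h2 : ∑ j : {j // ¬ lab j = lab i}, N i j * v j = 0 :=
      Finset.sum_eq_zero fun j _ => by rw [hblk i j fun h => j.2 h.symm, zero_mul]
    rw [h2, add_zero]
    have h3 : ∀ j : {j // lab j = lab i},
        v j = ((N.toSquareBlock lab (lab i))⁻¹ *ᵥ fun i' => B i'.1) j := by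
      rintro ⟨j, hj⟩
      show ((N.toSquareBlock lab (lab j))⁻¹ *ᵥ fun i' => B i'.1) ⟨j, rfl⟩ = _
      have : ∀ (x : ℕ) (hx : lab j = x), ((N.toSquareBlock lab (lab j))⁻¹ *ᵥ fun i' => B i'.1)
          ⟨j, rfl⟩ = ((N.toSquareBlock lab x)⁻¹ *ᵥ fun i' => B i'.1) ⟨j, hx⟩ := by
        rintro x rfl
        rfl
      exact this _ hj
    have h4 : (N.toSquareBlock lab (lab i) *ᵥ
        ((N.toSquareBlock lab (lab i))⁻¹ *ᵥ fun i' => B i'.1)) ⟨i, rfl⟩ = B i := by
      rw [Matrix.mulVec_mulVec, Matrix.mul_nonsing_inv _ (isUnit_iff_ne_zero.2 (hdet _)),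
        Matrix.one_mulVec]
    rw [← h4, Matrix.mulVec, dotProduct]
    exact Finset.sum_congr rfl fun j _ => by rw [h3 j]; rfl
  rw [← h1, Matrix.mulVec_mulVec, Matrix.nonsing_inv_mul _ (isUnit_iff_ne_zero.2 hN),
    Matrix.one_mulVec]

/-- The product `C N⁻¹ B` for a block diagonal matrix `N`. -/
theorem dot_sol (N : Matrix ι ι K) (lab : ι → ℕ) (hblk : ∀ i j, lab i ≠ lab j → N i j = 0)
    (hdet : ∀ x, (N.toSquareBlock lab x).det ≠ 0) (hN : N.det ≠ 0) (B C : ι → K) :
    C ⬝ᵥ (N⁻¹ *ᵥ B) = ∑ x ∈ Finset.univ.image lab,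
      ((fun i : {i // lab i = x} => C i) ⬝ᵥ
        ((N.toSquareBlock lab x)⁻¹ *ᵥ fun i' => B i'.1)) := by
  rw [sol N lab hblk hdet hN B, dotProduct,
    ← Finset.sum_fiberwise_of_maps_to (g := lab) (t := Finset.univ.image lab)
      (fun i _ => Finset.mem_image_of_mem _ (Finset.mem_univ i))]
  refine Finset.sum_congr rfl fun x _ => ?_
  rw [dotProduct, ← Finset.sum_subtype_eq_sum_filter, Finset.subtype_univ]
  refine Finset.sum_congr rfl fun j _ => ?_
  congr 1
  obtain ⟨j, rfl⟩ := j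
  rfl

theorem det_blocks (N : Matrix ι ι K) (lab : ι → ℕ) (hblk : ∀ i j, lab i ≠ lab j → N i j = 0) :
    N.det = ∏ x ∈ Finset.univ.image lab, (N.toSquareBlock lab x).det :=
  BlockTriangular.det fun i j h => hblk i j (ne_of_gt h)

end gen

section main

variable {α : Type*} [Fintype α] [DecidableEq α] {K : Type*} [Field K]

/-- The block with rows `R` and columns `π R`. -/
def pb (M : Matrix α α K) (R : Finset α) (π : Equiv.Perm α) :
    Matrix {i // i ∈ R} {i // i ∈ R} K := of fun i j => M i (π j)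

/-- The index type of a block. -/
abbrev Ix (R : Finset α) (a : α → ℕ) (x : ℕ) : Type _ := {i : {i // i ∈ R} // a i = x}

/-- The block with label `x`. -/
def pbx (M : Matrix α α K) (R : Finset α) (π : Equiv.Perm α) (a : α → ℕ) (x : ℕ) :
    Matrix (Ix R a x) (Ix R a x) K := of fun i j => M i.1 (π j.1)

/-- The block with label `x`, with row `i`, column `π j` and a zero in the corner. -/
def bord (M : Matrix α α K) (R : Finset α) (π : Equiv.Perm α) (a : α → ℕ) (x : ℕ) (i j : α) :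
    Matrix (Ix R a x ⊕ Unit) (Ix R a x ⊕ Unit) K :=
  fromBlocks (pbx M R π a x) (of fun i' _ => M i'.1 (π j)) (of fun _ j' => M i (π j'.1))
    (of fun _ _ => 0)

omit [Fintype α] [DecidableEq α] [Field K] in
theorem toSq (M : Matrix α α K) (R : Finset α) (π : Equiv.Perm α) (a : α → ℕ) (x : ℕ) :
    (pb M R π).toSquareBlock (fun i : {i // i ∈ R} => a i) x = pbx M R π a x := rfl

omit [Fintype α] in
theorem dot_eq (M : Matrix α α K) (R : Finset α) (π : Equiv.Perm α) (a : α → ℕ)
    (hblk : ∀ i j : {i // i ∈ R}, a i ≠ a j → M i (π j) = 0)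
    (hdet : ∀ x, (pbx M R π a x).det ≠ 0) (hN : (pb M R π).det ≠ 0) (i j : α) :
    (fun j' : {i // i ∈ R} => M i (π j')) ⬝ᵥ ((pb M R π)⁻¹ *ᵥ fun i' => M i'.1 (π j)) =
      ∑ x ∈ R.image a, -((bord M R π a x i j).det / (pbx M R π a x).det) := by
  have himg : (Finset.univ.image fun i : {i // i ∈ R} => a i) = R.image a := by
    ext x
    simp
  rw [dot_sol (pb M R π) (fun i => a i) hblk hdet hN, himg]
  refine Finset.sum_congr rfl fun x _ => ?_
  rw [toSq, bord, border_det (pbx M R π a x) (hdet x) (fun i' => M i'.1 (π j))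
    (fun j' => M i (π j'.1)) 0, zero_sub, mul_neg, neg_div, neg_neg,
    mul_div_cancel_left₀ _ (hdet x)]

omit [DecidableEq α] in
theorem det_eq_gen {β : Type*} [Fintype β] [DecidableEq β] {γ : Type*} [Fintype γ]
    [DecidableEq γ] [DecidableEq α] (M : Matrix α α K) (e : β ⊕ γ ≃ α)
    (hN : (M.submatrix (e ∘ Sum.inl) (e ∘ Sum.inl)).det ≠ 0) :
    M.det = (M.submatrix (e ∘ Sum.inl) (e ∘ Sum.inl)).det *
      (of fun i j : γ => M (e (Sum.inr i)) (e (Sum.inr j)) -
        (fun j' : β => M (e (Sum.inr i)) (e (Sum.inl j'))) ⬝ᵥ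
          ((M.submatrix (e ∘ Sum.inl) (e ∘ Sum.inl))⁻¹ *ᵥ
            fun i' => M (e (Sum.inl i')) (e (Sum.inr j)))).det := by
  let _ := (M.submatrix (e ∘ Sum.inl) (e ∘ Sum.inl)).invertibleOfIsUnitDet
    (isUnit_iff_ne_zero.2 hN)
  rw [← det_submatrix_equiv_self e M, ← fromBlocks_toBlocks (M.submatrix e e),
    show (M.submatrix e e).toBlocks₁₁ = M.submatrix (e ∘ Sum.inl) (e ∘ Sum.inl) from rfl,
    det_fromBlocks₁₁, invOf_eq_nonsing_inv]
  congr 2
  ext i j
  rw [Matrix.sub_apply, Matrix.mul_assoc, Matrix.mul_apply]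
  rfl

theorem det_eq (M : Matrix α α K) (R : Finset α) (π : Equiv.Perm α) (hN : (pb M R π).det ≠ 0) :
    ((Equiv.Perm.sign π : ℤ) : K) * M.det = (pb M R π).det *
      (of fun i j : {i // i ∉ R} => M i (π j) -
        (fun j' : {i // i ∈ R} => M i (π j')) ⬝ᵥ
          ((pb M R π)⁻¹ *ᵥ fun i' => M i'.1 (π j))).det := by
  rw [← det_permute' π M]
  exact det_eq_gen (M.submatrix id π) (Equiv.sumCompl fun i => i ∈ R) hN

/-- The conditions on `R` and `π`. -/
def Good (M : Matrix α α K) (P Q : α → Prop) (a b : α → ℕ) (R : Finset α) (π : Equiv.Perm α) :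
    Prop :=
  (∀ i ∈ R, P i ∧ Q (π i) ∧ a i = b (π i)) ∧ (pb M R π).det ≠ 0

omit [Fintype α] in
theorem good_empty (M : Matrix α α K) (P Q : α → Prop) (a b : α → ℕ) : Good M P Q a b ∅ 1 := by
  refine ⟨fun i hi => absurd hi (Finset.notMem_empty i), ?_⟩
  have : IsEmpty {i : α // i ∈ (∅ : Finset α)} := ⟨fun i => Finset.notMem_empty _ i.2⟩
  rw [det_isEmpty]
  exact one_ne_zero

omit [Fintype α] in
theorem good_insert {M : Matrix α α K} {P Q : α → Prop} {a b : α → ℕ} {R : Finset α}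
    {π : Equiv.Perm α} (h : Good M P Q a b R π) {i j : α} (hi : i ∉ R) (hj : j ∉ R) (hP : P i)
    (hQ : Q (π j)) (hab : a i = b (π j))
    (hS : M i (π j) - (fun j' : {i // i ∈ R} => M i (π j')) ⬝ᵥ
          ((pb M R π)⁻¹ *ᵥ fun i' => M i'.1 (π j)) ≠ 0) :
    Good M P Q a b (insert i R) (π * Equiv.swap i j) := by
  have h1 : ∀ x ∈ R, (π * Equiv.swap i j) x = π x := fun x hx => by
    have hxi : x ≠ i := by
      rintro rfl
      exact hi hx
    have hxj : x ≠ j := by
      rintro rfl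
      exact hj hx
    rw [Equiv.Perm.mul_apply, Equiv.swap_apply_of_ne_of_ne hxi hxj]
  have h2 : (π * Equiv.swap i j) i = π j := by
    rw [Equiv.Perm.mul_apply, Equiv.swap_apply_left]
  refine ⟨fun x hx => ?_, ?_⟩
  · rcases Finset.mem_insert.1 hx with rfl | hx
    · rw [h2]
      exact ⟨hP, hQ, hab⟩
    · rw [h1 x hx]
      exact h.1 x hx
  · let f : {x // x ∈ R} ⊕ Unit → {x // x ∈ insert i R} :=
      Sum.elim (fun x => ⟨x.1, Finset.mem_insert_of_mem x.2⟩)
        (fun _ => ⟨i, Finset.mem_insert_self i R⟩)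
    have hf : Function.Bijective f := by
      constructor
      · rintro (x | x) (y | y) hxy
        · exact congrArg Sum.inl (Subtype.ext (Subtype.mk.inj hxy))
        · exact absurd (Subtype.mk.inj hxy ▸ x.2) hi
        · exact absurd (Subtype.mk.inj hxy ▸ y.2) hi
        · rfl
      · rintro ⟨x, hx⟩
        rcases Finset.mem_insert.1 hx with rfl | hx'
        · exact ⟨Sum.inr (), rfl⟩
        · exact ⟨Sum.inl ⟨x, hx'⟩, rfl⟩
    rw [← det_submatrix_equiv_self (Equiv.ofBijective f hf) (pb M (insert i R) _)]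
    have h3 : (pb M (insert i R) (π * Equiv.swap i j)).submatrix (Equiv.ofBijective f hf)
        (Equiv.ofBijective f hf) = fromBlocks (pb M R π) (of fun i' (_ : Unit) => M i'.1 (π j))
          (of fun (_ : Unit) j' => M i (π j'.1)) (of fun (_ _ : Unit) => M i (π j)) := by
      ext (x | x) (y | y)
      · exact congrArg (M x.1) (h1 y.1 y.2)
      · exact congrArg (M x.1) h2
      · exact congrArg (M i) (h1 y.1 y.2)
      · exact congrArg (M i) h2
    rw [h3, border_det _ h.2 (fun i' => M i'.1 (π j)) (fun j' => M i (π j'.1)) (M i (π j))]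
    exact mul_ne_zero h.2 hS

omit [Fintype α] in
theorem good_blk {M : Matrix α α K} {P Q : α → Prop} {a b : α → ℕ} {R : Finset α}
    {π : Equiv.Perm α} (hM : ∀ i j, P i → Q j → a i ≠ b j → M i j = 0)
    (h : Good M P Q a b R π) : ∀ i j : {i // i ∈ R}, a i ≠ a j → M i (π j) = 0 :=
  fun i j hij => hM _ _ (h.1 i i.2).1 (h.1 j j.2).2.1 fun h0 =>
    hij (h0.trans (h.1 j j.2).2.2.symm)

omit [Fintype α] in
theorem good_det {M : Matrix α α K} {P Q : α → Prop} {a b : α → ℕ} {R : Finset α}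
    {π : Equiv.Perm α} (hM : ∀ i j, P i → Q j → a i ≠ b j → M i j = 0)
    (h : Good M P Q a b R π) :
    (pb M R π).det = ∏ x ∈ R.image a, (pbx M R π a x).det ∧ ∀ x, (pbx M R π a x).det ≠ 0 := by
  have himg : (Finset.univ.image fun i : {i // i ∈ R} => a i) = R.image a := by
    ext x
    simp
  have h1 := det_blocks (pb M R π) (fun i => a i) (good_blk hM h)
  rw [himg] at h1
  refine ⟨h1, fun x => ?_⟩
  by_cases hx : x ∈ R.image a
  · have h2 := h.2
    rw [h1] at h2
    exact Finset.prod_ne_zero_iff.1 h2 x hx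
  · have : IsEmpty (Ix R a x) := ⟨fun i => hx (Finset.mem_image.2 ⟨i.1, i.1.2, i.2⟩)⟩
    rw [det_isEmpty]
    exact one_ne_zero

/-- Schur complement with a maximal block diagonal principal block. -/
theorem schur_blocks (M : Matrix α α K) (hM0 : M.det ≠ 0) (P Q : α → Prop) [DecidablePred P]
    [DecidablePred Q] (a b : α → ℕ) (hM : ∀ i j, P i → Q j → a i ≠ b j → M i j = 0) :
    ∃ (R : Finset α) (π : Equiv.Perm α), (∀ i ∈ R, P i ∧ Q (π i) ∧ a i = b (π i)) ∧
      Rᶜ.card ≤ (Finset.univ.filter fun i => ¬ P i).card +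
        (Finset.univ.filter fun j => ¬ Q j).card ∧
      (∀ x, (pbx M R π a x).det ≠ 0) ∧
      ((Equiv.Perm.sign π : ℤ) : K) * M.det = (∏ x ∈ R.image a, (pbx M R π a x).det) *
        (of fun i j : {i // i ∉ R} => M i (π j) +
          ∑ x ∈ R.image a, (bord M R π a x i j).det / (pbx M R π a x).det).det := by
  classical
  obtain ⟨⟨R, π⟩, hmem, hmax⟩ := Finset.exists_max_image
    (Finset.univ.filter fun x : Finset α × Equiv.Perm α => Good M P Q a b x.1 x.2)
    (fun x => x.1.card) ⟨(∅, 1), Finset.mem_filter.2 ⟨Finset.mem_univ _, good_empty M P Q a b⟩⟩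
  have hg : Good M P Q a b R π := (Finset.mem_filter.1 hmem).2
  obtain ⟨hd1, hd2⟩ := good_det hM hg
  have hblk := good_blk hM hg
  have hS : ∀ i j, i ∉ R → j ∉ R → P i → Q (π j) →
      M i (π j) - (fun j' : {i // i ∈ R} => M i (π j')) ⬝ᵥ
          ((pb M R π)⁻¹ *ᵥ fun i' => M i'.1 (π j)) = 0 := by
    intro i j hi hj hP hQ
    by_contra hne
    by_cases hab : a i = b (π j)
    · have h1 := good_insert hg hi hj hP hQ hab hne
      have h2 : (insert i R).card ≤ R.card := hmax (insert i R, π * Equiv.swap i j)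
        (Finset.mem_filter.2 ⟨Finset.mem_univ _, h1⟩)
      rw [Finset.card_insert_of_notMem hi] at h2
      omega
    · refine hne ?_
      rw [hM i (π j) hP hQ hab, zero_sub, neg_eq_zero, dot_sol (pb M R π) (fun i => a i) hblk hd2
        hg.2]
      refine Finset.sum_eq_zero fun x _ => ?_
      by_cases hx : a i = x
      · have h3 : (fun i' : {i' : {i // i ∈ R} // a i' = x} => M i'.1 (π j)) = 0 := by
          funext i'
          exact hM _ _ (hg.1 i'.1 i'.1.2).1 hQ fun h0 => hab (hx.trans (i'.2.symm.trans h0))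
        rw [show ((pb M R π).toSquareBlock (fun i => a i) x)⁻¹ *ᵥ
          (fun i' : {i' : {i // i ∈ R} // a i' = x} => M i'.1 (π j)) =
          ((pb M R π).toSquareBlock (fun i => a i) x)⁻¹ *ᵥ 0 by rw [h3], Matrix.mulVec_zero,
          dotProduct_zero]
      · have h3 : (fun i' : {i' : {i // i ∈ R} // a i' = x} => M i (π i'.1)) = 0 := by
          funext i'
          exact hM _ _ hP (hg.1 i'.1 i'.1.2).2.1 fun h0 =>
            hx (h0.trans ((hg.1 i'.1 i'.1.2).2.2.symm.trans i'.2))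
        rw [h3, zero_dotProduct]
  have hdet := det_eq M R π hg.2
  refine ⟨R, π, hg.1, ?_, hd2, ?_⟩
  · have hne : (of fun i j : {i // i ∉ R} => M i (π j) -
        (fun j' : {i // i ∈ R} => M i (π j')) ⬝ᵥ
          ((pb M R π)⁻¹ *ᵥ fun i' => M i'.1 (π j))).det ≠ 0 := by
      intro h0
      rw [h0, mul_zero] at hdet
      rcases mul_eq_zero.1 hdet with h1 | h1
      · rcases Int.units_eq_one_or (Equiv.Perm.sign π) with h2 | h2 <;> rw [h2] at h1 <;>
          simp at h1
      · exact hM0 h1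
    rw [det_apply] at hne
    obtain ⟨σ, -, hσ⟩ := Finset.exists_ne_zero_of_sum_ne_zero hne
    have hσ' : ∀ i : {i // i ∉ R}, P (σ i) → ¬ Q (π i) := by
      intro i h1 h2
      refine hσ ?_
      rw [Finset.prod_eq_zero (Finset.mem_univ i) (hS (σ i) i (σ i).2 i.2 h1 h2), smul_zero]
    have h3 : Rᶜ.card = (Finset.univ : Finset {i // i ∉ R}).card := by
      rw [Finset.card_univ, Fintype.card_subtype_compl, Fintype.card_coe, Finset.card_compl]
    rw [h3, ← Finset.card_filter_add_card_filter_not (fun i : {i // i ∉ R} => ¬ P (σ i))]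
    refine Nat.add_le_add ?_ ?_
    · refine Finset.card_le_card_of_injOn (fun i => (σ i : α)) (fun i hi => ?_)
        (fun i _ j _ hij => σ.injective (Subtype.ext hij))
      simpa using hi
    · refine Finset.card_le_card_of_injOn (fun i => π (i : α)) (fun i hi => ?_)
        (fun i _ j _ hij => Subtype.ext (π.injective hij))
      have h4 : P (σ i) := by simpa using hi
      simpa using hσ' i h4
  · rw [hdet, hd1]
    congr 2
    ext i j
    rw [of_apply, of_apply, dot_eq M R π a hblk hd2 hg.2 i j, Finset.sum_neg_distrib,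
      sub_neg_eq_add]



end main

end FR.LA81
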