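import Pool.Agent.Lib.MP_64d474_lc.FR.TDb81

/-!
# Row TD: determinants of bounded depth
-/

set_option autoImplicit false

namespace FR

namespace TD81

open MvPolynomial AK LS DF FR.LA81

/-- The statement for level `h`. -/
def Claim (F : Type*) [Field F] (n l c s e k D h : ℕ) : Prop :=
  ∀ A : Matrix (Fin l) (Fin l) (MvPolynomial (Fin n) F),
    (∀ i j, (A i j).support.card ≤ s ∧ ∀ x, (A i j).degreeOf x ≤ e) →
    (∀ x, (Finset.univ.filter fun p : Fin l × Fin l => (A p.1 p.2).degreeOf x ≠ 0).card ≤ k) →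
    ∀ (b : ℕ) (I J : Finset (Fin l)), c + b ≤ D → Deep c A (h + 1) I J →
    ∀ (α : Type) [Fintype α] [DecidableEq α] (ρ γ : α → Fin l), Function.Injective ρ →
      Function.Injective γ → (Finset.univ.filter fun i => ρ i ∉ I).card ≤ b →
      (Finset.univ.filter fun j => γ j ∉ J).card ≤ b →
      MLev 1 ((2 * D).factorial * s ^ (2 * D)) (4 * D ^ 2 + k + 2) (k * e) h
        (A.submatrix ρ γ).det

theorem cnt {l c b : ℕ} {α : Type} [Fintype α] {ρ : α → Fin l}
    (hρ : Function.Injective ρ) {I I' : Finset (Fin l)} (hc : (I \ I').card ≤ c)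
    (h : (Finset.univ.filter fun i => ρ i ∉ I).card ≤ b) :
    (Finset.univ.filter fun i => ¬ ρ i ∈ I').card ≤ c + b := by
  classical
  have h1 : (Finset.univ.filter fun i => ¬ ρ i ∈ I') ⊆
      (Finset.univ.filter fun i => ρ i ∈ I \ I') ∪ (Finset.univ.filter fun i => ρ i ∉ I) := by
    intro i hi
    have h2 := (Finset.mem_filter.1 hi).2
    by_cases h3 : ρ i ∈ I
    · exact Finset.mem_union_left _ (Finset.mem_filter.2 ⟨Finset.mem_univ _,
        Finset.mem_sdiff.2 ⟨h3, h2⟩⟩)
    · exact Finset.mem_union_right _ (Finset.mem_filter.2 ⟨Finset.mem_univ _, h3⟩)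
  refine (Finset.card_le_card h1).trans ((Finset.card_union_le _ _).trans ?_)
  refine Nat.add_le_add (le_trans ?_ hc) h
  exact Finset.card_le_card_of_injOn ρ
    (fun i hi => Finset.mem_coe.2 (Finset.mem_filter.1 (Finset.mem_coe.1 hi)).2)
    (fun i _ j _ hij => hρ hij)

theorem claim_zero {F : Type*} [Field F] {n l c s e k D : ℕ} (hs : 1 ≤ s) :
    Claim F n l c s e k D 0 := by
  classical
  intro A h1 h2 b I J hD hdeep α _ _ ρ γ hρ hγ hI hJ
  obtain ⟨I', J', a, b', hI', hJ', hcI, hcJ, hz, hx⟩ := hdeep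
  refine ⟨?_, fun x => minor_deg A x (fun i j => (h1 i j).2 x) (h2 x) ρ γ hγ⟩
  by_cases h0 : (A.submatrix ρ γ).det = 0
  · rw [h0]
    simp
  have hzero : ∀ i ∈ I', ∀ j ∈ J', A i j = 0 := by
    intro i hi j hj
    by_cases hab : a i = b' j
    · rcases hx (a i) with h3 | h3
      · have h4 : i ∈ I'.filter fun i_1 => a i_1 = a i := Finset.mem_filter.2 ⟨hi, rfl⟩
        rw [h3] at h4
        exact absurd h4 (Finset.notMem_empty i)
      · have h4 : j ∈ J'.filter fun j_1 => b' j_1 = a i := Finset.mem_filter.2 ⟨hj, hab.symm⟩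
        rw [h3] at h4
        exact absurd h4 (Finset.notMem_empty j)
    · exact hz i hi j hj hab
  have hdet : ((A.submatrix ρ γ).map em).det ≠ 0 := by
    have h3 := RingHom.map_det (em (F := F) (n := n)) (A.submatrix ρ γ)
    rw [RingHom.mapMatrix_apply] at h3
    rw [← h3]
    exact em_ne h0
  obtain ⟨R, π, hR, hcard, -, -⟩ := schur_blocks ((A.submatrix ρ γ).map em) hdet
    (fun i => ρ i ∈ I') (fun j => γ j ∈ J') (fun _ => 0) (fun _ => 1)
    (fun i j hi hj _ => by
      rw [Matrix.map_apply, Matrix.submatrix_apply, hzero _ hi _ hj, map_zero])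
  have hR0 : R = ∅ := by
    refine Finset.eq_empty_of_forall_notMem fun i hi => ?_
    have := (hR i hi).2.2
    omega
  rw [hR0, Finset.compl_empty, Finset.card_univ] at hcard
  have h4 : Fintype.card α ≤ 2 * D := by
    have h5 := cnt hρ hcI hI
    have h6 := cnt hγ hcJ hJ
    omega
  refine (det_supp _ s fun i j => (h1 _ _).1).trans ?_
  exact Nat.mul_le_mul (Nat.factorial_le h4) (Nat.pow_le_pow_right hs h4)

theorem locK_zero {F : Type*} [Field F] {n k e : ℕ} {P : MvPolynomial (Fin n) F → Prop} :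
    LocK 1 k e P 0 := by
  refine ⟨0, fun _ => 0, fun _ => 1, fun a => a.elim0, fun J _ => ?_, fun _ a => a.elim0, ?_⟩
  · simp
  · simp

theorem claim_succ {F : Type*} [Field F] {n l c s e k D h : ℕ} (hs : 1 ≤ s)
    (hk : 1 ≤ k) (hD : c + 1 ≤ D) (ih : Claim F n l c s e k D h) :
    Claim F n l c s e k D (h + 1) := by
  classical
  intro A h1 h2 b I J hDb hdeep α _ _ ρ γ hρ hγ hI hJ
  obtain ⟨I', J', a', b', hI', hJ', hcI, hcJ, hz, hx⟩ := hdeep
  by_cases h0 : (A.submatrix ρ γ).det = 0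
  · rw [h0]
    exact mlev_sparse (by omega) _ (by simp) (by simp)
  refine ⟨?_, fun x => minor_deg A x (fun i j => (h1 i j).2 x) (h2 x) ρ γ hγ⟩
  have hmd := RingHom.map_det (em (F := F) (n := n)) (A.submatrix ρ γ)
  rw [RingHom.mapMatrix_apply] at hmd
  have hdet : ((A.submatrix ρ γ).map em).det ≠ 0 := by
    rw [← hmd]
    exact em_ne h0
  obtain ⟨R, π, hR, hcard, hdx, hS⟩ := schur_blocks ((A.submatrix ρ γ).map em) hdet
    (fun i => ρ i ∈ I') (fun j => γ j ∈ J') (fun i => a' (ρ i)) (fun j => b' (γ j))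
    (fun i j hi hj hij => by
      rw [Matrix.map_apply, Matrix.submatrix_apply, hz _ hi _ hj hij, map_zero])
  set s' := (2 * D).factorial * s ^ (2 * D) with hs'
  set k' := 4 * D ^ 2 + k + 2 with hk'
  set P := MLev (F := F) (n := n) 1 s' k' (k * e) h with hP
  set M := (A.submatrix ρ γ).map (em (F := F) (n := n)) with hM
  set a : α → ℕ := fun i => a' (ρ i) with ha
  let V : ℕ → MvPolynomial (Fin n) F := fun x =>
    (A.submatrix (fun i : Ix R a x => ρ i.1) (fun j : Ix R a x => γ (π j.1))).det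
  let U : ℕ → α → α → MvPolynomial (Fin n) F := fun x i j =>
    ((zr A (ρ i) (γ (π j))).submatrix
      (Sum.elim (fun i' : Ix R a x => ρ i'.1) fun _ : Unit => ρ i)
      (Sum.elim (fun j' : Ix R a x => γ (π j'.1)) fun _ : Unit => γ (π j))).det
  have hVe : ∀ x, em (V x) = (pbx M R π a x).det := by
    intro x
    rw [RingHom.map_det]
    rfl
  have hUe : ∀ x i j, i ∉ R → j ∉ R → em (U x i j) = (bord M R π a x i j).det := by
    intro x i j hi hj
    rw [RingHom.map_det]
    congr 1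
    have hri : ∀ i' : Ix R a x, ρ i'.1 ≠ ρ i := fun i' h3 => hi (hρ h3 ▸ i'.1.2)
    have hrj : ∀ j' : Ix R a x, γ (π j'.1) ≠ γ (π j) := fun j' h3 =>
      hj (π.injective (hγ h3) ▸ j'.1.2)
    ext1 (i' | i') (j' | j')
    · show em (zr A (ρ i) (γ (π j)) (ρ i'.1) (γ (π j'.1))) = em (A (ρ i'.1) (γ (π j'.1)))
      rw [zr, if_neg fun h3 => hri i' h3.1]
    · show em (zr A (ρ i) (γ (π j)) (ρ i'.1) (γ (π j))) = em (A (ρ i'.1) (γ (π j)))
      rw [zr, if_neg fun h3 => hri i' h3.1]
    · show em (zr A (ρ i) (γ (π j)) (ρ i) (γ (π j'.1))) = em (A (ρ i) (γ (π j'.1)))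
      rw [zr, if_neg fun h3 => hrj j' h3.2]
    · show em (zr A (ρ i) (γ (π j)) (ρ i) (γ (π j))) = 0
      rw [zr, if_pos ⟨rfl, rfl⟩, map_zero]
  have hV0 : ∀ x, V x ≠ 0 := by
    intro x h3
    refine hdx x ?_
    rw [← hVe x, h3, map_zero]
  have hPV : ∀ x, P (V x) := by
    intro x
    refine ih A h1 h2 0 _ _ (by omega) (hx x) (Ix R a x) _ _
      (fun i j hij => Subtype.ext (Subtype.ext (hρ hij)))
      (fun i j hij => Subtype.ext (Subtype.ext (π.injective (hγ hij)))) ?_ ?_
    · rw [Nat.le_zero, Finset.card_eq_zero, Finset.filter_eq_empty_iff]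
      intro i _ h3
      exact h3 (Finset.mem_filter.2 ⟨(hR _ i.1.2).1, i.2⟩)
    · rw [Nat.le_zero, Finset.card_eq_zero, Finset.filter_eq_empty_iff]
      intro i _ h3
      exact h3 (Finset.mem_filter.2 ⟨(hR _ i.1.2).2.1, (hR _ i.1.2).2.2.symm.trans i.2⟩)
  have hPU : ∀ x i j, i ∉ R → j ∉ R → P (U x i j) := by
    intro x i j hi hj
    have hzor := zr_or A (ρ i) (γ (π j))
    refine ih (zr A (ρ i) (γ (π j))) (fun r t => ?_) (fun y => ?_) 1 _ _ hD
      (deep_zr hzor _ _ _ (hx x)) (Ix R a x ⊕ Unit) _ _ ?_ ?_ ?_ ?_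
    · rcases hzor r t with h3 | h3 <;> rw [h3]
      · simp
      · exact h1 r t
    · refine (Finset.card_le_card fun p hp => ?_).trans (h2 y)
      have h4 := (Finset.mem_filter.1 hp).2
      refine Finset.mem_filter.2 ⟨Finset.mem_univ _, ?_⟩
      rcases hzor p.1 p.2 with h3 | h3
      · rw [h3] at h4
        simp at h4
      · rwa [h3] at h4
    · rintro (i' | i') (j' | j') hij
      · exact congrArg Sum.inl (Subtype.ext (Subtype.ext (hρ hij)))
      · exact absurd (hρ hij ▸ i'.1.2) hi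
      · exact absurd ((hρ hij).symm ▸ j'.1.2) hi
      · rfl
    · rintro (i' | i') (j' | j') hij
      · exact congrArg Sum.inl (Subtype.ext (Subtype.ext (π.injective (hγ hij))))
      · exact absurd (π.injective (hγ hij) ▸ i'.1.2) hj
      · exact absurd ((π.injective (hγ hij)).symm ▸ j'.1.2) hj
      · rfl
    · refine (Finset.card_le_card (t := {Sum.inr ()}) fun z hz' => ?_).trans
        (le_of_eq (Finset.card_singleton _))
      rcases z with z | z
      · exact absurd (Finset.mem_filter.2 ⟨(hR _ z.1.2).1, z.2⟩) (Finset.mem_filter.1 hz').2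
      · exact Finset.mem_singleton_self _
    · refine (Finset.card_le_card (t := {Sum.inr ()}) fun z hz' => ?_).trans
        (le_of_eq (Finset.card_singleton _))
      rcases z with z | z
      · exact absurd (Finset.mem_filter.2 ⟨(hR _ z.1.2).2.1, (hR _ z.1.2).2.2.symm.trans z.2⟩)
          (Finset.mem_filter.1 hz').2
      · exact Finset.mem_singleton_self _
  have hD1 : 1 ≤ 2 * D := by omega
  have hPA : ∀ i j, P (A i j) := by
    intro i j
    refine mlev_sparse (by omega) h ((h1 i j).1.trans ?_) fun x => ((h1 i j).2 x).trans ?_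
    · calc s = s ^ 1 := (pow_one s).symm
        _ ≤ s ^ (2 * D) := Nat.pow_le_pow_right hs hD1
        _ ≤ s' := Nat.le_mul_of_pos_left _ (Nat.factorial_pos _)
    · exact Nat.le_mul_of_pos_left e hk
  have hcardR : Fintype.card {i // i ∉ R} ≤ 2 * D := by
    rw [Fintype.card_subtype_compl, Fintype.card_coe, ← Finset.card_compl]
    have h5 := cnt hρ hcI hI
    have h6 := cnt hγ hcJ hJ
    omega
  refine mixK_of (p := {i // i ∉ R}) (T := ∏ x ∈ R.image a, V x)
    (B := Matrix.of fun i j => A (ρ i) (γ (π j)))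
    (σ := fun i j => ∑ x ∈ R.image a, em (U x i j) / em (V x)) ?_ (fun i j => hPA _ _)
    (fun i j => ?_) locK_zero (Equiv.Perm.sign π) ?_ ?_
  · exact ⟨(R.image a).val.map V, fun p hp => by
      obtain ⟨x, _, rfl⟩ := Multiset.mem_map.1 hp
      exact hPV x, rfl⟩
  · refine locK_of (by omega) (R.image a) (fun x => U x i j) V hV0 (fun x => hPU x i j i.2 j.2)
      hPV fun y => ?_
    have hent : ∀ x ∈ (R.image a).filter (fun x => (U x i j).degreeOf y ≠ 0 ∨
        (V x).degreeOf y ≠ 0), ∃ p : Fin l × Fin l, (A p.1 p.2).degreeOf y ≠ 0 ∧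
        ((∃ i' ∈ R, a i' = x ∧ p.1 = ρ i') ∨
          (p.1 = ρ i ∧ ∃ j' ∈ R, a j' = x ∧ p.2 = γ (π j'))) := by
      intro x hx'
      rcases (Finset.mem_filter.1 hx').2 with h3 | h3
      · obtain ⟨i', j', h4⟩ := exists_entry _ y h3
        rw [Matrix.submatrix_apply] at h4
        rcases zr_or A (ρ i) (γ (π j)) (Sum.elim (fun i' : Ix R a x => ρ i'.1)
          (fun _ : Unit => ρ i) i') (Sum.elim (fun j' : Ix R a x => γ (π j'.1))
          (fun _ : Unit => γ (π j)) j') with h5 | h5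
        · rw [h5] at h4
          simp at h4
        · rw [h5] at h4
          rcases i' with i' | i'
          · exact ⟨(ρ i'.1, Sum.elim (fun j' : Ix R a x => γ (π j'.1))
              (fun _ : Unit => γ (π j)) j'), h4, Or.inl ⟨i'.1, i'.1.2, i'.2, rfl⟩⟩
          · rcases j' with j' | j'
            · exact ⟨(ρ i, γ (π j'.1)), h4, Or.inr ⟨rfl, j'.1, j'.1.2, j'.2, rfl⟩⟩
            · exfalso
              have h6 : zr A (ρ i) (γ (π j)) (ρ i) (γ (π j)) = 0 := by
                rw [zr, if_pos ⟨rfl, rfl⟩]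
              have h7 : A (ρ i) (γ (π j)) = 0 := h5.symm.trans h6
              refine h4 ?_
              show (A (ρ i) (γ (π j))).degreeOf y = 0
              rw [h7, degreeOf_zero]
      · obtain ⟨i', j', h4⟩ := exists_entry _ y h3
        exact ⟨(ρ i'.1, γ (π j'.1)), h4, Or.inl ⟨i'.1, i'.1.2, i'.2, rfl⟩⟩
    have : Nonempty (Fin l × Fin l) := ⟨(ρ i, ρ i)⟩
    choose! g hg1 hg2 using hent
    refine le_trans (Finset.card_le_card_of_injOn g (fun x hx' => ?_) fun x hx' z hz' hxz => ?_)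
      ((h2 y).trans (by omega))
    · exact Finset.mem_coe.2 (Finset.mem_filter.2 ⟨Finset.mem_univ _,
        hg1 x (Finset.mem_coe.1 hx')⟩)
    · rcases hg2 x (Finset.mem_coe.1 hx') with ⟨i1, hi1, ha1, hp1⟩ | ⟨hp1, j1, hj1, ha1, hq1⟩ <;>
      rcases hg2 z (Finset.mem_coe.1 hz') with ⟨i2, hi2, ha2, hp2⟩ | ⟨hp2, j2, hj2, ha2, hq2⟩
      · have h3 : i1 = i2 := hρ (by rw [← hp1, ← hp2, hxz])
        rw [← ha1, ← ha2, h3]
      · have h3 : i1 = i := hρ (by rw [← hp1, ← hp2, hxz])
        exact absurd (h3 ▸ hi1) i.2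
      · have h3 : i2 = i := hρ (by rw [← hp1, ← hp2, hxz])
        exact absurd (h3 ▸ hi2) i.2
      · have h3 : j1 = j2 := π.injective (hγ (by rw [← hq1, ← hq2, hxz]))
        rw [← ha1, ← ha2, h3]
  · have h3 := Nat.mul_le_mul hcardR hcardR
    have h4 : 2 * D * (2 * D) = 4 * D ^ 2 := by ring
    omega
  · rw [hmd, hS]
    have h3 : em (∏ x ∈ R.image a, V x) = ∏ x ∈ R.image a, (pbx M R π a x).det := by
      rw [map_prod]
      exact Finset.prod_congr rfl fun x _ => hVe x
    rw [h3]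
    congr 2
    ext i j
    rw [Matrix.of_apply, Matrix.of_apply]
    refine congrArg₂ (· + ·) rfl (Finset.sum_congr rfl fun x _ => ?_)
    rw [hVe x, hUe x i j i.2 j.2]

theorem claim_all {F : Type*} [Field F] {n l c s e k D : ℕ} (hs : 1 ≤ s)
    (hk : 1 ≤ k) : ∀ h : ℕ, (h = 0 ∨ c + 1 ≤ D) → Claim F n l c s e k D h := by
  intro h
  induction h with
  | zero => exact fun _ => claim_zero hs
  | succ h ih =>
    intro h1
    have h2 : c + 1 ≤ D := by omega
    exact claim_succ hs hk h2 (ih (Or.inr h2))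

end TD81

open MvPolynomial in
/-- Row TD. -/
theorem deep_mlev {F : Type*} [Field F] {n l c h s e k : ℕ} (hs : 1 ≤ s) (_he : 1 ≤ e) (hk : 1 ≤ k)
    (A : Matrix (Fin l) (Fin l) (MvPolynomial (Fin n) F))
    (h1 : ∀ i j, (A i j).support.card ≤ s ∧ ∀ x, (A i j).degreeOf x ≤ e)
    (h2 : ∀ x, (Finset.univ.filter fun p : Fin l × Fin l =>
      (A p.1 p.2).degreeOf x ≠ 0).card ≤ k)
    (h3 : Deep c A (h + 1) Finset.univ Finset.univ) :
    MLev 1 ((2 * (c + h)).factorial * s ^ (2 * (c + h))) (4 * (c + h) ^ 2 + k + 2) (k * e) h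
      A.det :=
  TD81.claim_all hs hk h (by omega) A h1 h2 0 Finset.univ Finset.univ (by omega) h3 (Fin l)
    id id Function.injective_id Function.injective_id (by simp) (by simp)

end FR
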