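import Pool.Agent.Lib.MP_64d474_lc.FR.Defs15

/-!
# Row TDS: sizes of determinants
-/

set_option autoImplicit false

namespace FR

open MvPolynomial AK LS DF

theorem card_support_mul {F : Type*} [Field F] {n : ℕ} (p q : MvPolynomial (Fin n) F) :
    (p * q).support.card ≤ p.support.card * q.support.card := by
  classical
  exact (Finset.card_le_card (MvPolynomial.support_mul p q)).trans Finset.card_add_le

theorem card_support_prod {F : Type*} [Field F] {n s : ℕ} {ι : Type} (S : Finset ι)
    (f : ι → MvPolynomial (Fin n) F) (h : ∀ i, (f i).support.card ≤ s) :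
    (∏ i ∈ S, f i).support.card ≤ s ^ S.card := by
  classical
  induction S using Finset.induction_on with
  | empty =>
    rw [Finset.prod_empty, Finset.card_empty, pow_zero, ← MvPolynomial.C_1]
    exact (Finset.card_le_card (MvPolynomial.support_monomial_subset (s := 0) (a := (1 : F)))).trans
      (by simp)
  | insert i S hi ih =>
    rw [Finset.prod_insert hi, Finset.card_insert_of_notMem hi, pow_succ, mul_comm (s ^ S.card)]
    exact (card_support_mul _ _).trans (Nat.mul_le_mul (h i) ih)

theorem support_smul_sign {F : Type*} [Field F] {n : ℕ} (u : ℤˣ) (p : MvPolynomial (Fin n) F) :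
    (u • p).support = p.support := by
  rcases Int.units_eq_one_or u with h | h
  · rw [h, one_smul]
  · rw [h, Units.neg_smul, one_smul, MvPolynomial.support_neg]

/-- Row TDS: sizes of determinants. -/
theorem support_det {F : Type*} [Field F] {n s : ℕ} {ι : Type} [Fintype ι] [DecidableEq ι]
    (M : Matrix ι ι (MvPolynomial (Fin n) F)) (h : ∀ i j, (M i j).support.card ≤ s) :
    M.det.support.card ≤ (Fintype.card ι).factorial * s ^ Fintype.card ι := by
  classical
  rw [Matrix.det_apply]
  refine (Finset.card_le_card MvPolynomial.support_sum).trans ?_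
  refine (Finset.card_biUnion_le_card_mul _ _ (s ^ Fintype.card ι) fun σ _ => ?_).trans ?_
  · rw [support_smul_sign]
    exact card_support_prod Finset.univ _ fun i => h _ _
  · rw [Finset.card_univ, Fintype.card_perm]

theorem degreeOf_smul_sign {F : Type*} [Field F] {n : ℕ} (x : Fin n) (u : ℤˣ)
    (p : MvPolynomial (Fin n) F) : (u • p).degreeOf x = p.degreeOf x := by
  rcases Int.units_eq_one_or u with h | h
  · rw [h, one_smul]
  · rw [h, Units.neg_smul, one_smul, MvPolynomial.degreeOf_neg]

/-- Row TDS: a minor has degree at most `k e` in a variable that occurs in at most `k`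
entries, with degree at most `e`. -/
theorem degreeOf_minor {F : Type*} [Field F] {n l k e : ℕ} {ι : Type} [Fintype ι] [DecidableEq ι]
    (A : Matrix (Fin l) (Fin l) (MvPolynomial (Fin n) F)) (x : Fin n)
    (h1 : ∀ i j, (A i j).degreeOf x ≤ e)
    (h2 : (Finset.univ.filter fun p : Fin l × Fin l => (A p.1 p.2).degreeOf x ≠ 0).card ≤ k)
    (f g : ι → Fin l) (hf : Function.Injective f) :
    (A.submatrix f g).det.degreeOf x ≤ k * e := by
  classical
  rw [Matrix.det_apply]
  refine (degreeOf_sum_le x _ _).trans ?_
  rw [Finset.sup_le_iff]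
  intro σ _
  rw [degreeOf_smul_sign]
  refine (degreeOf_prod_le x _ _).trans ?_
  have h3 : (∑ i, ((A.submatrix f g) (σ i) i).degreeOf x) ≤
      ∑ i, if (A (f (σ i)) (g i)).degreeOf x ≠ 0 then e else 0 := by
    refine Finset.sum_le_sum fun i _ => ?_
    rw [Matrix.submatrix_apply]
    split
    · exact h1 _ _
    · next h =>
      rw [not_not] at h
      rw [h]
  refine h3.trans ?_
  rw [← Finset.sum_filter, Finset.sum_const, smul_eq_mul]
  refine Nat.mul_le_mul_right _ (le_trans ?_ h2)
  refine Finset.card_le_card_of_injOn (fun i => (f (σ i), g i)) ?_ ?_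
  · intro i hi
    rw [Finset.mem_coe, Finset.mem_filter] at hi ⊢
    exact ⟨Finset.mem_univ _, hi.2⟩
  · intro i _ j _ hij
    exact σ.injective (hf (Prod.mk.inj hij).1)

/-- Row TDS: a variable of a determinant is a variable of an entry. -/
theorem exists_entry {F : Type*} [Field F] {n : ℕ} {ι : Type} [Fintype ι] [DecidableEq ι]
    (M : Matrix ι ι (MvPolynomial (Fin n) F)) (x : Fin n) (h : M.det.degreeOf x ≠ 0) :
    ∃ i j, (M i j).degreeOf x ≠ 0 := by
  classical
  by_contra hcon
  push Not at hcon
  apply h
  rw [← Nat.le_zero, Matrix.det_apply]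
  refine (degreeOf_sum_le x _ _).trans ?_
  rw [Finset.sup_le_iff]
  intro σ _
  rw [degreeOf_smul_sign]
  refine (degreeOf_prod_le x _ _).trans ?_
  rw [Finset.sum_eq_zero fun i _ => hcon _ _]

end FR
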