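import Mathlib

/-!
# Row TDS: sizes of determinants
-/

set_option autoImplicit false

namespace FR

open MvPolynomial

namespace TDS99

theorem support_smul_unit {F : Type*} [Field F] {n : ℕ} (ε : ℤˣ) (f : MvPolynomial (Fin n) F) :
    (ε • f).support = f.support := by
  rcases Int.units_eq_one_or ε with h | h <;> rw [h]
  · rw [one_smul]
  · rw [Units.neg_smul, one_smul, MvPolynomial.support_neg]

theorem degreeOf_smul_unit {F : Type*} [Field F] {n : ℕ} (ε : ℤˣ) (f : MvPolynomial (Fin n) F)
    (x : Fin n) : (ε • f).degreeOf x = f.degreeOf x := by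
  rcases Int.units_eq_one_or ε with h | h <;> rw [h]
  · rw [one_smul]
  · rw [Units.neg_smul, one_smul, MvPolynomial.degreeOf_neg]

theorem support_prod {F : Type*} [Field F] {n s : ℕ} {ι : Type*} (S : Finset ι)
    (f : ι → MvPolynomial (Fin n) F) (h : ∀ i ∈ S, (f i).support.card ≤ s) :
    (∏ i ∈ S, f i).support.card ≤ s ^ S.card := by
  classical
  induction S using Finset.induction_on with
  | empty =>
    rw [Finset.prod_empty, Finset.card_empty, pow_zero]
    rw [MvPolynomial.support_one, Finset.card_singleton]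
  | insert a S ha ih =>
    rw [Finset.prod_insert ha, Finset.card_insert_of_notMem ha, pow_succ, mul_comm (s ^ S.card)]
    refine (Finset.card_le_card (MvPolynomial.support_mul _ _)).trans ?_
    refine Finset.card_add_le.trans ?_
    exact Nat.mul_le_mul (h a (Finset.mem_insert_self _ _))
      (ih fun i hi => h i (Finset.mem_insert_of_mem hi))

end TDS99

/-- Row TDS (99): sizes of determinants. -/
theorem support_det {F : Type*} [Field F] {n s : ℕ} {ι : Type} [Fintype ι] [DecidableEq ι]
    (M : Matrix ι ι (MvPolynomial (Fin n) F)) (h : ∀ i j, (M i j).support.card ≤ s) :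
    M.det.support.card ≤ (Fintype.card ι).factorial * s ^ Fintype.card ι := by
  classical
  rw [Matrix.det_apply]
  have h1 : (∑ σ : Equiv.Perm ι, Equiv.Perm.sign σ • ∏ i, M (σ i) i).support ⊆
      Finset.univ.biUnion fun σ : Equiv.Perm ι => (∏ i, M (σ i) i).support := by
    refine (MvPolynomial.support_sum).trans ?_
    intro m hm
    rw [Finset.mem_biUnion] at hm ⊢
    obtain ⟨σ, hσ, hm⟩ := hm
    rw [TDS99.support_smul_unit] at hm
    exact ⟨σ, hσ, hm⟩
  refine (Finset.card_le_card h1).trans (Finset.card_biUnion_le.trans ?_)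
  refine (Finset.sum_le_card_nsmul _ _ (s ^ Fintype.card ι) fun σ _ => ?_).trans ?_
  · exact TDS99.support_prod Finset.univ (fun i => M (σ i) i) fun i _ => h _ _
  · rw [Finset.card_univ, Fintype.card_perm, smul_eq_mul]

/-- Row TDS (99): a minor has degree at most `k e` in a variable that occurs in at most `k`
entries, with degree at most `e`. -/
theorem degreeOf_minor {F : Type*} [Field F] {n l k e : ℕ} {ι : Type} [Fintype ι] [DecidableEq ι]
    (A : Matrix (Fin l) (Fin l) (MvPolynomial (Fin n) F)) (x : Fin n)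
    (h1 : ∀ i j, (A i j).degreeOf x ≤ e)
    (h2 : (Finset.univ.filter fun p : Fin l × Fin l => (A p.1 p.2).degreeOf x ≠ 0).card ≤ k)
    (f g : ι → Fin l) (hf : Function.Injective f) :
    (A.submatrix f g).det.degreeOf x ≤ k * e := by
  classical
  rw [Matrix.det_apply]
  refine (MvPolynomial.degreeOf_sum_le x _ _).trans (Finset.sup_le fun σ _ => ?_)
  rw [TDS99.degreeOf_smul_unit]
  refine (MvPolynomial.degreeOf_prod_le x _ _).trans ?_
  have h3 : ∑ i, ((A.submatrix f g) (σ i) i).degreeOf x =
      ∑ i ∈ Finset.univ.filter (fun i => (A (f (σ i)) (g i)).degreeOf x ≠ 0),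
        (A (f (σ i)) (g i)).degreeOf x := by
    rw [Finset.sum_filter]
    refine Finset.sum_congr rfl fun i _ => ?_
    rw [Matrix.submatrix_apply]
    split_ifs with h0
    · rfl
    · exact not_not.1 h0
  rw [h3]
  refine (Finset.sum_le_card_nsmul _ _ e fun i _ => h1 _ _).trans ?_
  rw [smul_eq_mul]
  refine Nat.mul_le_mul_right e (le_trans ?_ h2)
  refine Finset.card_le_card_of_injOn (fun i => (f (σ i), g i)) ?_ ?_
  · intro i hi
    rw [Finset.mem_coe, Finset.mem_filter] at hi ⊢
    exact ⟨Finset.mem_univ _, hi.2⟩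
  · intro i _ j _ hij
    exact σ.injective (hf (congrArg Prod.fst hij))

/-- Row TDS (99): a variable of a determinant is a variable of an entry. -/
theorem exists_entry {F : Type*} [Field F] {n : ℕ} {ι : Type} [Fintype ι] [DecidableEq ι]
    (M : Matrix ι ι (MvPolynomial (Fin n) F)) (x : Fin n) (h : M.det.degreeOf x ≠ 0) :
    ∃ i j, (M i j).degreeOf x ≠ 0 := by
  classical
  by_contra hcon
  push_neg at hcon
  refine h (Nat.le_zero.1 ?_)
  rw [Matrix.det_apply]
  refine (MvPolynomial.degreeOf_sum_le x _ _).trans (Finset.sup_le fun σ _ => ?_)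
  rw [TDS99.degreeOf_smul_unit]
  refine (MvPolynomial.degreeOf_prod_le x _ _).trans ?_
  rw [Finset.sum_eq_zero fun i _ => hcon _ _]

end FR
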