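import Pool.Agent.Lib.MP_64d474_lc.FR.Defs15

/-!
# Deep matrices: monotonicity, trivial members of the levels, sums over finite types
-/

set_option autoImplicit false

namespace FR

open MvPolynomial AK LS DF

section deep

variable {F : Type*} [Field F] {n l : ℕ}

theorem deep_mono {c c' : ℕ} (hc : c ≤ c')
    {A A' : Matrix (Fin l) (Fin l) (MvPolynomial (Fin n) F)} (hA : ∀ p q, A p q = 0 → A' p q = 0)
    {h : ℕ} : ∀ {I J I₀ J₀ : Finset (Fin l)}, I₀ ⊆ I → J₀ ⊆ J → Deep c A h I J →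
      Deep c' A' h I₀ J₀ := by
  induction h with
  | zero =>
    intro I J I₀ J₀ hI hJ h
    rcases h with h | h
    · exact Or.inl (Finset.subset_empty.1 (h ▸ hI))
    · exact Or.inr (Finset.subset_empty.1 (h ▸ hJ))
  | succ h ih =>
    intro I J I₀ J₀ hI hJ hd
    obtain ⟨I', J', a, b, h1, h2, h3, h4, h5, h6⟩ := hd
    refine ⟨I₀ ∩ I', J₀ ∩ J', a, b, Finset.inter_subset_left, Finset.inter_subset_left, ?_, ?_,
      fun i hi j hj hab => hA _ _ (h5 i (Finset.mem_inter.1 hi).2 j (Finset.mem_inter.1 hj).2 hab),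
      fun x => ih (Finset.filter_subset_filter _ Finset.inter_subset_right)
        (Finset.filter_subset_filter _ Finset.inter_subset_right) (h6 x)⟩
    · refine (Finset.card_le_card fun i hi => ?_).trans (h3.trans hc)
      rw [Finset.mem_sdiff, Finset.mem_inter] at hi
      exact Finset.mem_sdiff.2 ⟨hI hi.1, fun h => hi.2 ⟨hi.1, h⟩⟩
    · refine (Finset.card_le_card fun i hi => ?_).trans (h4.trans hc)
      rw [Finset.mem_sdiff, Finset.mem_inter] at hi
      exact Finset.mem_sdiff.2 ⟨hJ hi.1, fun h => hi.2 ⟨hi.1, h⟩⟩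

theorem deep_insert {c h : ℕ} {A A' : Matrix (Fin l) (Fin l) (MvPolynomial (Fin n) F)}
    (hA : ∀ p q, A p q = 0 → A' p q = 0) {I J : Finset (Fin l)} (i j : Fin l)
    (hd : Deep c A (h + 1) I J) : Deep (c + 1) A' (h + 1) (insert i I) (insert j J) := by
  obtain ⟨I', J', a, b, h1, h2, h3, h4, h5, h6⟩ := hd
  refine ⟨I', J', a, b, h1.trans (Finset.subset_insert _ _), h2.trans (Finset.subset_insert _ _),
    ?_, ?_, fun i hi j hj hab => hA _ _ (h5 i hi j hj hab),
    fun x => deep_mono (Nat.le_succ c) hA subset_rfl subset_rfl (h6 x)⟩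
  · refine (Finset.card_le_card (t := insert i (I \ I')) fun x hx => ?_).trans
      ((Finset.card_insert_le _ _).trans (Nat.succ_le_succ h3))
    rw [Finset.mem_sdiff, Finset.mem_insert] at hx
    rw [Finset.mem_insert, Finset.mem_sdiff]
    rcases hx with ⟨rfl | hx, hx'⟩
    · exact Or.inl rfl
    · exact Or.inr ⟨hx, hx'⟩
  · refine (Finset.card_le_card (t := insert j (J \ J')) fun x hx => ?_).trans
      ((Finset.card_insert_le _ _).trans (Nat.succ_le_succ h4))
    rw [Finset.mem_sdiff, Finset.mem_insert] at hx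
    rw [Finset.mem_insert, Finset.mem_sdiff]
    rcases hx with ⟨rfl | hx, hx'⟩
    · exact Or.inl rfl
    · exact Or.inr ⟨hx, hx'⟩

end deep

section lev

variable {F : Type*} [Field F] {n : ℕ} {P : MvPolynomial (Fin n) F → Prop}

theorem isProdK_self {p : MvPolynomial (Fin n) F} (h : P p) : IsProdK P p :=
  ⟨{p}, fun q hq => by rw [Multiset.mem_singleton] at hq; exact hq ▸ h, by simp⟩

theorem isProdK_prod {ι : Type} (s : Finset ι) (f : ι → MvPolynomial (Fin n) F)
    (h : ∀ i ∈ s, P (f i)) : IsProdK P (∏ i ∈ s, f i) := by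
  refine ⟨s.val.map f, fun q hq => ?_, rfl⟩
  obtain ⟨i, hi, rfl⟩ := Multiset.mem_map.1 hq
  exact h i hi

theorem algF_fin {K m : ℕ} (hK : m ≤ K) (T : Fin m → MvPolynomial (Fin n) F)
    (hT : ∀ j, IsProdK P (T j)) (G : Set (MvPolynomial (Fin n) F))
    (hG : G ⊆ (Algebra.adjoin F (Set.range T) : Set (MvPolynomial (Fin n) F))) : AlgF K P G :=
  ⟨m, T, hT, fun s _ => ((Finset.card_le_univ s).trans_eq (Fintype.card_fin m)).trans hK, hG⟩

theorem algF_pair {K : ℕ} (hK : 2 ≤ K) {u v : MvPolynomial (Fin n) F} (hu : P u) (hv : P v) :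
    AlgF K P {u, v} := by
  refine algF_fin hK ![u, v] (fun j => ?_) _ ?_
  · refine Fin.cases ?_ (fun j => ?_) j
    · exact isProdK_self hu
    · rw [Subsingleton.elim j 0]
      exact isProdK_self hv
  · intro g hg
    rcases hg with rfl | hg
    · exact Algebra.subset_adjoin ⟨0, rfl⟩
    · rw [Set.mem_singleton_iff.1 hg]
      exact Algebra.subset_adjoin ⟨1, rfl⟩

theorem algF_self_one {K : ℕ} (hK : 2 ≤ K) {u : MvPolynomial (Fin n) F} (hu : P u) :
    AlgF K P {u, 1} := by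
  refine algF_fin (m := 1) (by omega) (fun _ => u) (fun _ => isProdK_self hu) _ ?_
  intro g hg
  rcases hg with rfl | hg
  · exact Algebra.subset_adjoin ⟨0, rfl⟩
  · rw [Set.mem_singleton_iff.1 hg]
    exact Subalgebra.one_mem _

theorem locK_zero {r k e : ℕ} : LocK r k e P (0 : RF n F) :=
  ⟨0, fun a => a.elim0, fun a => a.elim0, fun a => a.elim0, fun _ _ => by simp,
    fun _ a => a.elim0, by simp⟩

theorem locK_fin {k e : ℕ} {ι : Type} [Fintype ι] (u v : ι → MvPolynomial (Fin n) F)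
    (hv : ∀ a, v a ≠ 0 ∧ AlgF k P {u a, v a})
    (hc : ∀ x, ∃ S : Finset ι, S.card ≤ k ∧
      ∀ a, (u a).degreeOf x ≠ 0 ∨ (v a).degreeOf x ≠ 0 → a ∈ S) :
    LocK 1 k e P (∑ a, em (u a) / em (v a)) := by
  classical
  let E := Fintype.equivFin ι
  refine ⟨Fintype.card ι, u ∘ E.symm, v ∘ E.symm, fun a => hv _, fun J hJ => ?_,
    fun h => absurd h (lt_irrefl 1), ?_⟩
  · obtain ⟨x, rfl⟩ := Finset.card_eq_one.1 hJ
    obtain ⟨S, hS, hS'⟩ := hc x
    refine (Finset.card_le_card (t := S.map E.toEmbedding) fun a ha => ?_).trans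
      ((Finset.card_map _).trans_le hS)
    rw [Finset.mem_filter] at ha
    rw [Finset.mem_map]
    exact ⟨E.symm a, hS' _ (ha.2 x (Finset.mem_singleton_self x)), by simp⟩
  · exact (Equiv.sum_comp E.symm (fun a => em (u a) / em (v a))).symm

theorem mixK_zero {r k e : ℕ} : MixK r k e P (0 : MvPolynomial (Fin n) F) := by
  refine ⟨fun _ => 0, 0, 1, one_ne_zero, fun _ => locK_zero, fun j => by simp, ?_, by simp⟩
  refine algF_fin (m := 0) (Nat.zero_le _) (fun a => a.elim0) (fun a => a.elim0) _ ?_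
  intro g hg
  rcases hg with rfl | ⟨μ, rfl⟩
  · exact Subalgebra.one_mem _
  · rw [coeff_zero]
    exact Subalgebra.zero_mem _

theorem mixK_self {r k e : ℕ} (hk : 1 ≤ k) {f : MvPolynomial (Fin n) F} (hf : P f) :
    MixK r k e P f := by
  classical
  refine ⟨fun _ => 0, C f, 1, one_ne_zero, fun _ => locK_zero, fun j => ?_, ?_, ?_⟩
  · rw [degreeOf_C]; exact Nat.zero_le _
  · refine algF_fin (m := 1) hk (fun _ => f) (fun _ => isProdK_self hf) _ ?_
    intro g hg
    rcases hg with rfl | ⟨μ, rfl⟩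
    · exact Subalgebra.one_mem _
    · rw [coeff_C]
      split_ifs
      · exact Algebra.subset_adjoin ⟨0, rfl⟩
      · exact Subalgebra.zero_mem _
  · rw [map_one, one_mul, eval₂_C]

theorem mixK_neg {r k e : ℕ} {f : MvPolynomial (Fin n) F} (h : MixK r k e P f) :
    MixK r k e P (-f) := by
  obtain ⟨σ, Q, w, h0, h1, h2, ⟨m, T, h3, h4, h5⟩, h6⟩ := h
  refine ⟨σ, -Q, w, h0, h1, fun j => by rw [degreeOf_neg]; exact h2 j, ⟨m, T, h3, h4, ?_⟩, ?_⟩
  · intro g hg
    rcases hg with rfl | ⟨μ, rfl⟩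
    · exact h5 (Or.inl rfl)
    · rw [coeff_neg]
      exact neg_mem (h5 (Or.inr ⟨μ, rfl⟩))
  · rw [map_neg, mul_neg, h6]
    exact (map_neg (eval₂Hom em σ) Q).symm

theorem mlev_zero {r s k e : ℕ} : ∀ t, MLev r s k e t (0 : MvPolynomial (Fin n) F)
  | 0 => ⟨by simp, fun i => by simp⟩
  | _ + 1 => ⟨mixK_zero, fun i => by simp⟩

theorem mlev_neg {r s k e : ℕ} {f : MvPolynomial (Fin n) F} :
    ∀ {t}, MLev r s k e t f → MLev r s k e t (-f)
  | 0, h => ⟨by rw [support_neg]; exact h.1, fun i => by rw [degreeOf_neg]; exact h.2 i⟩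
  | _ + 1, h => ⟨mixK_neg h.1, fun i => by rw [degreeOf_neg]; exact h.2 i⟩

theorem mlev_base {r s k e : ℕ} (hk : 1 ≤ k) {f : MvPolynomial (Fin n) F}
    (h1 : f.support.card ≤ s) (h2 : ∀ i, f.degreeOf i ≤ e) : ∀ t, MLev r s k e t f
  | 0 => ⟨h1, h2⟩
  | t + 1 => ⟨mixK_self hk (mlev_base hk h1 h2 t), h2⟩

end lev

end FR
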