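import Pool.Agent.Lib.MP_64d474_lc.FR.Defs15
import Pool.Agent.Lib.MP_64d474_lc.FR.LA81

/-!
# Row TD: lemmas
-/

set_option autoImplicit false

namespace FR

namespace TD81

open MvPolynomial AK LS DF FR.LA81
open scoped Pointwise

section small

variable {R τ : Type*} [CommRing R] {ι : Type*} [Fintype ι] [DecidableEq ι]

theorem det_deg (M : Matrix ι ι (MvPolynomial τ R)) (x : τ) (B : ℕ)
    (h : ∀ σ : Equiv.Perm ι, ∑ i, (M (σ i) i).degreeOf x ≤ B) : M.det.degreeOf x ≤ B := by
  rw [Matrix.det_apply]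
  refine (degreeOf_sum_le _ _ _).trans (Finset.sup_le fun σ _ => ?_)
  have h1 : (Equiv.Perm.sign σ • ∏ i, M (σ i) i).degreeOf x ≤ (∏ i, M (σ i) i).degreeOf x := by
    rcases Int.units_eq_one_or (Equiv.Perm.sign σ) with h2 | h2 <;> rw [h2]
    · rw [one_smul]
    · rw [Units.neg_smul, one_smul, degreeOf_neg]
  exact h1.trans ((degreeOf_prod_le _ _ _).trans (h σ))

theorem card_support_prod {κ : Type*} (t : Finset κ) (f : κ → MvPolynomial τ R) (s : ℕ)
    (h : ∀ i ∈ t, (f i).support.card ≤ s) : (∏ i ∈ t, f i).support.card ≤ s ^ t.card := by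
  classical
  induction t using Finset.induction_on with
  | empty =>
    rw [Finset.prod_empty, Finset.card_empty, pow_zero, ← C_1, C_apply]
    refine (Finset.card_le_card support_monomial_subset).trans ?_
    rw [Finset.card_singleton]
  | insert a t ha ih =>
    rw [Finset.prod_insert ha, Finset.card_insert_of_notMem ha, pow_succ']
    refine (Finset.card_le_card (support_mul _ _)).trans (Finset.card_add_le.trans ?_)
    exact Nat.mul_le_mul (h a (Finset.mem_insert_self a t))
      (ih fun i hi => h i (Finset.mem_insert_of_mem hi))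

theorem det_supp (M : Matrix ι ι (MvPolynomial τ R)) (s : ℕ)
    (h : ∀ i j, (M i j).support.card ≤ s) :
    M.det.support.card ≤ (Fintype.card ι).factorial * s ^ Fintype.card ι := by
  classical
  rw [Matrix.det_apply]
  refine (Finset.card_le_card support_sum).trans ?_
  refine (Finset.card_biUnion_le_card_mul _ _ (s ^ Fintype.card ι) fun σ _ => ?_).trans ?_
  · have h1 : (Equiv.Perm.sign σ • ∏ i, M (σ i) i).support ⊆ (∏ i, M (σ i) i).support := by
      rcases Int.units_eq_one_or (Equiv.Perm.sign σ) with h2 | h2 <;> rw [h2]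
      · rw [one_smul]
      · rw [Units.neg_smul, one_smul, support_neg]
    refine (Finset.card_le_card h1).trans ?_
    exact card_support_prod Finset.univ _ s fun i _ => h _ _
  · rw [Finset.card_univ, Fintype.card_perm]

theorem exists_entry (M : Matrix ι ι (MvPolynomial τ R)) (x : τ) (h : M.det.degreeOf x ≠ 0) :
    ∃ i j, (M i j).degreeOf x ≠ 0 := by
  by_contra h1
  push Not at h1
  refine h (Nat.le_zero.1 (det_deg M x 0 fun σ => ?_))
  rw [Finset.sum_eq_zero fun i _ => h1 (σ i) i]

theorem minor_deg {l k e : ℕ} (A : Matrix (Fin l) (Fin l) (MvPolynomial τ R)) (x : τ)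
    (h1 : ∀ i j, (A i j).degreeOf x ≤ e)
    (h2 : (Finset.univ.filter fun p : Fin l × Fin l => (A p.1 p.2).degreeOf x ≠ 0).card ≤ k)
    (f g : ι → Fin l) (hg : Function.Injective g) :
    (A.submatrix f g).det.degreeOf x ≤ k * e := by
  classical
  refine det_deg _ x _ fun σ => ?_
  have h3 : ∑ i, ((A.submatrix f g) (σ i) i).degreeOf x =
      ∑ i ∈ Finset.univ.filter (fun i => ((A.submatrix f g) (σ i) i).degreeOf x ≠ 0),
        ((A.submatrix f g) (σ i) i).degreeOf x := (Finset.sum_filter_ne_zero _).symm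
  rw [h3]
  refine (Finset.sum_le_card_nsmul _ _ e fun i _ => h1 _ _).trans ?_
  rw [smul_eq_mul]
  refine Nat.mul_le_mul_right _ (le_trans ?_ h2)
  refine Finset.card_le_card_of_injOn (fun i => (f (σ i), g i)) (fun i hi => ?_)
    (fun i _ j _ hij => hg (Prod.ext_iff.1 hij).2)
  exact Finset.mem_coe.2 (Finset.mem_filter.2 ⟨Finset.mem_univ _,
    (Finset.mem_filter.1 (Finset.mem_coe.1 hi)).2⟩)

end small

section zr

variable {F : Type*} [Field F] {n l : ℕ}

/-- One entry is replaced by zero. -/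
noncomputable def zr (A : Matrix (Fin l) (Fin l) (MvPolynomial (Fin n) F)) (r₀ s₀ : Fin l) :
    Matrix (Fin l) (Fin l) (MvPolynomial (Fin n) F) :=
  fun r s => if r = r₀ ∧ s = s₀ then 0 else A r s

theorem zr_or (A : Matrix (Fin l) (Fin l) (MvPolynomial (Fin n) F)) (r₀ s₀ r s : Fin l) :
    zr A r₀ s₀ r s = 0 ∨ zr A r₀ s₀ r s = A r s := by
  unfold zr
  split_ifs
  · exact Or.inl rfl
  · exact Or.inr rfl

theorem deep_zr {c : ℕ} {A B : Matrix (Fin l) (Fin l) (MvPolynomial (Fin n) F)}
    (hB : ∀ r s, B r s = 0 ∨ B r s = A r s) (h : ℕ) : ∀ I J, Deep c A h I J → Deep c B h I J := by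
  induction h with
  | zero => exact fun I J hd => hd
  | succ h ih =>
    rintro I J ⟨I', J', a, b, h1, h2, h3, h4, h5, h6⟩
    refine ⟨I', J', a, b, h1, h2, h3, h4, fun i hi j hj hij => ?_, fun x => ih _ _ (h6 x)⟩
    rcases hB i j with h7 | h7
    · exact h7
    · rw [h7, h5 i hi j hj hij]

theorem mlev_sparse {r s k e : ℕ} (hk : 1 ≤ k) (t : ℕ) {f : MvPolynomial (Fin n) F}
    (hs : f.support.card ≤ s) (he : ∀ i, f.degreeOf i ≤ e) : MLev r s k e t f := by
  induction t with
  | zero => exact ⟨hs, he⟩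
  | succ t ih =>
    refine ⟨⟨fun _ => 0, C f, 1, one_ne_zero, fun j => ?_, fun j => ?_, ?_, ?_⟩, he⟩
    · refine ⟨0, fun _ => 0, fun _ => 1, fun a => a.elim0, fun J _ => ?_, fun _ a => a.elim0, ?_⟩
      · simp
      · simp
    · rw [degreeOf_C]
      exact Nat.zero_le _
    · refine ⟨1, fun _ => f, fun _ => ⟨{f}, fun p hp => ?_, ?_⟩, fun S _ => ?_, ?_⟩
      · rw [Multiset.mem_singleton.1 hp]
        exact ih
      · rw [Multiset.prod_singleton]
      · exact (Finset.card_le_univ S).trans (by rw [Fintype.card_fin]; exact hk)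
      · intro g hg
        rcases Set.mem_insert_iff.1 hg with rfl | ⟨μ, rfl⟩
        · exact Subalgebra.one_mem _
        · rw [coeff_C]
          split_ifs
          · exact Algebra.subset_adjoin ⟨0, rfl⟩
          · exact Subalgebra.zero_mem _
    · rw [map_one, one_mul, eval₂_C]

end zr

end TD81

end FR
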