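import Pool.Agent.Lib.MP_64d474_lc.FR.TDa46

/-!
# Schur complements of block diagonal matrices by bordered determinants
-/

set_option autoImplicit false

namespace FR

open MvPolynomial AK LS DF

/-- bordered determinant -/
theorem det_bord {R ι : Type*} [CommRing R] [Fintype ι] [DecidableEq ι] (M : Matrix ι ι R)
    (u y : ι → R) :
    (Matrix.fromBlocks M (Matrix.of fun i (_ : Unit) => (M.mulVec y) i)
      (Matrix.of fun (_ : Unit) j => u j) 0).det = -(∑ i, u i * y i) * M.det := by
  have h1 : Matrix.fromBlocks M (Matrix.of fun i (_ : Unit) => (M.mulVec y) i)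
      (Matrix.of fun (_ : Unit) j => u j) 0 *
      Matrix.fromBlocks 1 (Matrix.of fun i (_ : Unit) => - y i) 0 1 =
      Matrix.fromBlocks M 0 (Matrix.of fun (_ : Unit) j => u j)
        (Matrix.of fun _ _ => -(∑ i, u i * y i)) := by
    rw [Matrix.fromBlocks_multiply]
    congr 1
    · simp
    · ext i j
      simp [Matrix.mul_apply, Matrix.mulVec, dotProduct]
    · simp
    · ext i j
      simp [Matrix.mul_apply]
  have h2 := congrArg Matrix.det h1
  rw [Matrix.det_mul, Matrix.det_fromBlocks_zero₂₁, Matrix.det_one, Matrix.det_one, mul_one,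
    mul_one, Matrix.det_fromBlocks_zero₁₂] at h2
  have h3 : (Matrix.of fun _ _ => -(∑ i, u i * y i) : Matrix Unit Unit R).det =
      -(∑ i, u i * y i) := Matrix.det_unique _
  rw [h2, mul_comm, h3]

section field

variable {K : Type*} [Field K] {p : ℕ}

/-- the bordered block -/
def brd (N : Matrix (Fin p) (Fin p) K) (β : Fin p → ℕ) (u v : Fin p → K) (x : ℕ) :
    Matrix ({i // β i = x} ⊕ Unit) ({i // β i = x} ⊕ Unit) K :=
  Matrix.fromBlocks (N.toSquareBlock β x) (Matrix.of fun t _ => v t) (Matrix.of fun _ t => u t) 0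

theorem det_blocks (N : Matrix (Fin p) (Fin p) K) (β : Fin p → ℕ)
    (hβ : ∀ i j, β i ≠ β j → N i j = 0) :
    N.det = ∏ x ∈ Finset.univ.image β, (N.toSquareBlock β x).det :=
  Matrix.BlockTriangular.det (fun _ _ hij => hβ _ _ hij.ne')

theorem schur_entry (N : Matrix (Fin p) (Fin p) K) (β : Fin p → ℕ)
    (hβ : ∀ i j, β i ≠ β j → N i j = 0) (hN : N.det ≠ 0) (u v : Fin p → K) :
    ∑ i, u i * (N⁻¹.mulVec v) i =
      -∑ x ∈ Finset.univ.image β, (brd N β u v x).det / (N.toSquareBlock β x).det := by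
  classical
  set y : Fin p → K := N⁻¹.mulVec v with hy
  have hNy : N.mulVec y = v := by
    rw [hy, Matrix.mulVec_mulVec, Matrix.mul_nonsing_inv _ (isUnit_iff_ne_zero.2 hN),
      Matrix.one_mulVec]
  have hd : ∀ x ∈ Finset.univ.image β, (N.toSquareBlock β x).det ≠ 0 := by
    have h1 := hN
    rw [det_blocks N β hβ] at h1
    exact fun x hx => Finset.prod_ne_zero_iff.1 h1 x hx
  have hx : ∀ x ∈ Finset.univ.image β, (brd N β u v x).det / (N.toSquareBlock β x).det =
      -∑ i ∈ Finset.univ.filter (fun i => β i = x), u i * y i := by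
    intro x hx
    have h1 : brd N β u v x = Matrix.fromBlocks (N.toSquareBlock β x)
        (Matrix.of fun i (_ : Unit) => ((N.toSquareBlock β x).mulVec fun t => y t) i)
        (Matrix.of fun (_ : Unit) (j : {i // β i = x}) => u j) 0 := by
      unfold brd
      congr 1
      ext t _
      simp only [Matrix.of_apply]
      have h2 := congrFun hNy t
      rw [← h2, Matrix.mulVec, Matrix.mulVec, dotProduct, dotProduct]
      rw [← Finset.sum_subset (Finset.subset_univ (Finset.univ.filter fun i => β i = x))]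
      · exact Finset.sum_subtype (Finset.univ.filter fun i => β i = x) (by simp)
          (fun i => N t i * y i)
      · intro i _ hi
        rw [Finset.mem_filter, not_and] at hi
        rw [hβ t i (fun h => hi (Finset.mem_univ _) (h.symm.trans t.2)), zero_mul]
    rw [h1, det_bord, mul_div_assoc, div_self (hd x hx), mul_one]
    congr 1
    exact (Finset.sum_subtype (Finset.univ.filter fun i => β i = x) (by simp)
      (fun i => u i * y i)).symm
  rw [Finset.sum_congr rfl hx, Finset.sum_neg_distrib, neg_neg]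
  exact (Finset.sum_fiberwise_of_maps_to (fun i _ => Finset.mem_image_of_mem β (Finset.mem_univ i))
    (fun i => u i * y i)).symm

end field

section poly

variable {F : Type*} [Field F] {n l p m : ℕ}

/-- the matrix with one entry replaced by zero -/
noncomputable def zr (A : Matrix (Fin l) (Fin l) (MvPolynomial (Fin n) F)) (i j : Fin l) :
    Matrix (Fin l) (Fin l) (MvPolynomial (Fin n) F) :=
  Matrix.of fun a b => if a = i ∧ b = j then 0 else A a b

theorem zr_zero (A : Matrix (Fin l) (Fin l) (MvPolynomial (Fin n) F)) (i j a b : Fin l)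
    (h : A a b = 0) : zr A i j a b = 0 := by
  rw [zr, Matrix.of_apply, h, ite_self]

variable (A : Matrix (Fin l) (Fin l) (MvPolynomial (Fin n) F)) (f₀ g₀ : Fin p → Fin l)
  (β : Fin p → ℕ)

/-- the minor of a block -/
noncomputable def nd (x : ℕ) : MvPolynomial (Fin n) F :=
  (A.submatrix (fun i : {i // β i = x} => f₀ i) (fun i : {i // β i = x} => g₀ i)).det

/-- the bordered minor of a block -/
noncomputable def bd (i j : Fin l) (x : ℕ) : MvPolynomial (Fin n) F :=
  ((zr A i j).submatrix (Sum.elim (fun t : {i // β i = x} => f₀ t) (fun _ : Unit => i))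
    (Sum.elim (fun t : {i // β i = x} => g₀ t) (fun _ : Unit => j))).det

theorem prod_nd (hβ : ∀ i j, β i ≠ β j → A (f₀ i) (g₀ j) = 0) :
    (A.submatrix f₀ g₀).det = ∏ x ∈ Finset.univ.image β, nd A f₀ g₀ β x :=
  Matrix.BlockTriangular.det (M := A.submatrix f₀ g₀) (b := β) (fun _ _ hij => hβ _ _ hij.ne')

theorem schur_det (f₁ g₁ : Fin m → Fin l) (hβ : ∀ i j, β i ≠ β j → A (f₀ i) (g₀ j) = 0)
    (hN : (A.submatrix f₀ g₀).det ≠ 0) (hf : ∀ t i, f₀ t ≠ f₁ i) (hg : ∀ t j, g₀ t ≠ g₁ j) :
    (em (A.submatrix (Sum.elim f₀ f₁) (Sum.elim g₀ g₁)).det : RF n F) =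
      em (A.submatrix f₀ g₀).det * (Matrix.of fun i j : Fin m => (em (A (f₁ i) (g₁ j)) +
        ∑ x ∈ Finset.univ.image β,
          em (bd A f₀ g₀ β (f₁ i) (g₁ j) x) / em (nd A f₀ g₀ β x) : RF n F)).det := by
  classical
  set N : Matrix (Fin p) (Fin p) (RF n F) := em.mapMatrix (A.submatrix f₀ g₀) with hNdef
  have hNd : N.det = em (A.submatrix f₀ g₀).det := (RingHom.map_det em _).symm
  have hN0 : N.det ≠ 0 := by rw [hNd]; exact em_ne hN
  have hNβ : ∀ i j, β i ≠ β j → N i j = 0 := fun i j hij => by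
    rw [hNdef, RingHom.mapMatrix_apply, Matrix.map_apply, Matrix.submatrix_apply, hβ i j hij,
      map_zero]
  let B : Matrix (Fin p) (Fin m) (RF n F) := Matrix.of fun i j => em (A (f₀ i) (g₁ j))
  let C' : Matrix (Fin m) (Fin p) (RF n F) := Matrix.of fun i j => em (A (f₁ i) (g₀ j))
  let D : Matrix (Fin m) (Fin m) (RF n F) := Matrix.of fun i j => em (A (f₁ i) (g₁ j))
  have h1 : em.mapMatrix (A.submatrix (Sum.elim f₀ f₁) (Sum.elim g₀ g₁)) =
      Matrix.fromBlocks N B C' D := by
    ext i j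
    rcases i with i | i <;> rcases j with j | j <;> rfl
  have : Invertible N := Matrix.invertibleOfIsUnitDet N (isUnit_iff_ne_zero.2 hN0)
  rw [RingHom.map_det, h1, Matrix.det_fromBlocks₁₁, hNd]
  congr 2
  ext i j
  rw [Matrix.sub_apply, Matrix.of_apply, Matrix.mul_assoc, Matrix.invOf_eq_nonsing_inv]
  have h2 : (C' * (N⁻¹ * B)) i j =
      ∑ t, em (A (f₁ i) (g₀ t)) * (N⁻¹.mulVec fun s => em (A (f₀ s) (g₁ j))) t := by
    rw [Matrix.mul_apply]
    refine Finset.sum_congr rfl fun t _ => ?_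
    rw [Matrix.mul_apply, Matrix.mulVec, dotProduct]
    rfl
  rw [h2, schur_entry N β hNβ hN0, sub_neg_eq_add]
  congr 1
  refine Finset.sum_congr rfl fun x _ => ?_
  have h3 : (brd N β (fun t => em (A (f₁ i) (g₀ t))) (fun s => em (A (f₀ s) (g₁ j))) x).det =
      em (bd A f₀ g₀ β (f₁ i) (g₁ j) x) := by
    rw [bd, RingHom.map_det]
    congr 1
    ext a b
    rcases a with a | a <;> rcases b with b | b
    · show em (A (f₀ a) (g₀ b)) = em (zr A (f₁ i) (g₁ j) (f₀ a) (g₀ b))
      rw [zr, Matrix.of_apply, if_neg (fun h => hf _ _ h.1)]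
    · show em (A (f₀ a) (g₁ j)) = em (zr A (f₁ i) (g₁ j) (f₀ a) (g₁ j))
      rw [zr, Matrix.of_apply, if_neg (fun h => hf _ _ h.1)]
    · show em (A (f₁ i) (g₀ b)) = em (zr A (f₁ i) (g₁ j) (f₁ i) (g₀ b))
      rw [zr, Matrix.of_apply, if_neg (fun h => hg _ _ h.2)]
    · show (0 : RF n F) = em (zr A (f₁ i) (g₁ j) (f₁ i) (g₁ j))
      rw [zr, Matrix.of_apply, if_pos ⟨rfl, rfl⟩, map_zero]
  have h4 : (N.toSquareBlock β x).det = em (nd A f₀ g₀ β x) := by
    rw [nd, RingHom.map_det]
    rfl
  rw [h3, h4]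

end poly

end FR
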