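import Pool.Agent.Lib.MP_64d474_lc.FR.TDa81

/-!
# Row TD: the classes
-/

set_option autoImplicit false

namespace FR

namespace TD81

open MvPolynomial AK LS DF FR.LA81

variable {F : Type*} [Field F] {n : ℕ}

theorem isProdK_self {P : MvPolynomial (Fin n) F → Prop} {f : MvPolynomial (Fin n) F} (h : P f) :
    IsProdK P f :=
  ⟨{f}, fun p hp => by rw [Multiset.mem_singleton.1 hp]; exact h, by
    rw [Multiset.prod_singleton]⟩

theorem algF_pair {k : ℕ} (hk : 2 ≤ k) {P : MvPolynomial (Fin n) F → Prop}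
    {u v : MvPolynomial (Fin n) F} (hu : P u) (hv : P v) : AlgF k P {u, v} := by
  refine ⟨2, ![u, v], fun j => ?_, fun S _ => ?_, ?_⟩
  · refine Fin.cases (isProdK_self hu) (fun j => ?_) j
    refine Fin.cases (isProdK_self hv) (fun j => j.elim0) j
  · exact (Finset.card_le_univ S).trans (by rw [Fintype.card_fin]; exact hk)
  · intro g hg
    rcases hg with rfl | hg
    · exact Algebra.subset_adjoin ⟨0, rfl⟩
    · rw [Set.mem_singleton_iff.1 hg]
      exact Algebra.subset_adjoin ⟨1, rfl⟩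

open Classical in
theorem locK_of {k e : ℕ} (hk : 2 ≤ k) {P : MvPolynomial (Fin n) F → Prop} (X : Finset ℕ)
    (U V : ℕ → MvPolynomial (Fin n) F) (hV0 : ∀ x, V x ≠ 0) (hU : ∀ x, P (U x))
    (hV : ∀ x, P (V x))
    (hocc : ∀ i, (X.filter fun x => (U x).degreeOf i ≠ 0 ∨ (V x).degreeOf i ≠ 0).card ≤ k) :
    LocK 1 k e P (∑ x ∈ X, em (U x) / em (V x)) := by
  refine ⟨X.card, fun a => U (X.equivFin.symm a), fun a => V (X.equivFin.symm a),
    fun a => ⟨hV0 _, algF_pair hk (hU _) (hV _)⟩, fun J hJ => ?_,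
    fun h => absurd h (lt_irrefl 1), ?_⟩
  · obtain ⟨i, rfl⟩ := Finset.card_eq_one.1 hJ
    refine le_trans ?_ (hocc i)
    refine Finset.card_le_card_of_injOn (fun a => (X.equivFin.symm a : ℕ)) (fun a ha => ?_)
      (fun a _ b _ hab => X.equivFin.symm.injective (Subtype.ext hab))
    have h1 := (Finset.mem_filter.1 (Finset.mem_coe.1 ha)).2 i (Finset.mem_singleton_self i)
    exact Finset.mem_coe.2 (Finset.mem_filter.2 ⟨(X.equivFin.symm a).2, h1⟩)
  · rw [← Finset.sum_coe_sort X (fun x => em (U x) / em (V x))]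
    exact (Equiv.sum_comp X.equivFin.symm fun x : X => em (U x) / em (V x)).symm

theorem mixK_of {k e : ℕ} {P : MvPolynomial (Fin n) F → Prop} {f : MvPolynomial (Fin n) F}
    {p : Type} [Fintype p] [DecidableEq p] {T : MvPolynomial (Fin n) F} (hT : IsProdK P T)
    {B : Matrix p p (MvPolynomial (Fin n) F)} (hB : ∀ i j, P (B i j)) {σ : p → p → RF n F}
    (hσ : ∀ i j, LocK 1 k e P (σ i j)) (h0 : LocK 1 k e P 0) (ε : ℤˣ)
    (hcard : Fintype.card p * Fintype.card p + 1 ≤ k)
    (heq : ((ε : ℤ) : RF n F) * em f =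
      em T * (Matrix.of fun i j => em (B i j) + σ i j).det) : MixK 1 k e P f := by
  classical
  set q := Fintype.card (p × p) with hq
  have hqk : q + 1 ≤ k := by rw [hq, Fintype.card_prod]; exact hcard
  let ee : p × p ≃ Fin q := Fintype.equivFin _
  let idx : p → p → Fin k := fun i j => ⟨ee (i, j), by have := (ee (i, j)).2; omega⟩
  let σ' : Fin k → RF n F := fun r => if h : (r : ℕ) < q then
    σ (ee.symm ⟨r, h⟩).1 (ee.symm ⟨r, h⟩).2 else 0
  have hidx : ∀ i j, σ' (idx i j) = σ i j := by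
    intro i j
    have h1 : ((idx i j : Fin k) : ℕ) < q := (ee (i, j)).2
    show (if h : ((idx i j : Fin k) : ℕ) < q then
      σ (ee.symm ⟨(idx i j : Fin k), h⟩).1 (ee.symm ⟨(idx i j : Fin k), h⟩).2 else 0) = _
    rw [dif_pos h1]
    have h2 : (⟨(idx i j : Fin k), h1⟩ : Fin q) = ee (i, j) := rfl
    rw [h2, Equiv.symm_apply_apply]
  let T' : Fin (q + 1) → MvPolynomial (Fin n) F :=
    Fin.cons T fun r => B (ee.symm r).1 (ee.symm r).2
  let S : Subalgebra F (MvPolynomial (Fin n) F) := Algebra.adjoin F (Set.range T')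
  have hTS : T ∈ S := Algebra.subset_adjoin ⟨0, rfl⟩
  have hBS : ∀ i j, B i j ∈ S := fun i j => Algebra.subset_adjoin ⟨(ee (i, j)).succ, by
    show B (ee.symm (ee (i, j))).1 (ee.symm (ee (i, j))).2 = B i j
    rw [Equiv.symm_apply_apply]⟩
  let ι : S →+* MvPolynomial (Fin n) F := S.val.toRingHom
  let Q₀ : MvPolynomial (Fin k) S := C (((ε : ℤ) : S) * ⟨T, hTS⟩) *
    (Matrix.of fun i j => C (⟨B i j, hBS i j⟩ : S) + X (idx i j)).det
  have hmap : map ι Q₀ = C (((ε : ℤ) : MvPolynomial (Fin n) F) * T) *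
      (Matrix.of fun i j => C (B i j) + X (idx i j)).det := by
    rw [map_mul]
    refine congrArg₂ (· * ·) ?_ ?_
    · rw [map_C, map_mul, map_intCast]
      rfl
    · have h5 := RingHom.map_det (map ι : MvPolynomial (Fin k) S →+*
        MvPolynomial (Fin k) (MvPolynomial (Fin n) F))
        (Matrix.of fun i j => C (⟨B i j, hBS i j⟩ : S) + X (idx i j))
      refine h5.trans (congrArg Matrix.det ?_)
      ext1 i j
      simp only [RingHom.mapMatrix_apply, Matrix.map_apply, Matrix.of_apply, map_add, map_C, map_X]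
      rfl
  refine ⟨σ', map ι Q₀, 1, one_ne_zero, fun j => ?_, fun j => ?_, ?_, ?_⟩
  · show LocK 1 k e P (if h : (j : ℕ) < q then σ (ee.symm ⟨j, h⟩).1 (ee.symm ⟨j, h⟩).2 else 0)
    split_ifs
    · exact hσ _ _
    · exact h0
  · rw [hmap]
    refine (degreeOf_C_mul_le _ _ _).trans ?_
    refine det_deg _ j _ fun τ => ?_
    refine (Finset.sum_le_card_nsmul _ _ 1 fun i _ => ?_).trans ?_
    · rw [Matrix.of_apply]
      refine (degreeOf_add_le _ _ _).trans (max_le ?_ ?_)
      · rw [degreeOf_C]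
        exact Nat.zero_le _
      · rw [degreeOf_X]
        split_ifs <;> omega
    · rw [smul_eq_mul, mul_one, Finset.card_univ]
      have := Nat.le_mul_self (Fintype.card p)
      omega
  · refine ⟨q + 1, T', fun r => ?_, fun S' _ => ?_, ?_⟩
    · refine Fin.cases hT (fun r => isProdK_self (hB _ _)) r
    · exact (Finset.card_le_univ S').trans (by rw [Fintype.card_fin]; exact hqk)
    · intro g hg
      rcases Set.mem_insert_iff.1 hg with rfl | ⟨μ, rfl⟩
      · exact Subalgebra.one_mem _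
      · rw [coeff_map]
        exact (coeff μ Q₀).2
  · rw [map_one, one_mul, hmap, eval₂_mul, eval₂_C, map_mul, map_intCast]
    have h1 : eval₂ em σ' (Matrix.of fun i j => C (B i j) + X (idx i j)).det =
        (Matrix.of fun i j => em (B i j) + σ i j).det := by
      rw [← coe_eval₂Hom, RingHom.map_det]
      congr 1
      ext1 i j
      simp only [RingHom.mapMatrix_apply, Matrix.map_apply, Matrix.of_apply,
        coe_eval₂Hom, eval₂_add, eval₂_C, eval₂_X, hidx]
    rw [h1, mul_assoc, ← heq, ← mul_assoc]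
    have h2 : ((ε : ℤ) : RF n F) * ((ε : ℤ) : RF n F) = 1 := by
      rw [← Int.cast_mul]
      rcases Int.units_eq_one_or ε with h3 | h3 <;> rw [h3] <;> simp
    rw [h2, one_mul]

end TD81

end FR
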