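import Pool.Agent.Lib.MP_64d474_lc.FR.Defs15

/-!
# Row TD: pieces
-/

set_option autoImplicit false

namespace FR

open MvPolynomial Finset

/-- Piece P1a: a matrix with a large rectangle of zeros is singular. -/
def StRect : Prop :=
  ∀ (K : Type*) [CommRing K] (l : ℕ) (A : Matrix (Fin l) (Fin l) K) (I J : Finset (Fin l)),
    (∀ i ∈ I, ∀ j ∈ J, A i j = 0) → A.det ≠ 0 → J.card ≤ (univ \ I).card

/-- Piece P1b: the number of monomials of a determinant. -/
def StSupp : Prop :=
  ∀ (F : Type*) [Field F] (n l L s : ℕ) (A : Matrix (Fin l) (Fin l) (MvPolynomial (Fin n) F)),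
    1 ≤ s → l ≤ L → (∀ i j, (A i j).support.card ≤ s) →
    A.det.support.card ≤ L.factorial * s ^ L

/-- Piece P1c: the degree of a determinant in a variable that is in few entries. -/
def StDeg : Prop :=
  ∀ (F : Type*) [Field F] (n l e k : ℕ) (A : Matrix (Fin l) (Fin l) (MvPolynomial (Fin n) F))
    (x : Fin n), (∀ i j, (A i j).degreeOf x ≤ e) →
    (Finset.univ.filter fun p : Fin l × Fin l => (A p.1 p.2).degreeOf x ≠ 0).card ≤ k →
    A.det.degreeOf x ≤ k * e

/-- Piece P2a: rectangles of rectangles. -/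
def StDeepSub : Prop :=
  ∀ (F : Type*) [Field F] (n l l' c c' h : ℕ) (A : Matrix (Fin l) (Fin l) (MvPolynomial (Fin n) F))
    (M : Matrix (Fin l') (Fin l') (MvPolynomial (Fin n) F)) (f g : Fin l' → Fin l)
    (I J : Finset (Fin l)) (I₀ J₀ : Finset (Fin l')), c ≤ c' → Function.Injective f →
    Function.Injective g → (∀ p q, M p q = 0 ∨ M p q = A (f p) (g q)) →
    (∀ p ∈ I₀, f p ∈ I) → (∀ q ∈ J₀, g q ∈ J) → Deep c A h I J → Deep c' M h I₀ J₀

/-- Piece P2b: one more row and one more column. -/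
def StDeepBord : Prop :=
  ∀ (F : Type*) [Field F] (n l l' c h : ℕ) (A : Matrix (Fin l) (Fin l) (MvPolynomial (Fin n) F))
    (M : Matrix (Fin l') (Fin l') (MvPolynomial (Fin n) F)) (f g : Fin l' → Fin l)
    (I J : Finset (Fin l)), Function.Injective f →
    Function.Injective g → (∀ p q, M p q = 0 ∨ M p q = A (f p) (g q)) →
    (univ.filter fun p => f p ∉ I).card ≤ 1 → (univ.filter fun q => g q ∉ J).card ≤ 1 →
    Deep c A (h + 1) I J → Deep (c + 1) M (h + 1) univ univ

/-- Piece P2c. -/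
def StDeepOne : Prop :=
  ∀ (F : Type*) [Field F] (n c h : ℕ) (M : Matrix (Fin 1) (Fin 1) (MvPolynomial (Fin n) F)),
    Deep (c + 1) M (h + 1) univ univ

end FR
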