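import Pool.Agent.Lib.MP_64d474_lc.FR.Defs15
import Pool.Agent.Lib.MP_64d474_lc.LS.U95

/-!
# Families of rational functions: rows U1 to U6
-/

set_option autoImplicit false

namespace FR

open MvPolynomial AK LS DF

section U

variable {F : Type*} [Field F] {n K K' : ℕ} {P P' : MvPolynomial (Fin n) F → Prop}

theorem fr_mono {A B : Subalgebra F (MvPolynomial (Fin n) F)} (h : A ≤ B) : fr A ≤ fr B := by
  rintro g ⟨u, hu, v, hv, h0, rfl⟩
  exact ⟨u, h hu, v, h hv, h0, rfl⟩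

theorem em_mem_fr {A : Subalgebra F (MvPolynomial (Fin n) F)} {f : MvPolynomial (Fin n) F}
    (h : f ∈ A) : em f ∈ fr A :=
  ⟨f, h, 1, A.one_mem, one_ne_zero, by rw [map_one, div_one]⟩

theorem algK_iff {G : Set (RF n F)} : AlgK K P G ↔ ∃ G0 : Set (MvPolynomial (Fin n) F),
    AlgF K P G0 ∧ G ⊆ (fr (Algebra.adjoin F G0) : Set (RF n F)) := by
  constructor
  · rintro ⟨m, T, h1, h2, h3⟩
    exact ⟨Set.range T, ⟨m, T, h1, h2, Algebra.subset_adjoin⟩, h3⟩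
  · rintro ⟨G0, ⟨m, T, h1, h2, h3⟩, h4⟩
    exact ⟨m, T, h1, h2, h4.trans (SetLike.coe_subset_coe.2 (fr_mono (Algebra.adjoin_le h3)))⟩

/-- Row U1. -/
theorem algK_union {G G' : Set (RF n F)} (h : AlgK K P G) (h' : AlgK K' P G') :
    AlgK (K + K') P (G ∪ G') := by
  obtain ⟨G0, h1, h2⟩ := algK_iff.1 h
  obtain ⟨G0', h1', h2'⟩ := algK_iff.1 h'
  refine algK_iff.2 ⟨G0 ∪ G0', algF_union h1 h1', Set.union_subset (h2.trans ?_) (h2'.trans ?_)⟩
  · exact SetLike.coe_subset_coe.2 (fr_mono (Algebra.adjoin_mono Set.subset_union_left))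
  · exact SetLike.coe_subset_coe.2 (fr_mono (Algebra.adjoin_mono Set.subset_union_right))

/-- Row U2. -/
theorem algK_iUnion {ι : Type} [Fintype ι] {G : ι → Set (RF n F)} (h : ∀ i, AlgK K P (G i)) :
    AlgK (Fintype.card ι * K) P (⋃ i, G i) := by
  choose G0 h1 h2 using fun i => algK_iff.1 (h i)
  refine algK_iff.2 ⟨⋃ i, G0 i, algF_iUnion h1, Set.iUnion_subset fun i => (h2 i).trans ?_⟩
  exact SetLike.coe_subset_coe.2 (fr_mono (Algebra.adjoin_mono (Set.subset_iUnion G0 i)))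

/-- Row U3. -/
theorem algK_closure {G : Set (RF n F)} (h : AlgK K P G) :
    AlgK K P (Subfield.closure (G ∪ Set.range fun a : F => em (C a)) : Set (RF n F)) := by
  obtain ⟨m, T, h1, h2, h3⟩ := h
  refine ⟨m, T, h1, h2, SetLike.coe_subset_coe.2 (Subfield.closure_le.2
    (Set.union_subset h3 ?_))⟩
  rintro _ ⟨a, rfl⟩
  exact em_mem_fr (Subalgebra.algebraMap_mem _ a)

/-- Row U4. -/
theorem algK_mono {G G' : Set (RF n F)} (hK : K ≤ K') (hP : ∀ f, P f → P' f) (hG : G' ⊆ G)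
    (h : AlgK K P G) : AlgK K' P' G' := by
  obtain ⟨m, T, h1, h2, h3⟩ := h
  refine ⟨m, T, fun j => ?_, fun s hs => (h2 s hs).trans hK, hG.trans h3⟩
  obtain ⟨s, hs, h⟩ := h1 j
  exact ⟨s, fun p hp => hP p (hs p hp), h⟩

/-- Row U5. -/
theorem algK_of_algF {G : Set (MvPolynomial (Fin n) F)} (h : AlgF K P G) :
    AlgK K P (em '' G) := by
  obtain ⟨m, T, h1, h2, h3⟩ := h
  refine ⟨m, T, h1, h2, ?_⟩
  rintro _ ⟨f, hf, rfl⟩
  exact em_mem_fr (h3 hf)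

/-- Row U6. -/
theorem exists_uv {G : Set (RF n F)} (h : AlgK K P G) {g : RF n F} (hg : g ∈ G) :
    ∃ u v : MvPolynomial (Fin n) F, v ≠ 0 ∧ DH.Alg K P u ∧ DH.Alg K P v ∧ g = em u / em v := by
  obtain ⟨m, T, h1, h2, h3⟩ := h
  obtain ⟨u, hu, v, hv, h0, hg'⟩ := h3 hg
  exact ⟨u, v, h0, ⟨m, T, h1, h2, hu⟩, ⟨m, T, h1, h2, hv⟩, hg'⟩

end U

end FR
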