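import Pool.Agent.Lib.MP_64d474_lc.FR.Defs15

set_option autoImplicit false

/-!
# Families of rational functions: unions
-/

namespace FR

open MvPolynomial AK LS DF

section U

variable {F : Type*} [Field F] {n K K' : ℕ} {P P' : MvPolynomial (Fin n) F → Prop}

theorem fr_mono {A B : Subalgebra F (MvPolynomial (Fin n) F)} (h : A ≤ B) : fr A ≤ fr B := by
  rintro _ ⟨u, hu, v, hv, hv0, rfl⟩
  exact ⟨u, h hu, v, h hv, hv0, rfl⟩

theorem em_mem_fr {A : Subalgebra F (MvPolynomial (Fin n) F)} {f : MvPolynomial (Fin n) F}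
    (h : f ∈ A) : em f ∈ fr A :=
  ⟨f, h, 1, A.one_mem, one_ne_zero, by rw [map_one, div_one]⟩

/-- A family indexed by any finite type. -/
theorem algK_of {ι : Type*} [Fintype ι] {G : Set (RF n F)}
    (T : ι → MvPolynomial (Fin n) F) (h1 : ∀ j, IsProdK P (T j))
    (h2 : ∀ s : Finset ι, AlgebraicIndependent F (fun j : s => T j) → s.card ≤ K)
    (h3 : G ⊆ (fr (Algebra.adjoin F (Set.range T)) : Set (RF n F))) :
    AlgK K P G := by
  classical
  let φ := Fintype.equivFin ι
  refine ⟨Fintype.card ι, fun j => T (φ.symm j), fun j => h1 _, fun s hs => ?_, ?_⟩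
  · have h := h2 (s.map φ.symm.toEmbedding) (by
      let ψ : (s.map φ.symm.toEmbedding : Finset ι) ≃ s :=
        { toFun := fun j => ⟨φ j, by
            have := j.2
            rw [Finset.mem_map_equiv] at this
            simpa using this⟩
          invFun := fun j => ⟨φ.symm j, by
            rw [Finset.mem_map_equiv]
            simp⟩
          left_inv := fun j => by simp
          right_inv := fun j => by simp }
      have h := hs.comp ψ ψ.injective
      convert h using 1
      funext j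
      simp [ψ])
    simpa using h
  · have : Set.range (fun j => T (φ.symm j)) = Set.range T :=
      φ.symm.surjective.range_comp T
    rw [this]
    exact h3

/-- Row U1. -/
theorem algK_union {G G' : Set (RF n F)} (h : AlgK K P G) (h' : AlgK K' P G') :
    AlgK (K + K') P (G ∪ G') := by
  classical
  obtain ⟨m, T, h1, h2, h3⟩ := h
  obtain ⟨m', T', h1', h2', h3'⟩ := h'
  refine algK_of (Sum.elim T T') (fun j => ?_) (fun s hs => ?_) ?_
  · rcases j with j | j
    · exact h1 j
    · exact h1' j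
  · rw [← Finset.card_toLeft_add_card_toRight]
    refine Nat.add_le_add (h2 _ ?_) (h2' _ ?_)
    · exact hs.comp (fun j : s.toLeft => (⟨Sum.inl j.1, Finset.mem_toLeft.1 j.2⟩ : s))
        fun a b hab => Subtype.ext (Sum.inl_injective (congrArg Subtype.val hab))
    · exact hs.comp (fun j : s.toRight => (⟨Sum.inr j.1, Finset.mem_toRight.1 j.2⟩ : s))
        fun a b hab => Subtype.ext (Sum.inr_injective (congrArg Subtype.val hab))
  · rw [Set.Sum.elim_range]
    refine Set.union_subset (h3.trans ?_) (h3'.trans ?_)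
    · exact fr_mono (Algebra.adjoin_mono Set.subset_union_left)
    · exact fr_mono (Algebra.adjoin_mono Set.subset_union_right)

/-- Row U2. -/
theorem algK_iUnion {ι : Type} [Fintype ι] {G : ι → Set (RF n F)} (h : ∀ i, AlgK K P (G i)) :
    AlgK (Fintype.card ι * K) P (⋃ i, G i) := by
  classical
  choose m T h1 h2 h3 using h
  refine algK_of (fun x : Σ i, Fin (m i) => T x.1 x.2) (fun x => h1 _ _) (fun s hs => ?_) ?_
  · have hs1 : s = Finset.univ.sigma fun i =>
        s.preimage (Sigma.mk i) sigma_mk_injective.injOn := by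
      ext x
      simp
    have hc : s.card = ∑ i, (s.preimage (Sigma.mk i) sigma_mk_injective.injOn).card := by
      conv_lhs => rw [hs1]
      exact Finset.card_sigma _ _
    rw [hc]
    refine (Finset.sum_le_card_nsmul _ _ K fun i _ => h2 i _ ?_).trans (le_of_eq ?_)
    · exact hs.comp (fun j : (s.preimage (Sigma.mk i) sigma_mk_injective.injOn : Finset _) =>
        (⟨⟨i, j.1⟩, Finset.mem_preimage.1 j.2⟩ : s))
        fun a b hab => Subtype.ext (eq_of_heq (Sigma.mk.inj (congrArg Subtype.val hab)).2)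
    · rw [Finset.card_univ, smul_eq_mul]
  · refine Set.iUnion_subset fun i => (h3 i).trans (fr_mono (Algebra.adjoin_mono ?_))
    rintro _ ⟨j, rfl⟩
    exact ⟨⟨i, j⟩, rfl⟩

/-- Row U3. -/
theorem algK_closure {G : Set (RF n F)} (h : AlgK K P G) :
    AlgK K P (Subfield.closure (G ∪ Set.range fun a : F => em (C a)) : Set (RF n F)) := by
  obtain ⟨m, T, h1, h2, h3⟩ := h
  refine ⟨m, T, h1, h2, SetLike.coe_subset_coe.2 (Subfield.closure_le.2
    (Set.union_subset h3 ?_))⟩
  rintro _ ⟨a, rfl⟩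
  exact em_mem_fr (Subalgebra.algebraMap_mem _ a)

/-- Row U4. -/
theorem algK_mono {G G' : Set (RF n F)} (hK : K ≤ K') (hP : ∀ f, P f → P' f) (hG : G' ⊆ G)
    (h : AlgK K P G) : AlgK K' P' G' := by
  obtain ⟨m, T, h1, h2, h3⟩ := h
  refine ⟨m, T, fun j => ?_, fun s hs => (h2 s hs).trans hK, hG.trans h3⟩
  obtain ⟨s, hs, h⟩ := h1 j
  exact ⟨s, fun p hp => hP p (hs p hp), h⟩

/-- Row U5. -/
theorem algK_of_algF {G : Set (MvPolynomial (Fin n) F)} (h : AlgF K P G) :
    AlgK K P (em '' G) := by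
  obtain ⟨m, T, h1, h2, h3⟩ := h
  refine ⟨m, T, h1, h2, ?_⟩
  rintro _ ⟨f, hf, rfl⟩
  exact em_mem_fr (h3 hf)

/-- Row U6. -/
theorem exists_uv {G : Set (RF n F)} (h : AlgK K P G) {g : RF n F} (hg : g ∈ G) :
    ∃ u v : MvPolynomial (Fin n) F, v ≠ 0 ∧ DH.Alg K P u ∧ DH.Alg K P v ∧ g = em u / em v := by
  obtain ⟨m, T, h1, h2, h3⟩ := h
  obtain ⟨u, hu, v, hv, hv0, e⟩ := h3 hg
  exact ⟨u, v, hv0, ⟨m, T, h1, h2, hu⟩, ⟨m, T, h1, h2, hv⟩, e⟩

end U

end FR
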